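import Pool.Agent.Lib.MP_7b9603_alLO.Defs

/-!
# Cones and order preserving actions
-/

set_option autoImplicit false

namespace Pool.Agent.Lib.MP_7b9603_alLO

open SPH Pool.Agent.Lib.MP_7b9603_alCF

universe u v

/-- Comparison of points in the orbit of `x0`. -/
theorem action_le {G : Type u} [Group G] {X : Type v} [LinearOrder X] (ρ : G →* (X ≃o X))
    (x0 : X) (g h : G) : ρ g x0 < ρ h x0 ↔ x0 < ρ (g⁻¹ * h) x0 := by
  have h1 : ρ g (ρ (g⁻¹ * h) x0) = ρ h x0 := by
    rw [← RelIso.mul_apply, ← map_mul, mul_inv_cancel_left]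
  rw [← h1]
  exact (ρ g).lt_iff_lt

private theorem c1_mul {G : Type u} [Group G] {X : Type v} [LinearOrder X] (ρ : G →* (X ≃o X))
    (a b : G) (x : X) : ρ (a * b) x = ρ a (ρ b x) := by
  rw [map_mul, RelIso.mul_apply]

private theorem c1_inv {G : Type u} [Group G] {X : Type v} [LinearOrder X] (ρ : G →* (X ≃o X))
    (a : G) (x : X) : ρ a⁻¹ (ρ a x) = x := by
  rw [← c1_mul, inv_mul_cancel, map_one, RelIso.one_apply]

theorem cone_of_action {G : Type u} [Group G] {X : Type v} [LinearOrder X] (ρ : G →* (X ≃o X))
    (x0 : X) (H : Subgroup G) (hH : ∀ g, ρ g x0 = x0 ↔ g ∈ H) :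
    IsCone H {g | x0 < ρ g x0} := by
  refine ⟨?_, ?_, ?_, ?_, ?_, ?_⟩
  · intro a ha b hb
    change x0 < ρ (a * b) x0
    rw [c1_mul]
    exact lt_trans ha ((ρ a).lt_iff_lt.2 hb)
  · intro h hh a ha
    change x0 < ρ (h * a) x0
    rw [c1_mul]
    have h1 : ρ h x0 < ρ h (ρ a x0) := (ρ h).lt_iff_lt.2 ha
    rwa [(hH h).2 hh] at h1
  · intro h hh a ha
    change x0 < ρ (a * h) x0
    rw [c1_mul, (hH h).2 hh]
    exact ha
  · intro g
    rcases lt_trichotomy x0 (ρ g x0) with h1 | h1 | h1
    · exact Or.inr (Or.inl h1)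
    · exact Or.inl ((hH g).1 h1.symm)
    · refine Or.inr (Or.inr ?_)
      change x0 < ρ g⁻¹ x0
      have h2 := (ρ g⁻¹).lt_iff_lt.2 h1
      rwa [c1_inv] at h2
  · intro g hg hg'
    have h1 : x0 < ρ g x0 := hg
    rw [(hH g).2 hg'] at h1
    exact lt_irrefl _ h1
  · intro g hg hg'
    have h1 : x0 < ρ g x0 := hg
    have h2 : x0 < ρ g⁻¹ x0 := hg'
    have h3 := (ρ g⁻¹).lt_iff_lt.2 h1
    rw [c1_inv] at h3
    exact lt_asymm h2 h3

private theorem c1_iff {G : Type u} [Group G] {H : Subgroup G} {P : Set G} (hP : IsCone H P)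
    (g h : G) : ((g : G ⧸ H).out)⁻¹ * (h : G ⧸ H).out ∈ P ↔ g⁻¹ * h ∈ P := by
  obtain ⟨a, ha⟩ := QuotientGroup.mk_out_eq_mul H g
  obtain ⟨b, hb⟩ := QuotientGroup.mk_out_eq_mul H h
  rw [ha, hb, mul_inv_rev]
  constructor
  · intro h1
    have h2 := hP.right _ (H.inv_mem b.2) _ (hP.left _ a.2 _ h1)
    convert h2 using 1
    group
  · intro h1
    have h2 := hP.right _ b.2 _ (hP.left _ (H.inv_mem a.2) _ h1)
    convert h2 using 1
    group

theorem action_of_cone {G : Type u} [Group G] (H : Subgroup G) (P : Set G) (hP : IsCone H P) :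
    ∃ (X : Type u) (_ : LinearOrder X) (ρ : G →* (X ≃o X)) (x0 : X),
      (∀ g, ρ g x0 = x0 ↔ g ∈ H) ∧ (∀ g, x0 < ρ g x0 ↔ g ∈ P) ∧ (∀ x, ∃ g, ρ g x0 = x) := by
  classical
  let r : G ⧸ H → G ⧸ H → Prop := fun x y => x.out⁻¹ * y.out ∈ P
  have hr : ∀ g h : G, r (g : G ⧸ H) (h : G ⧸ H) ↔ g⁻¹ * h ∈ P := fun g h => c1_iff hP g h
  have hirr : ∀ x, ¬ r x x := by
    intro x
    induction x using QuotientGroup.induction_on with
    | H g =>
      rw [hr]
      intro h
      rw [inv_mul_cancel] at h
      exact hP.notMem _ h H.one_mem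
  have htr : ∀ x y z, r x y → r y z → r x z := by
    intro x y z
    induction x using QuotientGroup.induction_on with
    | H a =>
      induction y using QuotientGroup.induction_on with
      | H b =>
        induction z using QuotientGroup.induction_on with
        | H c =>
          rw [hr, hr, hr]
          intro h1 h2
          have h3 := hP.mul _ h1 _ h2
          convert h3 using 1
          group
  have htot : ∀ x y, r x y ∨ x = y ∨ r y x := by
    intro x y
    induction x using QuotientGroup.induction_on with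
    | H a =>
      induction y using QuotientGroup.induction_on with
      | H b =>
        rw [hr, hr, QuotientGroup.eq]
        rcases hP.total (a⁻¹ * b) with h | h | h
        · exact Or.inr (Or.inl h)
        · exact Or.inl h
        · refine Or.inr (Or.inr ?_)
          convert h using 1
          group
  let L : LinearOrder (G ⧸ H) :=
    { le := fun x y => x = y ∨ r x y
      lt := r
      le_refl := fun x => Or.inl rfl
      le_trans := by
        rintro x y z (rfl | h1) (rfl | h2)
        · exact Or.inl rfl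
        · exact Or.inr h2
        · exact Or.inr h1
        · exact Or.inr (htr _ _ _ h1 h2)
      lt_iff_le_not_ge := by
        intro x y
        constructor
        · intro h
          refine ⟨Or.inr h, ?_⟩
          rintro (rfl | h')
          · exact hirr _ h
          · exact hirr _ (htr _ _ _ h h')
        · rintro ⟨rfl | h, h'⟩
          · exact absurd (Or.inl rfl) h'
          · exact h
      le_antisymm := by
        rintro x y (rfl | h1) (h2 | h2)
        · rfl
        · rfl
        · exact h2.symm
        · exact absurd (htr _ _ _ h1 h2) (hirr _)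
      le_total := by
        intro x y
        rcases htot x y with h | h | h
        · exact Or.inl (Or.inr h)
        · exact Or.inl (Or.inl h)
        · exact Or.inr (Or.inr h)
      toDecidableLE := fun _ _ => Classical.propDecidable _ }
  have hlt : ∀ g h : G, L.lt (g : G ⧸ H) (h : G ⧸ H) ↔ g⁻¹ * h ∈ P := hr
  have hsmul : ∀ (g : G) (x y : G ⧸ H), r (g • x) (g • y) ↔ r x y := by
    intro g x y
    induction x using QuotientGroup.induction_on with
    | H a =>
      induction y using QuotientGroup.induction_on with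
      | H b =>
        rw [MulAction.Quotient.smul_coe, MulAction.Quotient.smul_coe, hr, hr]
        simp only [smul_eq_mul]
        rw [show (g * a)⁻¹ * (g * b) = a⁻¹ * b by group]
  let _ := L
  let ρ : G →* ((G ⧸ H) ≃o (G ⧸ H)) :=
    { toFun := fun g =>
        { toEquiv := MulAction.toPerm g
          map_rel_iff' := by
            intro x y
            change (g • x = g • y ∨ r (g • x) (g • y)) ↔ (x = y ∨ r x y)
            rw [hsmul, smul_left_cancel_iff] }
      map_one' := by
        ext x
        exact one_smul G x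
      map_mul' := by
        intro a b
        ext x
        exact mul_smul a b x }
  have hρ : ∀ g : G, ρ g ((1 : G) : G ⧸ H) = (g : G ⧸ H) := by
    intro g
    change g • ((1 : G) : G ⧸ H) = (g : G ⧸ H)
    rw [MulAction.Quotient.smul_coe, smul_eq_mul, mul_one]
  refine ⟨G ⧸ H, L, ρ, ((1 : G) : G ⧸ H), ?_, ?_, ?_⟩
  · intro g
    rw [hρ, eq_comm, QuotientGroup.eq, inv_one, one_mul]
  · intro g
    rw [hρ]
    have := hlt 1 g
    rw [inv_one, one_mul] at this
    exact this
  · intro x
    induction x using QuotientGroup.induction_on with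
    | H g => exact ⟨g, hρ g⟩

end Pool.Agent.Lib.MP_7b9603_alLO
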