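import Pool.Agent.Lib.MP_7b9603_alLO.Defs

/-!
# Relatively convex subgroups: cones
-/

set_option autoImplicit false

namespace Pool.Agent.Lib.MP_7b9603_alLO

open SPH Pool.Agent.Lib.MP_7b9603_alCF

universe u v

theorem cone_inv {G : Type u} [Group G] {H : Subgroup G} {P : Set G} (hP : IsCone H P) :
    IsCone H P⁻¹ where
  mul a ha b hb := by
    rw [Set.mem_inv] at ha hb ⊢
    rw [mul_inv_rev]
    exact hP.mul _ hb _ ha
  left h hh a ha := by
    rw [Set.mem_inv] at ha ⊢
    rw [mul_inv_rev]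
    exact hP.right _ (H.inv_mem hh) _ ha
  right h hh a ha := by
    rw [Set.mem_inv] at ha ⊢
    rw [mul_inv_rev]
    exact hP.left _ (H.inv_mem hh) _ ha
  total g := by
    rw [Set.mem_inv, Set.mem_inv, inv_inv]
    rcases hP.total g with h | h | h
    · exact Or.inl h
    · exact Or.inr (Or.inr h)
    · exact Or.inr (Or.inl h)
  notMem g hg := by
    rw [Set.mem_inv] at hg
    intro h
    exact hP.notMem _ hg (H.inv_mem h)
  inv g hg := by
    rw [Set.mem_inv] at hg ⊢
    exact hP.inv _ hg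

theorem rc_map {H G : Type u} [Group H] [Group G] (j : H →* G) (hj : Function.Injective j)
    (hr : RC j.range) (K : Subgroup H) (hK : RC K) : RC (K.map j) := by
  obtain ⟨PG, hG⟩ := hr
  obtain ⟨PK, hK⟩ := hK
  have hrange : ∀ k : H, j k ∈ j.range := fun k => ⟨k, rfl⟩
  have hmr : ∀ g : G, g ∈ K.map j → g ∈ j.range := by
    rintro g ⟨k, _, rfl⟩
    exact hrange k
  refine ⟨PG ∪ j '' PK, ⟨?_, ?_, ?_, ?_, ?_, ?_⟩⟩
  · rintro a (ha | ⟨k, hk, rfl⟩) b (hb | ⟨l, hl, rfl⟩)
    · exact Or.inl (hG.mul _ ha _ hb)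
    · exact Or.inl (hG.right _ (hrange l) _ ha)
    · exact Or.inl (hG.left _ (hrange k) _ hb)
    · exact Or.inr ⟨k * l, hK.mul _ hk _ hl, map_mul j k l⟩
  · rintro h ⟨k, hk, rfl⟩ a (ha | ⟨l, hl, rfl⟩)
    · exact Or.inl (hG.left _ (hrange k) _ ha)
    · exact Or.inr ⟨k * l, hK.left _ hk _ hl, map_mul j k l⟩
  · rintro h ⟨k, hk, rfl⟩ a (ha | ⟨l, hl, rfl⟩)
    · exact Or.inl (hG.right _ (hrange k) _ ha)
    · exact Or.inr ⟨l * k, hK.right _ hk _ hl, map_mul j l k⟩
  · intro g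
    rcases hG.total g with ⟨x, rfl⟩ | h | h
    · rcases hK.total x with h | h | h
      · exact Or.inl ⟨x, h, rfl⟩
      · exact Or.inr (Or.inl (Or.inr ⟨x, h, rfl⟩))
      · exact Or.inr (Or.inr (Or.inr ⟨x⁻¹, h, map_inv j x⟩))
    · exact Or.inr (Or.inl (Or.inl h))
    · exact Or.inr (Or.inr (Or.inl h))
  · rintro g (hg | ⟨k, hk, rfl⟩) hgm
    · exact hG.notMem _ hg (hmr _ hgm)
    · obtain ⟨l, hl, hlk⟩ := hgm
      have e : l = k := hj hlk
      rw [e] at hl
      exact hK.notMem _ hk hl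
  · rintro g (hg | ⟨k, hk, rfl⟩) (hgi | ⟨l, hl, hlk⟩)
    · exact hG.inv _ hg hgi
    · apply hG.notMem _ hg
      have h1 : g⁻¹ ∈ j.range := ⟨l, hlk⟩
      have h2 := j.range.inv_mem h1
      rwa [inv_inv] at h2
    · exact hG.notMem _ hgi (j.range.inv_mem (hrange k))
    · have e : l = k⁻¹ := hj (by rw [hlk, map_inv])
      rw [e] at hl
      exact hK.inv _ hk hl

theorem cone_comap {H G : Type u} [Group H] [Group G] (j : H →* G) (K : Subgroup G) (P : Set G)
    (hP : IsCone K P) : IsCone (K.comap j) (j ⁻¹' P) where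
  mul a ha b hb := by
    rw [Set.mem_preimage] at ha hb ⊢
    rw [map_mul]
    exact hP.mul _ ha _ hb
  left h hh a ha := by
    rw [Set.mem_preimage] at ha ⊢
    rw [map_mul]
    exact hP.left _ hh _ ha
  right h hh a ha := by
    rw [Set.mem_preimage] at ha ⊢
    rw [map_mul]
    exact hP.right _ hh _ ha
  total g := by
    rw [Set.mem_preimage, Set.mem_preimage, map_inv, Subgroup.mem_comap]
    exact hP.total (j g)
  notMem g hg := hP.notMem (j g) hg
  inv g hg := by
    rw [Set.mem_preimage, map_inv]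
    exact hP.inv (j g) hg

theorem order_of_bot {G : Type u} [Group G] (h : RC (⊥ : Subgroup G)) :
    ∃ _ : LinearOrder G, ∀ a b c : G, a < b → c * a < c * b := by
  obtain ⟨P, hP⟩ := h
  have h1 : (1 : G) ∉ P := fun h => hP.notMem 1 h (Subgroup.one_mem _)
  have htr : ∀ a b c : G, a⁻¹ * b ∈ P → b⁻¹ * c ∈ P → a⁻¹ * c ∈ P := by
    intro a b c hab hbc
    have h2 := hP.mul _ hab _ hbc
    have e : a⁻¹ * b * (b⁻¹ * c) = a⁻¹ * c := by group
    rwa [e] at h2
  have hne : ∀ a b : G, a⁻¹ * b ∈ P → ¬ b⁻¹ * a ∈ P := by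
    intro a b hab hba
    have h2 := htr a b a hab hba
    rw [inv_mul_cancel] at h2
    exact h1 h2
  let o : LinearOrder G :=
    { le := fun a b => a = b ∨ a⁻¹ * b ∈ P
      lt := fun a b => a⁻¹ * b ∈ P
      le_refl := fun a => Or.inl rfl
      le_trans := by
        rintro a b c (rfl | hab) (rfl | hbc)
        · exact Or.inl rfl
        · exact Or.inr hbc
        · exact Or.inr hab
        · exact Or.inr (htr _ _ _ hab hbc)
      lt_iff_le_not_ge := by
        intro a b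
        constructor
        · intro hab
          refine ⟨Or.inr hab, ?_⟩
          rintro (rfl | hba)
          · rw [inv_mul_cancel] at hab
            exact h1 hab
          · exact hne _ _ hab hba
        · rintro ⟨rfl | hab, hn⟩
          · exact absurd (Or.inl rfl) hn
          · exact hab
      le_antisymm := by
        rintro a b (rfl | hab) (hba | hba)
        · rfl
        · rfl
        · exact hba.symm
        · exact absurd hba (hne _ _ hab)
      le_total := by
        intro a b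
        rcases hP.total (a⁻¹ * b) with h | h | h
        · left
          left
          rw [Subgroup.mem_bot] at h
          exact (inv_mul_eq_one.1 h)
        · exact Or.inl (Or.inr h)
        · right
          right
          have e : (a⁻¹ * b)⁻¹ = b⁻¹ * a := by group
          rwa [e] at h
      toDecidableLE := Classical.decRel _ }
  refine ⟨o, fun a b c hab => ?_⟩
  have e : (c * a)⁻¹ * (c * b) = a⁻¹ * b := by group
  show (c * a)⁻¹ * (c * b) ∈ P
  rw [e]
  exact hab

private theorem c2_pow {G : Type u} [Group G] {H : Subgroup G} {P : Set G} (hP : IsCone H P)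
    (g : G) (hg : g ∈ P) (n : ℕ) : g ^ (n + 1) ∈ P := by
  induction n with
  | zero => simpa using hg
  | succ n ih =>
    rw [pow_succ]
    exact hP.mul _ ih _ hg

/-- The positive powers of an element outside `H` are all positive or all negative. -/
theorem cone_zpow {G : Type u} [Group G] {H : Subgroup G} {P : Set G} (hP : IsCone H P) (g : G)
    (hg : g ∈ P) (n : ℤ) (d : G) (hd : d ∈ H) :
    (g ^ n * d ∈ H ↔ n = 0) ∧ (g ^ n * d ∈ P ↔ 0 < n) := by
  rcases lt_trichotomy n 0 with hn | hn | hn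
  · obtain ⟨k, hk⟩ : ∃ k : ℕ, n = -((k : ℤ) + 1) := ⟨(-n - 1).toNat, by omega⟩
    have h1 : (g ^ n * d)⁻¹ ∈ P := by
      have e : (g ^ n * d)⁻¹ = d⁻¹ * g ^ (k + 1) := by
        rw [mul_inv_rev, hk, zpow_neg, inv_inv]
        norm_cast
      rw [e]
      exact hP.left _ (H.inv_mem hd) _ (c2_pow hP g hg k)
    constructor
    · constructor
      · intro h
        exact absurd (H.inv_mem h) (hP.notMem _ h1)
      · intro h
        omega
    · constructor
      · intro h
        exact absurd h1 (hP.inv _ h)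
      · intro h
        omega
  · rw [hn, zpow_zero, one_mul]
    exact ⟨⟨fun _ => rfl, fun _ => hd⟩, ⟨fun h => absurd hd (hP.notMem _ h), fun h =>
      absurd h (lt_irrefl 0)⟩⟩
  · obtain ⟨k, hk⟩ : ∃ k : ℕ, n = (k : ℤ) + 1 := ⟨(n - 1).toNat, by omega⟩
    have h1 : g ^ n * d ∈ P := by
      apply hP.right _ hd
      rw [hk]
      have h2 := c2_pow hP g hg k
      exact_mod_cast h2
    constructor
    · constructor
      · intro h
        exact absurd h (hP.notMem _ h1)
      · intro h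
        omega
    · exact ⟨fun _ => hn, fun _ => h1⟩

private theorem c2_core {A B C : Type u} [Group A] [Group B] [Group C] (φA : C →* A) (φB : C →* B)
    (c0 : C) (D : Subgroup C) (hC : ∀ c : C, ∃ n : ℤ, ∃ d ∈ D, c = c0 ^ n * d)
    (A' : Subgroup A) (PA : Set A) (hPA : IsCone A' PA) (hDA : ∀ d ∈ D, φA d ∈ A')
    (hA0 : φA c0 ∈ PA)
    (B' : Subgroup B) (PB : Set B) (hPB : IsCone B' PB) (hDB : ∀ d ∈ D, φB d ∈ B')
    (hB0 : φB c0 ∈ PB) :
    (∀ c, φA c ∈ A' ↔ φB c ∈ B') ∧ ∀ c, φA c ∈ PA ↔ φB c ∈ PB := by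
  constructor
  · intro c
    obtain ⟨n, d, hd, rfl⟩ := hC c
    rw [map_mul, map_mul, map_zpow, map_zpow, (cone_zpow hPA _ hA0 n _ (hDA d hd)).1,
      (cone_zpow hPB _ hB0 n _ (hDB d hd)).1]
  · intro c
    obtain ⟨n, d, hd, rfl⟩ := hC c
    rw [map_mul, map_mul, map_zpow, map_zpow, (cone_zpow hPA _ hA0 n _ (hDA d hd)).2,
      (cone_zpow hPB _ hB0 n _ (hDB d hd)).2]

theorem cone_agree {A B C : Type u} [Group A] [Group B] [Group C] (φA : C →* A) (φB : C →* B)
    (c0 : C) (D : Subgroup C) (hC : ∀ c : C, ∃ n : ℤ, ∃ d ∈ D, c = c0 ^ n * d)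
    (A' : Subgroup A) (PA : Set A) (hPA : IsCone A' PA) (hDA : ∀ d ∈ D, φA d ∈ A')
    (hA0 : φA c0 ∉ A')
    (B' : Subgroup B) (PB : Set B) (hPB : IsCone B' PB) (hDB : ∀ d ∈ D, φB d ∈ B')
    (hB0 : φB c0 ∉ B') :
    ∃ PB' : Set B, IsCone B' PB' ∧ (∀ c, φA c ∈ A' ↔ φB c ∈ B') ∧
      ∀ c, φA c ∈ PA ↔ φB c ∈ PB' := by
  have hC' : ∀ c : C, ∃ n : ℤ, ∃ d ∈ D, c = (c0⁻¹) ^ n * d := by
    intro c
    obtain ⟨n, d, hd, rfl⟩ := hC c
    refine ⟨-n, d, hd, ?_⟩
    rw [inv_zpow, zpow_neg, inv_inv]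
  have hB : ∃ PB' : Set B, IsCone B' PB' ∧ φB c0 ∈ PB' := by
    rcases hPB.total (φB c0) with h | h | h
    · exact absurd h hB0
    · exact ⟨PB, hPB, h⟩
    · exact ⟨PB⁻¹, cone_inv hPB, h⟩
  obtain ⟨PB', hPB', hB1⟩ := hB
  rcases hPA.total (φA c0) with h | h | h
  · exact absurd h hA0
  · exact ⟨PB', hPB', c2_core φA φB c0 D hC A' PA hPA hDA h B' PB' hPB' hDB hB1⟩
  · refine ⟨PB'⁻¹, cone_inv hPB', c2_core φA φB c0⁻¹ D hC' A' PA hPA hDA ?_ B' _
      (cone_inv hPB') hDB ?_⟩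
    · rw [map_inv]
      exact h
    · rw [map_inv, Set.mem_inv, inv_inv]
      exact hB1

end Pool.Agent.Lib.MP_7b9603_alLO
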