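import Pool.Agent.Lib.MP_7b9603_alCF.A10

/-!
# Relatively convex subgroups: definitions

`IsCone H P`: `P` is the set of positive elements of a `G`-invariant linear order on `G / H`.
-/

set_option autoImplicit false

namespace Pool.Agent.Lib.MP_7b9603_alLO

open SPH

universe u v

/-- `P` is the cone of a left invariant linear order on `G / H`. -/
structure IsCone {G : Type u} [Group G] (H : Subgroup G) (P : Set G) : Prop where
  mul : ∀ a ∈ P, ∀ b ∈ P, a * b ∈ P
  left : ∀ h ∈ H, ∀ a ∈ P, h * a ∈ P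
  right : ∀ h ∈ H, ∀ a ∈ P, a * h ∈ P
  total : ∀ g, g ∈ H ∨ g ∈ P ∨ g⁻¹ ∈ P
  notMem : ∀ g ∈ P, g ∉ H
  inv : ∀ g ∈ P, g⁻¹ ∉ P

/-- `H` is (left) relatively convex in `G`. -/
def RC {G : Type u} [Group G] (H : Subgroup G) : Prop := ∃ P : Set G, IsCone H P

/-- A pair of ordered sets with actions of `A` and of `B`, the first included in the second. -/
structure St {A B C G : Type u} [Group A] [Group B] [Group C] [Group G] (φA : C →* A) (φB : C →* B)
    (jA : A →* G) (jB : B →* G) (Ξ : Type u) [MulAction G Ξ] where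
  X : Type u
  Y : Type u
  oX : LinearOrder X
  oY : LinearOrder Y
  ρX : A →* (X ≃o X)
  ρY : B →* (Y ≃o Y)
  e : X ↪o Y
  πX : X → Ξ
  πY : Y → Ξ
  he : ∀ c x, e (ρX (φA c) x) = ρY (φB c) (e x)
  hπX : ∀ a x, πX (ρX a x) = jA a • πX x
  hπY : ∀ b y, πY (ρY b y) = jB b • πY y
  hπe : ∀ x, πY (e x) = πX x

attribute [instance] St.oX St.oY

/-- The inclusion of `AX M X` for `X ⊆ Y`, the subgroup generated by the generators in `X`. -/
def im {S : Type u} (M : CoxeterMatrix S) {X Y : Set S} (h : X ⊆ Y) :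
    Subgroup (Pool.Agent.Lib.MP_7b9603_alCF.AX M Y) :=
  (Pool.Agent.Lib.MP_7b9603_alCF.incX M h).range

/-- The subgroup generated by the generators other than `r`. -/
def dl {S : Type u} (M : CoxeterMatrix S) (X : Set S) (r : S) :
    Subgroup (Pool.Agent.Lib.MP_7b9603_alCF.AX M X) :=
  im M (Set.sdiff_subset : X \ {r} ⊆ X)

/-- The property proved by induction. -/
def RCX {S : Type u} (M : CoxeterMatrix S) (X : Set S) : Prop :=
  ∀ r : X, RC (dl M X r.1) ∧ agen (Pool.Agent.Lib.MP_7b9603_alCF.sm M X) r ∉ dl M X r.1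

/-- Among any three generators with pairwise finite labels at least two labels are `2`. -/
def Two {S : Type u} (M : CoxeterMatrix S) : Prop :=
  ∀ a b c : S, a ≠ b → b ≠ c → a ≠ c → M a b ≠ 0 → M b c ≠ 0 → M a c ≠ 0 →
    (M a b = 2 ∧ M b c = 2) ∨ (M a b = 2 ∧ M a c = 2) ∨ (M b c = 2 ∧ M a c = 2)

end Pool.Agent.Lib.MP_7b9603_alLO
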