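import Pool.Agent.Lib.MP_7b9603_alLO.RcDom
import Pool.Agent.Lib.MP_7b9603_alLO.Defs
import Pool.Agent.Lib.MP_7b9603_alCF.A5

/-!
# Relatively convex parabolic subgroups and zero divisors
-/

set_option autoImplicit false

namespace Pool.Agent.Lib.MP_7b9603_alLO

open SPH Pool.Agent.Lib.MP_7b9603_alCF

universe u v w

/-- `K[A_M]` is a domain if `A_M / A_T` has an invariant linear order and `K[A_T]` is a domain. -/
theorem conv_dom {S : Type u} (M : CoxeterMatrix S) (T : Set S)
    (h : ∃ _ : LinearOrder (ArtinGroup M ⧸ Subgroup.closure (PresentedGroup.of '' T :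
      Set (ArtinGroup M))), ∀ (g : ArtinGroup M) (x y : ArtinGroup M ⧸
        Subgroup.closure (PresentedGroup.of '' T : Set (ArtinGroup M))), x < y → g • x < g • y)
    (K : Type w) [Field K] (hT : NoZeroDivisors (MonoidAlgebra K (AX M T))) :
    NoZeroDivisors (MonoidAlgebra K (ArtinGroup M)) := by
  refine dom_of_rc _ h K ?_
  let f : AX M T →* ArtinGroup M := incA (sm M T) M Subtype.val (fun _ _ => rfl)
  have hf : Function.Injective f := incA_injective _ _ _ Subtype.val_injective _
  have hr : f.range = Subgroup.closure (PresentedGroup.of '' T : Set (ArtinGroup M)) := by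
    apply le_antisymm
    · rintro _ ⟨y, rfl⟩
      have hy : y ∈ Subgroup.closure (Set.range (PresentedGroup.of (rels := artinRelM (sm M T)))) := by
        rw [PresentedGroup.closure_range_of]
        exact Subgroup.mem_top y
      have h2 : f y ∈ (Subgroup.closure (Set.range
          (PresentedGroup.of (rels := artinRelM (sm M T))))).map f := Subgroup.mem_map_of_mem f hy
      rw [MonoidHom.map_closure] at h2
      refine Subgroup.closure_mono ?_ h2
      rintro _ ⟨_, ⟨a, rfl⟩, rfl⟩
      exact ⟨a.1, a.2, (incA_agen (sm M T) M Subtype.val (fun _ _ => rfl) a).symm⟩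
    · rw [Subgroup.closure_le]
      rintro _ ⟨a, ha, rfl⟩
      exact ⟨agen (sm M T) ⟨a, ha⟩, incA_agen (sm M T) M Subtype.val (fun _ _ => rfl) ⟨a, ha⟩⟩
  rw [← hr]
  let e : AX M T ≃* f.range := MonoidHom.ofInjective hf
  exact (MonoidAlgebra.mapDomainRingEquiv K e.symm).injective.noZeroDivisors _
    (map_zero _) (map_mul _)

end Pool.Agent.Lib.MP_7b9603_alLO
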