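import Pool.Agent.Lib.MP_7b9603_alLO.Defs

/-!
# A piecewise linear map whose square is the translation by one
-/

set_option autoImplicit false

namespace Pool.Agent.Lib.MP_7b9603_alLO

open SPH Pool.Agent.Lib.MP_7b9603_alCF

universe u v

/-- the map on `[0, 1)` -/
private def pl_h (a s f : ℚ) : ℚ := if f < a then a + s * f else 1 + (f - a) / s

/-- the map -/
private def pl_x (a s q : ℚ) : ℚ := ⌊q⌋ + pl_h a s (Int.fract q)

private theorem pl_h_one {a s f : ℚ} (hs : 0 < s) (hsa : s * a = 1 - a) (h0 : 0 ≤ f) (h : f < a) :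
    pl_h a s f = a + s * f ∧ a ≤ a + s * f ∧ a + s * f < 1 := by
  refine ⟨if_pos h, ?_, ?_⟩
  · have := mul_nonneg hs.le h0
    linarith
  · have := mul_lt_mul_of_pos_left h hs
    linarith

private theorem pl_h_two {a s f : ℚ} (hs : 0 < s) (hsa : s * a = 1 - a) (h : a ≤ f) (h1 : f < 1) :
    pl_h a s f = 1 + (f - a) / s ∧ 0 ≤ (f - a) / s ∧ (f - a) / s < a := by
  refine ⟨if_neg (not_lt.2 h), div_nonneg (by linarith) hs.le, ?_⟩
  rw [div_lt_iff₀ hs]
  have : a * s = 1 - a := by rw [mul_comm]; exact hsa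
  linarith

private theorem pl_x_add (a s : ℚ) (n : ℤ) {f : ℚ} (h0 : 0 ≤ f) (h1 : f < 1) :
    pl_x a s (n + f) = n + pl_h a s f := by
  have h2 : ⌊(n : ℚ) + f⌋ = n := by
    rw [Int.floor_eq_iff]
    constructor <;> linarith
  have h3 : Int.fract ((n : ℚ) + f) = f := by
    rw [Int.fract, h2]
    ring
  rw [pl_x, h2, h3]

private theorem pl_x_x {a s : ℚ} (ha : 0 < a) (ha1 : a < 1) (hs : 0 < s) (hsa : s * a = 1 - a)
    (q : ℚ) : pl_x a s (pl_x a s q) = q + 1 := by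
  have hq : ((⌊q⌋ : ℤ) : ℚ) + Int.fract q = q := Int.floor_add_fract q
  have h0 := Int.fract_nonneg q
  have h1 := Int.fract_lt_one q
  set n : ℤ := ⌊q⌋ with hn
  set f : ℚ := Int.fract q with hf
  rw [← hq, pl_x_add a s n h0 h1]
  rcases lt_or_ge f a with h | h
  · obtain ⟨e1, e2, e3⟩ := pl_h_one hs hsa h0 h
    rw [e1, pl_x_add a s n (ha.le.trans e2) e3, (pl_h_two hs hsa e2 e3).1]
    have : (a + s * f - a) / s = f := by
      field_simp
      ring
    rw [this]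
    ring
  · obtain ⟨e1, e2, e3⟩ := pl_h_two hs hsa h h1
    have e4 : (n : ℚ) + (1 + (f - a) / s) = ((n + 1 : ℤ) : ℚ) + (f - a) / s := by
      push_cast
      ring
    rw [e1, e4, pl_x_add a s (n + 1) e2 (e3.trans ha1), (pl_h_one hs hsa e2 e3).1]
    have : s * ((f - a) / s) = f - a := by
      field_simp
    rw [this]
    push_cast
    ring

private theorem pl_x_mono {a s : ℚ} (ha : 0 < a) (hs : 0 < s)
    (hsa : s * a = 1 - a) : StrictMono (pl_x a s) := by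
  intro q q' hqq
  have hq : ((⌊q⌋ : ℤ) : ℚ) + Int.fract q = q := Int.floor_add_fract q
  have h0 := Int.fract_nonneg q
  have h1 := Int.fract_lt_one q
  have hq' : ((⌊q'⌋ : ℤ) : ℚ) + Int.fract q' = q' := Int.floor_add_fract q'
  have h0' := Int.fract_nonneg q'
  have h1' := Int.fract_lt_one q'
  have hle : ⌊q⌋ ≤ ⌊q'⌋ := Int.floor_le_floor hqq.le
  have hb : ∀ f : ℚ, 0 ≤ f → f < 1 → a ≤ pl_h a s f ∧ pl_h a s f < 1 + a := by
    intro f hf0 hf1
    rcases lt_or_ge f a with h | h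
    · obtain ⟨e1, e2, e3⟩ := pl_h_one hs hsa hf0 h
      rw [e1]
      exact ⟨e2, by linarith⟩
    · obtain ⟨e1, e2, e3⟩ := pl_h_two hs hsa h hf1
      rw [e1]
      have ha1 : a < 1 := lt_of_le_of_lt h hf1
      exact ⟨by linarith, by linarith⟩
  show ((⌊q⌋ : ℤ) : ℚ) + pl_h a s (Int.fract q) < ((⌊q'⌋ : ℤ) : ℚ) + pl_h a s (Int.fract q')
  rcases hle.lt_or_eq with hlt | heq
  · have h2 : ((⌊q⌋ : ℤ) : ℚ) + 1 ≤ ((⌊q'⌋ : ℤ) : ℚ) := by exact_mod_cast hlt
    have h3 := (hb _ h0 h1).2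
    have h4 := (hb _ h0' h1').1
    linarith
  · have h2 : Int.fract q < Int.fract q' := by
      have : ((⌊q⌋ : ℤ) : ℚ) = ((⌊q'⌋ : ℤ) : ℚ) := by rw [heq]
      linarith
    rw [heq]
    have h3 : pl_h a s (Int.fract q) < pl_h a s (Int.fract q') := by
      rcases lt_or_ge (Int.fract q') a with h | h
      · rw [(pl_h_one hs hsa h0 (h2.trans h)).1, (pl_h_one hs hsa h0' h).1]
        have := mul_lt_mul_of_pos_left h2 hs
        linarith
      · obtain ⟨e1, e2, e3⟩ := pl_h_two hs hsa h h1'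
        rcases lt_or_ge (Int.fract q) a with h' | h'
        · obtain ⟨e1', e2', e3'⟩ := pl_h_one hs hsa h0 h'
          rw [e1, e1']
          linarith
        · rw [e1, (pl_h_two hs hsa h' h1).1]
          have := div_lt_div_of_pos_right (sub_lt_sub_right h2 a) hs
          linarith
    linarith

theorem pl_exists (m : ℕ) (hm : 3 ≤ m) :
    ∃ x : ℚ ≃o ℚ, (∀ q, x (x q) = q + 1) ∧ x 0 = 1 / (m : ℚ) := by
  have hm3 : (3 : ℚ) ≤ m := by exact_mod_cast hm
  have hm0 : (0 : ℚ) < m := by linarith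
  have ha : (0 : ℚ) < 1 / m := by positivity
  have ha1 : (1 : ℚ) / m < 1 := by
    rw [div_lt_one hm0]
    linarith
  have hs : (0 : ℚ) < m - 1 := by linarith
  have hsa : ((m : ℚ) - 1) * (1 / m) = 1 - 1 / m := by
    field_simp
  have hxx := pl_x_x ha ha1 hs hsa
  have hsurj : Function.Surjective (pl_x (1 / (m : ℚ)) ((m : ℚ) - 1)) := fun q =>
    ⟨pl_x (1 / (m : ℚ)) ((m : ℚ) - 1) (q - 1), by rw [hxx]; ring⟩
  refine ⟨(pl_x_mono ha hs hsa).orderIsoOfSurjective _ hsurj, fun q => hxx q, ?_⟩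
  show pl_x (1 / (m : ℚ)) ((m : ℚ) - 1) 0 = 1 / (m : ℚ)
  have h1 := pl_x_add (1 / (m : ℚ)) ((m : ℚ) - 1) 0 (f := 0) le_rfl one_pos
  rw [Int.cast_zero, zero_add, zero_add, (pl_h_one hs hsa le_rfl ha).1, mul_zero, add_zero] at h1
  exact h1

end Pool.Agent.Lib.MP_7b9603_alLO
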