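import Pool.Agent.Lib.MP_7b9603_alLO.C1
import Pool.Agent.Lib.MP_7b9603_alLO.Pl

/-!
# The dihedral Artin groups of even type
-/

set_option autoImplicit false

namespace Pool.Agent.Lib.MP_7b9603_alLO

open SPH Pool.Agent.Lib.MP_7b9603_alCF

universe u v

private theorem de_alt {A : Type u} [Monoid A] (a b : A) (k : ℕ) :
    altProd a b (2 * k) = (a * b) ^ k := by
  induction k with
  | zero => simp only [altProd, pow_zero]
  | succ k ih =>
    have h : 2 * (k + 1) = 2 * k + 1 + 1 := by ring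
    rw [h, altProd, altProd, ih, pow_succ', mul_assoc]

/-- The elements `c ^ (k n) * w ^ j`. -/
def de_E {G : Type u} [Group G] (c w : G) (k : ℕ) (g : G) : Prop :=
  ∃ n j : ℤ, g = c ^ ((k : ℤ) * n) * w ^ j

/-- The elements outside `de_E`: `true` for the words that start with a power of `c`, `false` for
those that start with a power of `w`. -/
inductive de_Q {G : Type u} [Group G] (c w : G) (k : ℕ) : Bool → G → Prop
  | e (i : ℤ) (g : G) : ¬ (k : ℤ) ∣ i → de_E c w k g → de_Q c w k true (c ^ i * g)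
  | c (i : ℤ) (g : G) : ¬ (k : ℤ) ∣ i → de_Q c w k false g → de_Q c w k true (c ^ i * g)
  | w (j : ℤ) (g : G) : j ≠ 0 → de_Q c w k true g → de_Q c w k false (w ^ j * g)

section algebra

variable {G : Type u} [Group G] {c w : G} {k : ℕ}

private theorem de_E_z (n : ℤ) {g : G} (hg : de_E c w k g) :
    de_E c w k (c ^ ((k : ℤ) * n) * g) := by
  obtain ⟨n', j, rfl⟩ := hg
  refine ⟨n + n', j, ?_⟩
  rw [mul_add, zpow_add, mul_assoc]

private theorem de_E_w (hz : ∀ n : ℤ, Commute (c ^ ((k : ℤ) * n)) w) (j : ℤ) {g : G}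
    (hg : de_E c w k g) : de_E c w k (w ^ j * g) := by
  obtain ⟨n', j', rfl⟩ := hg
  refine ⟨n', j + j', ?_⟩
  rw [← mul_assoc, ← ((hz n').zpow_right j).eq, mul_assoc, zpow_add]

private theorem de_Q_z (hz : ∀ n : ℤ, Commute (c ^ ((k : ℤ) * n)) w) (n : ℤ) {b : Bool} {g : G}
    (hg : de_Q c w k b g) : de_Q c w k b (c ^ ((k : ℤ) * n) * g) := by
  induction hg with
  | e i g hi hg =>
    rw [← mul_assoc, ← zpow_add, add_comm, zpow_add, mul_assoc]
    exact de_Q.e i _ hi (de_E_z n hg)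
  | c i g hi hg ih =>
    rw [← mul_assoc, ← zpow_add, add_comm, zpow_add, mul_assoc]
    exact de_Q.c i _ hi ih
  | w j g hj hg ih =>
    rw [← mul_assoc, ((hz n).zpow_right j).eq, mul_assoc]
    exact de_Q.w j _ hj ih

/-- The union. -/
private def de_U (c w : G) (k : ℕ) (g : G) : Prop := de_E c w k g ∨ ∃ b, de_Q c w k b g

private theorem de_U_c (hz : ∀ n : ℤ, Commute (c ^ ((k : ℤ) * n)) w) (i : ℤ) {g : G}
    (hg : de_U c w k g) : de_U c w k (c ^ i * g) := by
  rcases hg with hg | ⟨b, hg⟩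
  · by_cases hi : (k : ℤ) ∣ i
    · obtain ⟨n, rfl⟩ := hi
      exact Or.inl (de_E_z n hg)
    · exact Or.inr ⟨true, de_Q.e i g hi hg⟩
  · cases hg with
    | e i' g' hi' hg' =>
      rw [← mul_assoc, ← zpow_add]
      by_cases hi : (k : ℤ) ∣ i + i'
      · obtain ⟨n, hn⟩ := hi
        rw [hn]
        exact Or.inl (de_E_z n hg')
      · exact Or.inr ⟨true, de_Q.e _ g' hi hg'⟩
    | c i' g' hi' hg' =>
      rw [← mul_assoc, ← zpow_add]
      by_cases hi : (k : ℤ) ∣ i + i'
      · obtain ⟨n, hn⟩ := hi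
        rw [hn]
        exact Or.inr ⟨false, de_Q_z hz n hg'⟩
      · exact Or.inr ⟨true, de_Q.c _ g' hi hg'⟩
    | w j g' hj hg' =>
      have h : de_Q c w k false (w ^ j * g') := de_Q.w j g' hj hg'
      by_cases hi : (k : ℤ) ∣ i
      · obtain ⟨n, rfl⟩ := hi
        exact Or.inr ⟨false, de_Q_z hz n h⟩
      · exact Or.inr ⟨true, de_Q.c i _ hi h⟩

private theorem de_U_w (hz : ∀ n : ℤ, Commute (c ^ ((k : ℤ) * n)) w) (j : ℤ) {g : G}
    (hg : de_U c w k g) : de_U c w k (w ^ j * g) := by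
  rcases hg with hg | ⟨b, hg⟩
  · exact Or.inl (de_E_w hz j hg)
  · cases b with
    | true =>
      by_cases hj : j = 0
      · rw [hj, zpow_zero, one_mul]
        exact Or.inr ⟨true, hg⟩
      · exact Or.inr ⟨false, de_Q.w j g hj hg⟩
    | false =>
      cases hg with
      | w j' g' hj' hg' =>
        rw [← mul_assoc, ← zpow_add]
        by_cases hj : j + j' = 0
        · rw [hj, zpow_zero, one_mul]
          exact Or.inr ⟨true, hg'⟩
        · exact Or.inr ⟨false, de_Q.w _ g' hj hg'⟩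

end algebra

/-- The rotation by `- 1 / k` moves the arc `(0, 1 / k)` outside itself. -/
private theorem de_rot {k : ℕ} (hk : 2 ≤ k) {u : ℚ} (h0 : 0 < u) (h1 : u < 1 / k) {i : ℤ}
    (hi : ¬ (k : ℤ) ∣ i) :
    ∃ N : ℤ, 1 / (k : ℚ) < u + i * (1 - 1 / k) - N ∧ u + i * (1 - 1 / k) - N < 1 := by
  have hk0 : (0 : ℤ) < k := by exact_mod_cast (by omega : 0 < k)
  have hkq : (0 : ℚ) < k := by exact_mod_cast hk0
  set t : ℤ := i % k with ht
  set s : ℤ := i / k with hs
  have hts : (k : ℤ) * s + t = i := Int.mul_ediv_add_emod i k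
  have ht0 : 0 < t := by
    have h2 := Int.emod_nonneg i hk0.ne'
    have h3 : t ≠ 0 := fun h => hi (Int.dvd_of_emod_eq_zero h)
    omega
  have ht1 : t < k := Int.emod_lt_of_pos i hk0
  have hts' : (i : ℚ) = k * s + t := by
    rw [← hts]
    push_cast
    ring
  have e : (i : ℚ) * (1 - 1 / k) = i - s - t / k := by
    rw [mul_sub, mul_one, hts']
    field_simp
    ring
  refine ⟨i - s - 1, ?_⟩
  have e2 : u + i * (1 - 1 / k) - ((i - s - 1 : ℤ) : ℚ) = u + 1 - t / k := by
    rw [e]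
    push_cast
    ring
  rw [e2]
  have ht0' : (1 : ℚ) ≤ t := by exact_mod_cast ht0
  have ht1' : (t : ℚ) ≤ k - 1 := by
    have : t ≤ (k : ℤ) - 1 := by omega
    exact_mod_cast this
  have h2 : 1 / (k : ℚ) ≤ t / k := div_le_div_of_nonneg_right ht0' hkq.le
  have h3 : (t : ℚ) / k ≤ (k - 1) / k := div_le_div_of_nonneg_right ht1' hkq.le
  have h4 : ((k : ℚ) - 1) / k = 1 - 1 / k := by
    rw [sub_div, div_self hkq.ne']
  constructor <;> linarith

theorem dih_even {G : Type u} [Group G] (r w : G) (k : ℕ) (hk : 2 ≤ k)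
    (hgen : Subgroup.closure {r, w} = ⊤) (hrel : altProd r w (2 * k) = altProd w r (2 * k))
    (huniv : ∀ (Q : Type) [Group Q] (a b : Q), altProd a b (2 * k) = altProd b a (2 * k) →
      ∃ f : G →* Q, f r = a ∧ f w = b) :
    RC (Subgroup.zpowers w) ∧ r ∉ Subgroup.zpowers w := by
  have hkq : (2 : ℚ) ≤ k := by exact_mod_cast hk
  have hk0 : (0 : ℚ) < k := by linarith
  obtain ⟨x, hxx, hx0⟩ := pl_exists (2 * k) (by omega)
  set a : ℚ := 1 / ((2 * k : ℕ) : ℚ) with ha
  have ha2 : 2 * a = 1 / k := by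
    rw [ha]
    push_cast
    field_simp
  have hka : (k : ℚ) * (1 / k) = 1 := mul_one_div_cancel hk0.ne'
  have ha0 : 0 < a := by
    have : (0 : ℚ) < 1 / k := by positivity
    linarith
  have ha4 : 4 * a ≤ 1 := by
    have : 1 / (k : ℚ) ≤ 1 / 2 := one_div_le_one_div_of_le (by norm_num) hkq
    linarith
  -- the translation
  let y : ℚ ≃o ℚ := OrderIso.addRight a
  have hy : ∀ q, y q = q + a := fun q => rfl
  have hyi : ∀ q, y⁻¹ q = q - a := by
    intro q
    have h1 : y (y⁻¹ q) = q := by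
      rw [← RelIso.mul_apply, mul_inv_cancel, RelIso.one_apply]
    rw [hy] at h1
    linarith
  -- the map commutes with the translation by one
  have hx1 : ∀ q, x (q + 1) = x q + 1 := fun q => by rw [← hxx q, hxx (x q)]
  have hxn : ∀ (q : ℚ) (n : ℕ), x (q + n) = x q + n := by
    intro q n
    induction n with
    | zero => simp only [Nat.cast_zero, add_zero]
    | succ n ih =>
      push_cast
      rw [← add_assoc, hx1, ih, add_assoc]
  have hxz : ∀ (q : ℚ) (n : ℤ), x (q + n) = x q + n := by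
    intro q n
    obtain ⟨n, rfl | rfl⟩ := n.eq_nat_or_neg
    · exact_mod_cast hxn q n
    · have h1 := hxn (q + ((-(n : ℤ) : ℤ) : ℚ)) n
      push_cast at h1 ⊢
      rw [neg_add_cancel_right] at h1
      rw [h1]
      ring
  -- the homomorphism
  have hRW : ∀ q, ((y⁻¹ * x) * (x * y⁻¹)) q = q + (1 - 1 / k) := by
    intro q
    rw [RelIso.mul_apply, RelIso.mul_apply, RelIso.mul_apply, hyi, hyi, hxx, ← ha2]
    ring
  have hRWn : ∀ (n : ℕ) q, (((y⁻¹ * x) * (x * y⁻¹)) ^ n) q = q + n * (1 - 1 / k) := by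
    intro n
    induction n with
    | zero =>
      intro q
      rw [pow_zero, RelIso.one_apply, Nat.cast_zero, zero_mul, add_zero]
    | succ n ih =>
      intro q
      rw [pow_succ, RelIso.mul_apply, hRW, ih]
      push_cast
      ring
  have hW : ∀ q, (x * y⁻¹) q = x (q - a) := fun q => by rw [RelIso.mul_apply, hyi]
  have hWz : ∀ (q : ℚ) (n : ℤ), (x * y⁻¹) (q + n) = (x * y⁻¹) q + n := by
    intro q n
    rw [hW, hW, ← hxz]
    congr 1
    ring
  have hrel' : altProd (y⁻¹ * x) (x * y⁻¹) (2 * k) = altProd (x * y⁻¹) (y⁻¹ * x) (2 * k) := by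
    rw [de_alt, de_alt]
    have h1 : (x * y⁻¹) * ((y⁻¹ * x) * (x * y⁻¹)) ^ k
        = ((x * y⁻¹) * (y⁻¹ * x)) ^ k * (x * y⁻¹) := by
      have h2 : SemiconjBy (x * y⁻¹) ((y⁻¹ * x) * (x * y⁻¹)) ((x * y⁻¹) * (y⁻¹ * x)) := by
        unfold SemiconjBy
        group
      exact h2.pow_right k
    have h3 : (x * y⁻¹) * ((y⁻¹ * x) * (x * y⁻¹)) ^ k
        = ((y⁻¹ * x) * (x * y⁻¹)) ^ k * (x * y⁻¹) := by
      ext q
      rw [RelIso.mul_apply (x * y⁻¹), RelIso.mul_apply _ (x * y⁻¹), hRWn, hRWn]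
      have h4 : (k : ℚ) * (1 - 1 / k) = (((k : ℤ) - 1 : ℤ) : ℚ) := by
        rw [mul_sub, hka]
        push_cast
        ring
      rw [h4, hWz]
    exact mul_right_cancel (h3.symm.trans h1)
  obtain ⟨f, hfr, hfw⟩ := huniv (ℚ ≃o ℚ) (y⁻¹ * x) (x * y⁻¹) hrel'
  have hmul : ∀ (g h : G) (q : ℚ), f (g * h) q = f g (f h q) := fun g h q => by
    rw [map_mul, RelIso.mul_apply]
  have hinv : ∀ (g : G) (q : ℚ), f g⁻¹ (f g q) = q := fun g q => by
    rw [← hmul, inv_mul_cancel, map_one, RelIso.one_apply]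
  have hinv' : ∀ (g : G) (q : ℚ), f g (f g⁻¹ q) = q := fun g q => by
    rw [← hmul, mul_inv_cancel, map_one, RelIso.one_apply]
  have hmono : ∀ (g : G) {q q' : ℚ}, q < q' → f g q < f g q' := fun g q q' h =>
    (f g).lt_iff_lt.2 h
  -- the group
  obtain ⟨c, hc⟩ : ∃ c, c = r * w := ⟨_, rfl⟩
  have hzc : (r * w) ^ k = (w * r) ^ k := by
    rw [← de_alt, ← de_alt]
    exact hrel
  have hzw : Commute (c ^ k) w := by
    have h2 : SemiconjBy w (r * w) (w * r) := by
      unfold SemiconjBy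
      rw [mul_assoc]
    have h3 : w * (r * w) ^ k = (w * r) ^ k * w := h2.pow_right k
    rw [← hzc] at h3
    rw [hc]
    exact h3.symm
  have hz : ∀ n : ℤ, Commute (c ^ ((k : ℤ) * n)) w := by
    intro n
    rw [zpow_mul, zpow_natCast]
    exact hzw.zpow_left n
  -- the action of `c`
  have hfc : ∀ q, f c q = q + (1 - 1 / k) := fun q => by
    rw [hc, map_mul, hfr, hfw, hRW]
  have hfci : ∀ q, f c⁻¹ q = q - (1 - 1 / k) := fun q => by
    have h1 := hinv' c q
    rw [hfc] at h1
    linarith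
  have hfcn : ∀ (n : ℕ) q, f (c ^ n) q = q + n * (1 - 1 / k) := by
    intro n
    induction n with
    | zero =>
      intro q
      rw [pow_zero, map_one, RelIso.one_apply, Nat.cast_zero, zero_mul, add_zero]
    | succ n ih =>
      intro q
      rw [pow_succ, hmul, hfc, ih]
      push_cast
      ring
  have hfcz : ∀ (n : ℤ) q, f (c ^ n) q = q + n * (1 - 1 / k) := by
    intro n q
    obtain ⟨n, rfl | rfl⟩ := n.eq_nat_or_neg
    · rw [zpow_natCast, hfcn]
      push_cast
      ring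
    · have h1 := hinv' (c ^ n) q
      rw [hfcn] at h1
      rw [zpow_neg, zpow_natCast]
      push_cast
      linarith
  -- the action of `w`
  have hw : ∀ q, f w q = x (q - a) := fun q => by rw [hfw, hW]
  have hwz : ∀ (q : ℚ) (n : ℤ), f w (q + n) = f w q + n := fun q n => by rw [hfw, hWz]
  have hwiz : ∀ (q : ℚ) (n : ℤ), f w⁻¹ (q + n) = f w⁻¹ q + n := by
    intro q n
    have h1 : f w (f w⁻¹ q + n) = q + n := by rw [hwz, hinv']
    rw [← h1, hinv]
  have hwa : f w a = a := by rw [hw, sub_self, hx0]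
  have hw2a : f w (2 * a) = 1 := by
    rw [hw]
    have : 2 * a - a = x 0 := by rw [hx0]; ring
    rw [this, hxx, zero_add]
  have hwia : f w⁻¹ a = a := by
    have := hinv w a
    rwa [hwa] at this
  have hwi1 : f w⁻¹ 1 = 2 * a := by
    have := hinv w (2 * a)
    rwa [hw2a] at this
  have hw1 : f w 1 < 1 + a := by
    rw [hw]
    have h1 : x (0 + 1) = 1 + a := by rw [hx1, hx0]; ring
    rw [← h1]
    exact x.lt_iff_lt.2 (by linarith)
  have hw0 : 0 < f w 0 := by
    have h1 : f w (0 + ((1 : ℤ) : ℚ)) = f w 0 + ((1 : ℤ) : ℚ) := hwz 0 1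
    have h2 : f w (2 * a) < f w 1 := hmono w (by linarith)
    rw [hw2a] at h2
    push_cast at h1
    rw [zero_add] at h1
    linarith
  -- powers of `w`
  have hwpos : ∀ (j : ℕ) (v : ℚ), 2 * a < v → v < 1 →
      1 < f (w ^ (j + 1)) v ∧ f (w ^ (j + 1)) v < 1 + a := by
    intro j v h1 h2
    induction j with
    | zero =>
      rw [zero_add, pow_one]
      have h3 := hmono w h1
      have h4 := hmono w h2
      rw [hw2a] at h3
      exact ⟨h3, h4.trans hw1⟩
    | succ j ih =>
      obtain ⟨h3, h4⟩ := ih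
      rw [pow_succ', hmul]
      have h5 := hmono w h3
      have h6 := hmono w h4
      have h7 : f w (0 + ((1 : ℤ) : ℚ)) = f w 0 + ((1 : ℤ) : ℚ) := hwz 0 1
      have h8 : f w (a + ((1 : ℤ) : ℚ)) = f w a + ((1 : ℤ) : ℚ) := hwz a 1
      push_cast at h7 h8
      rw [zero_add] at h7
      rw [add_comm a 1, hwa] at h8
      constructor <;> linarith
  have hwneg : ∀ (j : ℕ) (v : ℚ), 2 * a < v → v < 1 →
      a < f (w⁻¹ ^ (j + 1)) v ∧ f (w⁻¹ ^ (j + 1)) v < 2 * a := by
    intro j v h1 h2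
    induction j with
    | zero =>
      rw [zero_add, pow_one]
      have h3 := hmono w⁻¹ h1
      have h4 := hmono w⁻¹ h2
      have h5 := hmono w⁻¹ (show a < 2 * a by linarith)
      rw [hwi1] at h4
      rw [hwia] at h5
      exact ⟨h5.trans h3, h4⟩
    | succ j ih =>
      obtain ⟨h3, h4⟩ := ih
      rw [pow_succ', hmul]
      have h5 := hmono w⁻¹ h3
      have h6 := hmono w⁻¹ h4
      have h7 := hmono w⁻¹ (show 2 * a < 1 by linarith)
      rw [hwi1] at h7
      rw [hwia] at h5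
      exact ⟨h5, h6.trans h7⟩
  have hpowz : ∀ (g : G), (∀ (q : ℚ) (n : ℤ), f g (q + n) = f g q + n) →
      ∀ (j : ℕ) (q : ℚ) (n : ℤ), f (g ^ j) (q + n) = f (g ^ j) q + n := by
    intro g hg j
    induction j with
    | zero =>
      intro q n
      rw [pow_zero, map_one, RelIso.one_apply, RelIso.one_apply]
    | succ j ih =>
      intro q n
      rw [pow_succ, hmul, hmul, hg, ih]
  -- positions
  have hE : ∀ g, de_E c w k g → ∃ n j : ℤ, g = c ^ ((k : ℤ) * n) * w ^ j ∧
      f g a = a + n * (k - 1) := by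
    rintro g ⟨n, j, rfl⟩
    refine ⟨n, j, rfl, ?_⟩
    have h1 : f (w ^ j) a = a := by
      have h2 : ∀ i : ℕ, f (w ^ i) a = a := by
        intro i
        induction i with
        | zero => rw [pow_zero, map_one, RelIso.one_apply]
        | succ i ih => rw [pow_succ, hmul, hwa, ih]
      obtain ⟨i, rfl | rfl⟩ := j.eq_nat_or_neg
      · rw [zpow_natCast, h2]
      · have h3 := hinv (w ^ i) a
        rw [h2] at h3
        rw [zpow_neg, zpow_natCast, h3]
    rw [hmul, h1, hfcz]
    push_cast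
    field_simp
  have hpos : ∀ (b : Bool) (g : G), de_Q c w k b g → ∃ n : ℤ,
      (b = true → 2 * a < f g a - n ∧ f g a - n < 1) ∧
      (b = false → (0 < f g a - n ∧ f g a - n < a) ∨ (a < f g a - n ∧ f g a - n < 2 * a)) := by
    intro b g hg
    induction hg with
    | e i g hi hg =>
      obtain ⟨n, j, -, h1⟩ := hE g hg
      obtain ⟨N, h2, h3⟩ := de_rot hk ha0 (by linarith : a < 1 / k) hi
      refine ⟨N + n * (k - 1), fun _ => ?_, fun h => absurd h (by decide)⟩
      rw [hmul, h1, hfcz]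
      push_cast
      constructor <;> linarith
    | c i g hi hg ih =>
      obtain ⟨n, -, h1⟩ := ih
      have h2 : 0 < f g a - n ∧ f g a - n < 1 / k := by
        rcases h1 rfl with h | h
        · exact ⟨h.1, by linarith [h.2]⟩
        · exact ⟨by linarith [h.1], by linarith [h.2]⟩
      obtain ⟨N, h3, h4⟩ := de_rot hk h2.1 h2.2 hi
      refine ⟨N + n, fun _ => ?_, fun h => absurd h (by decide)⟩
      rw [hmul, hfcz]
      push_cast
      constructor <;> linarith
    | w j g hj hg ih =>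
      obtain ⟨n, h1, -⟩ := ih
      obtain ⟨h2, h3⟩ := h1 rfl
      have h4 : f g a = (f g a - n) + n := by ring
      rcases lt_or_gt_of_ne hj with h | h
      · obtain ⟨i, hi⟩ : ∃ i : ℕ, j = -((i + 1 : ℕ) : ℤ) := ⟨(-j - 1).toNat, by omega⟩
        obtain ⟨h5, h6⟩ := hwneg i _ h2 h3
        refine ⟨n, fun h => absurd h (by decide), fun _ => Or.inr ?_⟩
        have h7 : w ^ j = w⁻¹ ^ (i + 1) := by
          rw [hi, zpow_neg, zpow_natCast, inv_pow]
        rw [hmul, h7, h4, hpowz w⁻¹ hwiz, add_sub_cancel_right]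
        exact ⟨h5, h6⟩
      · obtain ⟨i, hi⟩ : ∃ i : ℕ, j = ((i + 1 : ℕ) : ℤ) := ⟨(j - 1).toNat, by omega⟩
        obtain ⟨h5, h6⟩ := hwpos i _ h2 h3
        refine ⟨n + 1, fun h => absurd h (by decide), fun _ => Or.inl ?_⟩
        have h7 : w ^ j = w ^ (i + 1) := by
          rw [hi, zpow_natCast]
        rw [hmul, h7, h4, hpowz w hwz]
        push_cast
        constructor <;> linarith
  -- every element is in the union
  have hU : ∀ g : G, de_U c w k g := by
    intro g
    have hg : g ∈ Subgroup.closure {r, w} := by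
      rw [hgen]
      exact Subgroup.mem_top g
    have hr : r = c ^ (1 : ℤ) * w ^ (-1 : ℤ) := by
      rw [hc, zpow_one, zpow_neg_one, mul_inv_cancel_right]
    have hri : r⁻¹ = w ^ (1 : ℤ) * c ^ (-1 : ℤ) := by
      rw [hr, mul_inv_rev, zpow_neg_one, inv_inv, zpow_one, zpow_one, zpow_neg_one]
    induction hg using Subgroup.closure_induction_left with
    | one => exact Or.inl ⟨0, 0, by rw [mul_zero, zpow_zero, zpow_zero, one_mul]⟩
    | mul_left s hs g hg ih =>
      rcases hs with rfl | hs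
      · rw [hr, mul_assoc]
        exact de_U_c hz 1 (de_U_w hz (-1) ih)
      · rw [Set.mem_singleton_iff.1 hs]
        have := de_U_w hz 1 ih
        rwa [zpow_one] at this
    | inv_mul_cancel s hs g hg ih =>
      rcases hs with rfl | hs
      · rw [hri, mul_assoc]
        exact de_U_w hz 1 (de_U_c hz (-1) ih)
      · rw [Set.mem_singleton_iff.1 hs]
        have := de_U_w hz (-1) ih
        rwa [zpow_neg_one] at this
  have hcast : ∀ n : ℤ, (n ≤ 0 ∧ (n : ℚ) ≤ 0) ∨ (1 ≤ n ∧ (1 : ℚ) ≤ n) := by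
    intro n
    rcases le_or_gt n 0 with h | h
    · exact Or.inl ⟨h, by exact_mod_cast h⟩
    · exact Or.inr ⟨h, by exact_mod_cast h⟩
  have hcast' : ∀ n : ℤ, (0 : ℚ) ≤ n ∨ (n : ℚ) ≤ -1 := by
    intro n
    rcases le_or_gt 0 n with h | h
    · exact Or.inl (by exact_mod_cast h)
    · have h' : n ≤ -1 := by omega
      exact Or.inr (by exact_mod_cast h')
  have hstab : ∀ g, f g a = a ↔ g ∈ Subgroup.zpowers w := by
    intro g
    constructor
    · intro hg
      rcases hU g with h | ⟨b, h⟩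
      · obtain ⟨n, j, hgn, h1⟩ := hE g h
        rw [hg] at h1
        have h2 : (n : ℚ) * (k - 1) = 0 := by linarith
        have h3 : (k : ℚ) - 1 ≠ 0 := by
          have : (0 : ℚ) < k - 1 := by linarith
          exact this.ne'
        have h4 : n = 0 := by
          rcases mul_eq_zero.1 h2 with h5 | h5
          · exact_mod_cast h5
          · exact absurd h5 h3
        rw [h4, mul_zero, zpow_zero, one_mul] at hgn
        exact ⟨j, hgn.symm⟩
      · obtain ⟨n, h1, h2⟩ := hpos b g h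
        rw [hg] at h1 h2
        exfalso
        cases b with
        | true =>
          obtain ⟨h3, h4⟩ := h1 rfl
          rcases hcast' n with h5 | h5 <;> linarith
        | false =>
          rcases h2 rfl with ⟨h3, h4⟩ | ⟨h3, h4⟩
          · rcases hcast n with h5 | h5 <;> linarith [h5.2]
          · rcases hcast' n with h5 | h5 <;> linarith
    · rintro ⟨j, rfl⟩
      have h3 : ∀ i : ℕ, f (w ^ i) a = a := by
        intro i
        induction i with
        | zero => rw [pow_zero, map_one, RelIso.one_apply]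
        | succ i ih => rw [pow_succ, hmul, hwa, ih]
      obtain ⟨i, rfl | rfl⟩ := j.eq_nat_or_neg
      · change f (w ^ ((i : ℕ) : ℤ)) a = a
        rw [zpow_natCast, h3]
      · change f (w ^ (-((i : ℕ) : ℤ))) a = a
        have h4 := hinv (w ^ i) a
        rw [h3] at h4
        rw [zpow_neg, zpow_natCast, h4]
  refine ⟨⟨_, cone_of_action f a _ hstab⟩, fun h => ?_⟩
  have h1 := (hstab r).2 h
  rw [hfr, RelIso.mul_apply, hyi] at h1
  have h2 : x a = 1 := by
    rw [← hx0, hxx, zero_add]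
  rw [h2] at h1
  linarith

end Pool.Agent.Lib.MP_7b9603_alLO
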