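import Pool.Agent.Lib.MP_7b9603_alLO.C1
import Pool.Agent.Lib.MP_7b9603_alLO.Pl

/-!
# Dihedral Artin groups with odd label
-/

set_option autoImplicit false

namespace Pool.Agent.Lib.MP_7b9603_alLO

open SPH Pool.Agent.Lib.MP_7b9603_alCF

universe u v

private theorem do_even {G : Type*} [Monoid G] (a b : G) (k : ℕ) :
    altProd a b (2 * k) = (a * b) ^ k := by
  induction k with
  | zero => rw [mul_zero, pow_zero]; rfl
  | succ k ih =>
    have h : 2 * (k + 1) = 2 * k + 1 + 1 := by ring
    rw [h]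
    change a * (b * altProd a b (2 * k)) = _
    rw [ih, pow_succ', mul_assoc]

private theorem do_odd1 {G : Type*} [Monoid G] (a b : G) (k : ℕ) :
    altProd b a (2 * k + 1) = b * (a * b) ^ k := by
  change b * altProd a b (2 * k) = _
  rw [do_even]

private theorem do_odd2 {G : Type*} [Monoid G] (a b : G) (k : ℕ) :
    altProd a b (2 * k + 1) = (a * b) ^ k * a := by
  rw [do_odd1]
  induction k with
  | zero => simp
  | succ k ih =>
    rw [pow_succ, ← mul_assoc, ih, pow_succ]
    simp only [mul_assoc]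

/-- The elements of the second kind. -/
private inductive DoF {G : Type u} [Group G] (m k : ℤ) (c D w : G) : G → Prop
  | a (i b : ℤ) : ¬ m ∣ i → ¬ m ∣ i - (k + 1) → DoF m k c D w (D * (c ^ i * w ^ b))
  | b (i : ℤ) (g : G) : ¬ m ∣ i → DoF m k c D w g → DoF m k c D w (D * (c ^ i * g))

private def DoU {G : Type u} [Group G] (m k : ℤ) (c D w : G) (g : G) : Prop :=
  ∃ i : ℤ, ∃ g' : G, g = c ^ i * g' ∧ ((∃ b : ℤ, g' = w ^ b) ∨ DoF m k c D w g')

private theorem do_c {G : Type u} [Group G] {m k : ℤ} {c D w g : G} (h : DoU m k c D w g) (j : ℤ) :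
    DoU m k c D w (c ^ j * g) := by
  obtain ⟨i, g', rfl, h⟩ := h
  exact ⟨j + i, g', by rw [zpow_add, mul_assoc], h⟩

private theorem do_comm {G : Type u} [Group G] {m : ℤ} {c D : G} (hD : D * D = c ^ m) (n : ℤ) :
    D * c ^ (m * n) = c ^ (m * n) * D := by
  rw [zpow_mul, ← hD]
  exact ((Commute.refl D).mul_right (Commute.refl D)).zpow_right n

private theorem do_D {G : Type u} [Group G] {m k : ℤ} {c D w g : G} (hD : D * D = c ^ m)
    (hw : D * w = c ^ (k + 1)) (h : DoU m k c D w g) : DoU m k c D w (D * g) := by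
  obtain ⟨i, g', rfl, h⟩ := h
  rcases h with ⟨b, rfl⟩ | h
  · by_cases h1 : m ∣ i
    · obtain ⟨n, rfl⟩ := h1
      refine ⟨m * n + (k + 1), w ^ (b - 1), ?_, Or.inl ⟨_, rfl⟩⟩
      rw [← mul_assoc, do_comm hD, zpow_add, ← hw, zpow_sub_one]
      group
    · by_cases h2 : m ∣ i - (k + 1)
      · obtain ⟨n, hn⟩ := h2
        refine ⟨m * n + m, w ^ (b + 1), ?_, Or.inl ⟨_, rfl⟩⟩
        have hi : i = m * n + (k + 1) := by linarith
        rw [hi, zpow_add, ← hw, zpow_add, ← hD, ← mul_assoc, ← mul_assoc, do_comm hD,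
          zpow_add_one]
        have : w ^ b * w = w * w ^ b := (Commute.refl w).zpow_left b
        rw [this]
        simp only [mul_assoc]
      · exact ⟨0, _, by rw [zpow_zero, one_mul], Or.inr (DoF.a i b h1 h2)⟩
  · by_cases h1 : m ∣ i
    · obtain ⟨n, rfl⟩ := h1
      have key : ∀ x : G, D * (c ^ (m * n) * (D * x)) = c ^ (m * n + m) * x := by
        intro x
        rw [← mul_assoc, do_comm hD, zpow_add, ← hD]
        simp only [mul_assoc]
      cases h with
      | a i' b h2 h3 =>
        exact ⟨m * n + m + i', w ^ b, by rw [key, zpow_add _ _ i', mul_assoc],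
          Or.inl ⟨_, rfl⟩⟩
      | b i' g'' h2 h3 =>
        exact ⟨m * n + m + i', g'', by rw [key, zpow_add _ _ i', mul_assoc], Or.inr h3⟩
    · exact ⟨0, _, by rw [zpow_zero, one_mul], Or.inr (DoF.b i g' h1 h)⟩

private theorem do_all {G : Type u} [Group G] {m k : ℤ} {c D w r : G} (hD : D * D = c ^ m)
    (hw : D * w = c ^ (k + 1)) (hr : r = c ^ (-k) * D) (hgen : Subgroup.closure {r, w} = ⊤)
    (g : G) : DoU m k c D w g := by
  let S : Subgroup G :=
    { carrier := {g | ∀ h, DoU m k c D w h → DoU m k c D w (g * h) ∧ DoU m k c D w (g⁻¹ * h)}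
      mul_mem' := by
        intro a b ha hb h hh
        refine ⟨?_, ?_⟩
        · rw [mul_assoc]
          exact (ha _ (hb _ hh).1).1
        · rw [mul_inv_rev, mul_assoc]
          exact (hb _ (ha _ hh).2).2
      one_mem' := by
        intro h hh
        rw [inv_one, one_mul]
        exact ⟨hh, hh⟩
      inv_mem' := by
        intro a ha h hh
        rw [inv_inv]
        exact ⟨(ha h hh).2, (ha h hh).1⟩ }
  have hc : ∀ j : ℤ, c ^ j ∈ S := by
    intro j h hh
    refine ⟨do_c hh j, ?_⟩
    rw [← zpow_neg]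
    exact do_c hh (-j)
  have hDS : D ∈ S := by
    intro h hh
    refine ⟨do_D hD hw hh, ?_⟩
    have e : D⁻¹ = c ^ (-m) * D := by
      rw [zpow_neg, ← hD]
      group
    rw [e, mul_assoc]
    exact do_c (do_D hD hw hh) _
  have hrS : r ∈ S := by
    rw [hr]
    exact S.mul_mem (hc _) hDS
  have hwS : w ∈ S := by
    have e : w = D⁻¹ * c ^ (k + 1) := by rw [← hw, inv_mul_cancel_left]
    rw [e]
    exact S.mul_mem (S.inv_mem hDS) (hc _)
  have hle : Subgroup.closure {r, w} ≤ S := by
    rw [Subgroup.closure_le]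
    rintro x (rfl | rfl)
    · exact hrS
    · exact hwS
  have hg : g ∈ S := hle (by rw [hgen]; exact Subgroup.mem_top g)
  have h1 : DoU m k c D w 1 := ⟨0, 1, by simp, Or.inl ⟨0, by simp⟩⟩
  have := (hg 1 h1).1
  rwa [mul_one] at this

private theorem do_trans (e : ℚ ≃o ℚ) (t : ℚ) (h : ∀ q, e q = q + t) (n : ℤ) (q : ℚ) :
    (e ^ n) q = q + n * t := by
  have hinv : ∀ q, e⁻¹ q = q - t := by
    intro q
    apply e.injective
    rw [← RelIso.mul_apply, mul_inv_cancel, RelIso.one_apply, h]
    ring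
  induction n using Int.induction_on generalizing q with
  | zero => simp
  | succ n ih =>
    rw [zpow_add_one, RelIso.mul_apply, h, ih]
    push_cast
    ring
  | pred n ih =>
    rw [zpow_sub_one, RelIso.mul_apply, hinv, ih]
    push_cast
    ring

private theorem do_fix (e : ℚ ≃o ℚ) (p : ℚ) (h : e p = p) (n : ℤ) : (e ^ n) p = p := by
  have hinv : e⁻¹ p = p := by
    apply e.injective
    rw [← RelIso.mul_apply, mul_inv_cancel, RelIso.one_apply, h]
  induction n using Int.induction_on with
  | zero => simp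
  | succ n ih => rw [zpow_add_one, RelIso.mul_apply, h, ih]
  | pred n ih => rw [zpow_sub_one, RelIso.mul_apply, hinv, ih]

private theorem do_xint (x : ℚ ≃o ℚ) (hx : ∀ q, x (x q) = q + 1) (n : ℤ) (q : ℚ) :
    x (q + n) = x q + n := by
  have h1 : ∀ q, x (q + 1) = x q + 1 := by
    intro q
    rw [← hx q, hx (x q)]
  have h2 : ∀ q, x (q - 1) = x q - 1 := by
    intro q
    have := h1 (q - 1)
    rw [sub_add_cancel] at this
    linarith
  induction n using Int.induction_on generalizing q with
  | zero => simp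
  | succ n ih =>
    push_cast
    rw [← add_assoc, h1]
    have := ih q
    push_cast at this
    rw [this]
    ring
  | pred n ih =>
    have e : q + ((-(n : ℤ) - 1 : ℤ) : ℚ) = (q + ((-(n : ℤ) : ℤ) : ℚ)) - 1 := by
      push_cast
      ring
    rw [e, h2, ih]
    push_cast
    ring

/-- odd numbers and divisibility -/
private theorem do_dvd {m k j : ℤ} (hm : m = 2 * k + 1) (h : m ∣ 2 * j) : m ∣ j := by
  have e : j = m * j - k * (2 * j) := by rw [hm]; ring
  rw [e]
  exact (Dvd.intro _ rfl).sub (h.mul_left k)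

/-- rotation of an integer point -/
private theorem do_rot {m : ℤ} (hm : 0 < m) (s i : ℤ) :
    ∃ N a : ℤ, 0 ≤ a ∧ a < m ∧ m ∣ (s - 2 * i) - a ∧
      (s : ℚ) / m + i * ((m - 2 : ℚ) / m) = N + a / m := by
  refine ⟨i + (s - 2 * i) / m, (s - 2 * i) % m, Int.emod_nonneg _ hm.ne', Int.emod_lt_of_pos _ hm,
    ?_, ?_⟩
  · exact Int.dvd_self_sub_emod
  · have h1 : ((s - 2 * i : ℤ) : ℚ) = (m : ℚ) * (((s - 2 * i) / m : ℤ) : ℚ) +
        (((s - 2 * i) % m : ℤ) : ℚ) := by
      exact_mod_cast (Int.mul_ediv_add_emod (s - 2 * i) m).symm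
    have hm' : (m : ℚ) ≠ 0 := by exact_mod_cast hm.ne'
    push_cast at h1 ⊢
    field_simp
    linarith

theorem dih_odd {G : Type u} [Group G] (r w : G) (k : ℕ) (hk : 1 ≤ k)
    (hgen : Subgroup.closure {r, w} = ⊤) (hrel : altProd r w (2 * k + 1) = altProd w r (2 * k + 1))
    (huniv : ∀ (Q : Type) [Group Q] (a b : Q), altProd a b (2 * k + 1) = altProd b a (2 * k + 1) →
      ∃ f : G →* Q, f r = a ∧ f w = b) :
    RC (Subgroup.zpowers w) ∧ r ∉ Subgroup.zpowers w := by
  obtain ⟨x, hx, hx0⟩ := pl_exists (2 * k + 1) (by omega)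
  set m : ℤ := 2 * k + 1 with hm
  have hmpos : 0 < m := by omega
  have hm3 : (3 : ℚ) ≤ m := by
    have : (3 : ℤ) ≤ m := by omega
    exact_mod_cast this
  have hm0 : (m : ℚ) ≠ 0 := by positivity
  have hmk : (m : ℚ) = 2 * k + 1 := by rw [hm]; push_cast; ring
  have hx0' : x 0 = 1 / (m : ℚ) := by rw [hx0, hmk]; push_cast; ring
  have hx1 : x (1 / (m : ℚ)) = 1 := by rw [← hx0', hx]; ring
  have hxi := do_xint x hx
  set t : ℚ := (m - 2 : ℚ) / m with ht
  have htpos : 0 < t := by
    rw [ht]
    apply div_pos <;> linarith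
  -- arithmetic of the exponent
  have hkt : (k : ℚ) * t - 1 / m = ((k - 1 : ℤ) : ℚ) := by
    rw [ht]
    field_simp
    rw [hmk]
    push_cast
    ring
  let y : ℚ ≃o ℚ := OrderIso.addRight (-(1 / (m : ℚ)))
  have hy : ∀ q, y q = q - 1 / (m : ℚ) := by
    intro q
    change q + -(1 / (m : ℚ)) = _
    ring
  have hRW : ∀ q, ((y * x) * (x * y)) q = q + t := by
    intro q
    rw [RelIso.mul_apply, RelIso.mul_apply, RelIso.mul_apply, hy, hy, hx, ht]
    field_simp
    ring
  obtain ⟨f, hfr, hfw⟩ := huniv (ℚ ≃o ℚ) (y * x) (x * y) (by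
    rw [do_odd2, do_odd1]
    ext q
    rw [RelIso.mul_apply, RelIso.mul_apply, RelIso.mul_apply, RelIso.mul_apply]
    have h1 := fun q => do_trans _ t hRW k q
    simp only [zpow_natCast] at h1
    rw [h1, h1, hy, hy]
    have e : q + ((k : ℤ) : ℚ) * t - 1 / (m : ℚ) = q + ((k - 1 : ℤ) : ℚ) := by
      rw [← hkt]
      push_cast
      ring
    rw [e, hxi, ← hkt]
    push_cast
    ring)
  set c : G := r * w with hc
  set D : G := c ^ k * r with hDdef
  have hD' : D = w * c ^ k := by
    rw [hDdef, hc, ← do_odd2, hrel, do_odd1]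
  have hDD : D * D = c ^ m := by
    rw [hm]
    nth_rewrite 1 [hDdef]
    rw [hD']
    have e : c ^ k * r * (w * c ^ k) = c ^ k * c * c ^ k := by
      rw [hc]
      simp only [mul_assoc]
    rw [e, ← pow_succ, ← pow_add]
    have e2 : (2 * (k : ℤ) + 1) = ((k + 1 + k : ℕ) : ℤ) := by push_cast; ring
    rw [e2, zpow_natCast]
  have hDw : D * w = c ^ ((k : ℤ) + 1) := by
    rw [hDdef, mul_assoc, ← hc, ← pow_succ]
    have e2 : ((k : ℤ) + 1) = ((k + 1 : ℕ) : ℤ) := by push_cast; ring
    rw [e2, zpow_natCast]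
  have hr : r = c ^ (-(k : ℤ)) * D := by
    rw [hDdef, zpow_neg, zpow_natCast, inv_mul_cancel_left]
  have hall := fun g => do_all (m := m) (k := (k : ℤ)) hDD hDw hr hgen g
  have hfc : ∀ (n : ℤ) (q : ℚ), f (c ^ n) q = q + n * t := by
    intro n q
    rw [map_zpow]
    refine do_trans _ t ?_ n q
    intro q
    rw [hc, map_mul, hfr, hfw, hRW]
  have hfD : ∀ q, f D q = x q + ((k - 1 : ℤ) : ℚ) := by
    intro q
    have e : f (c ^ k) = f (c ^ (k : ℤ)) := by rw [zpow_natCast]
    rw [hDdef, map_mul, RelIso.mul_apply, e, hfc, hfr, RelIso.mul_apply, hy, ← hkt]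
    push_cast
    ring
  set p : ℚ := 1 / (m : ℚ) with hp
  have hfw' : ∀ b : ℤ, f (w ^ b) p = p := by
    intro b
    rw [map_zpow]
    apply do_fix
    rw [hfw, RelIso.mul_apply, hy, sub_self, hx0']
  have hp1 : p < 1 := by
    rw [hp, div_lt_one (by linarith)]
    linarith
  have hp0 : 0 < p := by
    rw [hp]
    apply div_pos <;> linarith
  -- the arc (1/m, 1)
  have hout : ∀ (q : ℚ) (N : ℤ), (N : ℚ) + p < q → q < N + 1 →
      ∃ N' : ℤ, (N' : ℚ) < f D q ∧ f D q < N' + p := by
    intro q N h1 h2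
    refine ⟨N + 1 + (k - 1), ?_, ?_⟩
    · rw [hfD]
      have h3 := x.lt_iff_lt.2 h1
      rw [add_comm, hxi, hx1] at h3
      push_cast
      linarith
    · rw [hfD]
      have h3 := x.lt_iff_lt.2 h2
      have e : (N : ℚ) + 1 = 0 + ((N + 1 : ℤ) : ℚ) := by push_cast; ring
      rw [e, hxi, hx0'] at h3
      push_cast
      push_cast at h3
      linarith
  have hrotF : ∀ (q : ℚ) (n i : ℤ), ¬ m ∣ i → (n : ℚ) < q → q < n + p →
      ∃ N : ℤ, (N : ℚ) + p < q + i * t ∧ q + i * t < N + 1 := by
    intro q n i hi h1 h2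
    obtain ⟨N, a, ha0, ham, hdvd, he⟩ := do_rot hmpos 0 i
    have ha1 : 1 ≤ a := by
      rcases lt_or_ge 0 a with h | h
      · exact h
      · exfalso
        have ha : a = 0 := le_antisymm h ha0
        rw [ha] at hdvd
        apply hi
        apply do_dvd hm
        have e : 2 * i = -(0 - 2 * i - 0) := by ring
        rw [e]
        exact (dvd_neg).2 hdvd
    have he' : (i : ℚ) * t = N + a / m := by
      rw [← he]
      push_cast
      ring
    have h3 : p ≤ (a : ℚ) / m := by
      rw [hp]
      apply div_le_div_of_nonneg_right _ (by linarith)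
      exact_mod_cast ha1
    have h4 : (a : ℚ) / m + p ≤ 1 := by
      rw [hp, ← add_div, div_le_one (by linarith)]
      have : a + 1 ≤ m := ham
      exact_mod_cast this
    refine ⟨n + N, ?_, ?_⟩
    · rw [he']
      push_cast
      linarith
    · rw [he']
      push_cast
      linarith
  have hF : ∀ g, DoF m (k : ℤ) c D w g → ∃ n : ℤ, (n : ℚ) < f g p ∧ f g p < n + p := by
    intro g hg
    induction hg with
    | a i b h1 h2 =>
      obtain ⟨N, a, ha0, ham, hdvd, he⟩ := do_rot hmpos 1 i
      have ha : a ≠ 0 := by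
        intro h
        rw [h] at hdvd
        apply h2
        apply do_dvd hm
        have e : 2 * (i - ((k : ℤ) + 1)) = -(1 - 2 * i - 0) - m := by rw [hm]; ring
        rw [e]
        exact ((dvd_neg).2 hdvd).sub (dvd_refl m)
      have ha' : a ≠ 1 := by
        intro h
        rw [h] at hdvd
        apply h1
        apply do_dvd hm
        have e : 2 * i = -(1 - 2 * i - 1) := by ring
        rw [e]
        exact (dvd_neg).2 hdvd
      have ha2 : 2 ≤ a := by omega
      have e1 : f (c ^ i * w ^ b) p = N + a / m := by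
        rw [map_mul, RelIso.mul_apply, hfw', hfc, ← he]
        push_cast
        rw [hp]
      have h3 : p < (a : ℚ) / m := by
        rw [hp]
        apply div_lt_div_of_pos_right _ (by linarith)
        have : (1 : ℤ) < a := by omega
        exact_mod_cast this
      have h4 : (a : ℚ) / m < 1 := by
        rw [div_lt_one (by linarith)]
        exact_mod_cast ham
      rw [map_mul, RelIso.mul_apply, e1]
      exact hout _ N (by linarith) (by linarith)
    | b i g h1 _ ih =>
      obtain ⟨n, h2, h3⟩ := ih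
      obtain ⟨N, h4, h5⟩ := hrotF _ n i h1 h2 h3
      have e2 : f (c ^ i * g) p = f g p + i * t := by rw [map_mul, RelIso.mul_apply, hfc]
      have e3 : f (D * (c ^ i * g)) p = f D (f (c ^ i * g) p) := by
        rw [map_mul, RelIso.mul_apply]
      rw [e3, e2]
      exact hout _ N h4 h5
  have hstab : ∀ g, f g p = p ↔ g ∈ Subgroup.zpowers w := by
    intro g
    constructor
    · intro hg
      obtain ⟨i, g', rfl, h⟩ := hall g
      rw [map_mul, RelIso.mul_apply, hfc] at hg
      rcases h with ⟨b, rfl⟩ | h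
      · rw [hfw'] at hg
        have h1 : (i : ℚ) * t = 0 := by linarith
        rcases mul_eq_zero.1 h1 with h2 | h2
        · have h3 : i = 0 := by exact_mod_cast h2
          rw [h3, zpow_zero, one_mul]
          exact ⟨b, rfl⟩
        · exact absurd h2 htpos.ne'
      · exfalso
        obtain ⟨n, h2, h3⟩ := hF _ h
        by_cases hi : m ∣ i
        · obtain ⟨j, rfl⟩ := hi
          have e : ((m * j : ℤ) : ℚ) * t = ((j * (m - 2) : ℤ) : ℚ) := by
            rw [ht]
            push_cast
            field_simp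
          rw [e] at hg
          have h4 : ((n + j * (m - 2) : ℤ) : ℚ) < p := by
            push_cast
            push_cast at hg
            linarith
          have h5 : (0 : ℚ) < ((n + j * (m - 2) : ℤ) : ℚ) := by
            push_cast
            push_cast at hg
            linarith
          have h6 : (0 : ℤ) < n + j * (m - 2) := by exact_mod_cast h5
          have h7 : ((n + j * (m - 2) : ℤ) : ℚ) < 1 := h4.trans hp1
          have h8 : n + j * (m - 2) < 1 := by exact_mod_cast h7
          omega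
        · obtain ⟨N, h4, h5⟩ := hrotF _ n i hi h2 h3
          rw [hg] at h4 h5
          have h6 : (N : ℚ) < 0 := by linarith
          have h7 : N < 0 := by exact_mod_cast h6
          have h8 : (0 : ℚ) < N + 1 := by linarith
          have h9 : 0 < N + 1 := by exact_mod_cast h8
          omega
    · rintro ⟨b, rfl⟩
      exact hfw' b
  refine ⟨⟨_, cone_of_action f p (Subgroup.zpowers w) hstab⟩, ?_⟩
  intro hrw
  have h1 := (hstab r).2 hrw
  rw [hfr, RelIso.mul_apply, hy, hx1] at h1
  have h2 : p * m = 1 := by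
    rw [hp]
    field_simp
  have h3 : 2 * p = 1 := by linarith
  nlinarith

end Pool.Agent.Lib.MP_7b9603_alLO
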