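import Mathlib

/-!
# Group rings of extensions with free kernel: the reduction
-/

set_option autoImplicit false

namespace Pool.Agent.Lib.MP_7b9603_alLO

universe u w

section

variable {X : Type u} (K : Type w) [Field K]

open Classical in
/-- the value of the derivation of the letter `a` on the letter `c` -/
private noncomputable def fk_d (a c : X × Bool) : MonoidAlgebra K (FreeGroup X) :=
  if c = a then 1 else if c = (a.1, !a.2) then -MonoidAlgebra.single (FreeGroup.mk [c]) 1 else 0

/-- the derivation of the letter `a` on lists -/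
private noncomputable def fk_l (a : X × Bool) : List (X × Bool) → MonoidAlgebra K (FreeGroup X)
  | [] => 0
  | c :: w => fk_d K a c * MonoidAlgebra.single (FreeGroup.mk w) 1 + fk_l a w

private theorem fk_mk_cons (c : X × Bool) (w : List (X × Bool)) :
    FreeGroup.mk (c :: w) = FreeGroup.mk [c] * FreeGroup.mk w := by
  rw [FreeGroup.mul_mk]
  rfl

private theorem fk_d_inv (a : X × Bool) (x : X) (b : Bool) :
    fk_d K a (x, b) * MonoidAlgebra.single (FreeGroup.mk [(x, !b)]) 1 + fk_d K a (x, !b) = 0 := by
  classical
  have h1 : (FreeGroup.mk [(x, b)] : FreeGroup X) * FreeGroup.mk [(x, !b)] = 1 := by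
    rw [FreeGroup.mul_mk]
    exact Quot.sound (FreeGroup.Red.Step.cons_not (L := []))
  unfold fk_d
  by_cases ha : (x, b) = a
  · have e1 : ¬ ((x, !b) = a) := by
      rw [← ha]
      intro h
      have := congrArg Prod.snd h
      simp at this
    have e2 : (x, !b) = (a.1, !a.2) := by rw [← ha]
    rw [if_pos ha, if_neg e1, if_pos e2, one_mul, add_neg_cancel]
  · by_cases hb : (x, b) = (a.1, !a.2)
    · have e1 : (x, !b) = a := by
        have h2 := congrArg Prod.fst hb
        have h3 := congrArg Prod.snd hb
        simp only at h2 h3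
        rw [h2, h3, Bool.not_not]
      rw [if_neg ha, if_pos hb, if_pos e1, neg_mul, MonoidAlgebra.single_mul_single, h1, one_mul,
        ← MonoidAlgebra.one_def, neg_add_cancel]
    · have e1 : ¬ ((x, !b) = a) := by
        intro h
        apply hb
        rw [← h, Bool.not_not]
      have e2 : ¬ ((x, !b) = (a.1, !a.2)) := by
        intro h
        apply ha
        have h2 := congrArg Prod.fst h
        have h3 := congrArg Prod.snd h
        simp only [Bool.not_inj_iff] at h2 h3
        rw [h2, h3]
      rw [if_neg ha, if_neg hb, if_neg e1, if_neg e2, zero_mul, add_zero]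

private theorem fk_l_append (a : X × Bool) (w w' : List (X × Bool)) :
    fk_l K a (w ++ w') = fk_l K a w * MonoidAlgebra.single (FreeGroup.mk w') 1 + fk_l K a w' := by
  induction w with
  | nil => rw [List.nil_append, fk_l, zero_mul, zero_add]
  | cons c w ih =>
    rw [List.cons_append, fk_l, fk_l, ih, add_mul, mul_assoc, MonoidAlgebra.single_mul_single,
      FreeGroup.mul_mk, one_mul, add_assoc]

private theorem fk_l_step (a : X × Bool) {w w' : List (X × Bool)} (h : FreeGroup.Red.Step w w') :
    fk_l K a w = fk_l K a w' := by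
  cases h with
  | @not L₁ L₂ x b =>
    rw [fk_l_append, fk_l_append]
    have h1 : fk_l K a ((x, b) :: (x, !b) :: L₂) = fk_l K a L₂ := by
      have e : (MonoidAlgebra.single (FreeGroup.mk ((x, !b) :: L₂)) 1 :
          MonoidAlgebra K (FreeGroup X)) = MonoidAlgebra.single (FreeGroup.mk [(x, !b)]) 1 *
            MonoidAlgebra.single (FreeGroup.mk L₂) 1 := by
        rw [MonoidAlgebra.single_mul_single, ← fk_mk_cons, one_mul]
      rw [fk_l, fk_l, e, ← mul_assoc, ← add_assoc, ← add_mul, fk_d_inv, zero_mul, zero_add]
    have h2 : (FreeGroup.mk ((x, b) :: (x, !b) :: L₂) : FreeGroup X) = FreeGroup.mk L₂ :=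
      Quot.sound (FreeGroup.Red.Step.cons_not)
    rw [h1, h2]

private theorem fk_l_red (a : X × Bool) {w w' : List (X × Bool)} (h : FreeGroup.Red w w') :
    fk_l K a w = fk_l K a w' := by
  induction h with
  | refl => rfl
  | tail _ h ih => rw [ih, fk_l_step K a h]

/-- the derivation of the letter `a` -/
private noncomputable def fk_D (a : X × Bool) (h : FreeGroup X) : MonoidAlgebra K (FreeGroup X) := by
  classical
  exact fk_l K a h.toWord

private theorem fk_D_mk (a : X × Bool) (w : List (X × Bool)) :
    fk_D K a (FreeGroup.mk w) = fk_l K a w := by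
  classical
  change fk_l K a (FreeGroup.mk w).toWord = _
  rw [FreeGroup.toWord_mk]
  exact (fk_l_red K a FreeGroup.reduce.red).symm

private theorem fk_D_mul (a : X × Bool) (h h' : FreeGroup X) :
    fk_D K a (h * h') = fk_D K a h * MonoidAlgebra.single h' 1 + fk_D K a h' := by
  classical
  have e1 : h * h' = FreeGroup.mk (h.toWord ++ h'.toWord) := by
    rw [← FreeGroup.mul_mk, FreeGroup.mk_toWord, FreeGroup.mk_toWord]
  rw [e1, fk_D_mk, fk_l_append, FreeGroup.mk_toWord]
  rfl

open Classical in
/-- coefficients at long words -/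
private theorem fk_l_long (a : X × Bool) (w : List (X × Bool)) (hw : FreeGroup.IsReduced w)
    (v : List (X × Bool)) (hv : FreeGroup.IsReduced v) (hl : w.length ≤ v.length)
    (h : (fk_l K a w).coeff (FreeGroup.mk v) ≠ 0) :
    v = w ∧ ∃ w', w = (a.1, !a.2) :: w' := by
  induction w with
  | nil => exact absurd rfl h
  | cons c w ih =>
    have hw' : FreeGroup.IsReduced w := by
      exact List.IsChain.tail hw
    have h1 : (fk_l K a w).coeff (FreeGroup.mk v) = 0 := by
      by_contra h1
      obtain ⟨h2, -⟩ := ih hw' (by rw [List.length_cons] at hl; omega) h1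
      rw [h2, List.length_cons] at hl
      omega
    have hinj : ∀ L : List (X × Bool), FreeGroup.IsReduced L → FreeGroup.mk L = FreeGroup.mk v →
        L = v := by
      intro L hL e
      have := congrArg FreeGroup.toWord e
      rwa [FreeGroup.toWord_mk, FreeGroup.toWord_mk, hL.reduce_eq, hv.reduce_eq] at this
    rw [fk_l, MonoidAlgebra.coeff_add, Finsupp.add_apply, h1, add_zero] at h
    unfold fk_d at h
    split_ifs at h with e1 e2
    · rw [one_mul, MonoidAlgebra.coeff_single, Finsupp.single_apply] at h
      have h2 : FreeGroup.mk w = FreeGroup.mk v := by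
        by_contra h2
        exact h (if_neg h2)
      have h3 := hinj w hw' h2
      rw [List.length_cons, ← h3] at hl
      omega
    · rw [neg_mul, MonoidAlgebra.single_mul_single, ← fk_mk_cons, MonoidAlgebra.coeff_neg,
        Finsupp.neg_apply, MonoidAlgebra.coeff_single, Finsupp.single_apply] at h
      have h2 : FreeGroup.mk (c :: w) = FreeGroup.mk v := by
        by_contra h2
        exact h (by rw [if_neg h2, neg_zero])
      exact ⟨(hinj _ hw h2).symm, w, by rw [e2]⟩
    · rw [zero_mul] at h
      exact absurd rfl h

open Classical in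
/-- the coefficient at the shortened word -/
private theorem fk_l_top (a : X × Bool) (w0 : List (X × Bool))
    (h0 : FreeGroup.IsReduced (a :: w0)) (w : List (X × Bool)) (hw : FreeGroup.IsReduced w)
    (hl : w.length ≤ w0.length + 1) :
    (fk_l K a w).coeff (FreeGroup.mk w0) = if w = a :: w0 then 1 else 0 := by
  induction w with
  | nil => 
    rw [if_neg (by simp)]
    rfl
  | cons c w ih =>
    have hw' : FreeGroup.IsReduced w := List.IsChain.tail hw
    have h00 : FreeGroup.IsReduced w0 := List.IsChain.tail h0
    have h1 : (fk_l K a w).coeff (FreeGroup.mk w0) = 0 := by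
      rw [ih hw' (by rw [List.length_cons] at hl; omega), if_neg]
      intro e
      rw [e, List.length_cons, List.length_cons] at hl
      omega
    have hinj : ∀ L : List (X × Bool), FreeGroup.IsReduced L → FreeGroup.mk L = FreeGroup.mk w0 →
        L = w0 := by
      intro L hL e
      have := congrArg FreeGroup.toWord e
      rwa [FreeGroup.toWord_mk, FreeGroup.toWord_mk, hL.reduce_eq, h00.reduce_eq] at this
    rw [fk_l, MonoidAlgebra.coeff_add, Finsupp.add_apply, h1, add_zero]
    unfold fk_d
    split_ifs with e1 e2 e3 e4 e5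
    · rw [one_mul, MonoidAlgebra.coeff_single]
      have : w = w0 := (List.cons.inj e2).2
      rw [this, Finsupp.single_eq_same]
    · rw [one_mul, MonoidAlgebra.coeff_single, Finsupp.single_apply, if_neg]
      intro e
      exact e2 (by rw [e1, hinj w hw' e])
    · exact absurd (List.cons.inj e4).1 e1
    · rw [neg_mul, MonoidAlgebra.single_mul_single, ← fk_mk_cons, MonoidAlgebra.coeff_neg,
        Finsupp.neg_apply, MonoidAlgebra.coeff_single, Finsupp.single_apply, if_neg, neg_zero]
      intro e
      have h2 := hinj _ hw e
      rw [← h2, e3] at h0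
      have h3 := (List.isChain_cons_cons.1 h0).1
      simp at h3
    · exact absurd (List.cons.inj e5).1 e1
    · rw [zero_mul]
      rfl

end

section

variable {X G Q : Type u} [Group G] [Group Q] (φ : G →* Q) (e : FreeGroup X ≃* φ.ker)
  (K : Type w) [Field K]

/-- the embedding of the free group -/
private def fk_j : FreeGroup X →* G := φ.ker.subtype.comp e.toMonoidHom

private theorem fk_φj (h : FreeGroup X) : φ (fk_j φ e h) = 1 := (e h).2

private theorem fk_j_inj : Function.Injective (fk_j φ e) := by
  intro a b h
  exact e.injective (Subtype.ext h)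

open Classical in
/-- a section -/
private noncomputable def fk_s (q : Q) : G := if h : ∃ g, φ g = q then h.choose else 1

private theorem fk_φs (g : G) : φ (fk_s φ (φ g)) = φ g := by
  classical
  have h : ∃ g', φ g' = φ g := ⟨g, rfl⟩
  unfold fk_s
  rw [dif_pos h]
  exact h.choose_spec

/-- the component in the free group -/
private noncomputable def fk_f (g : G) : FreeGroup X :=
  e.symm ⟨g * (fk_s φ (φ g))⁻¹, by
    rw [MonoidHom.mem_ker, map_mul, map_inv, fk_φs, mul_inv_cancel]⟩

private theorem fk_jf (g : G) : fk_j φ e (fk_f φ e g) * fk_s φ (φ g) = g := by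
  have h1 : fk_j φ e (fk_f φ e g) = g * (fk_s φ (φ g))⁻¹ := by
    change ((e (e.symm _) : φ.ker) : G) = _
    rw [e.apply_symm_apply]
  rw [h1, inv_mul_cancel_right]

private theorem fk_f_eq (h : FreeGroup X) (g : G) :
    fk_f φ e (fk_j φ e h * g) = h * fk_f φ e g := by
  apply fk_j_inj φ e
  have h1 := fk_jf φ e (fk_j φ e h * g)
  rw [map_mul, fk_φj, one_mul] at h1
  have h2 := fk_jf φ e g
  rw [map_mul]
  apply mul_right_cancel (b := fk_s φ (φ g))
  rw [h1, mul_assoc, h2]

private theorem fk_ext {g g' : G} (h : φ g = φ g') (h' : fk_f φ e g = fk_f φ e g') : g = g' := by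
  rw [← fk_jf φ e g, ← fk_jf φ e g', h, h']

/-- the derivation on `G` -/
private noncomputable def fk_δ (a : X × Bool) (g : G) : MonoidAlgebra K G :=
  MonoidAlgebra.mapDomainRingHom K (fk_j φ e) (fk_D K a (fk_f φ e g)) *
    MonoidAlgebra.single (fk_s φ (φ g)) 1

private theorem fk_δ_mul (a : X × Bool) (h : FreeGroup X) (g : G) :
    fk_δ φ e K a (fk_j φ e h * g) =
      MonoidAlgebra.mapDomainRingHom K (fk_j φ e) (fk_D K a h) * MonoidAlgebra.single g 1 +
        fk_δ φ e K a g := by
  have e1 : φ (fk_j φ e h * g) = φ g := by rw [map_mul, fk_φj, one_mul]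
  have e2 : MonoidAlgebra.mapDomainRingHom K (fk_j φ e)
      (MonoidAlgebra.single (fk_f φ e g) 1) * MonoidAlgebra.single (fk_s φ (φ g)) 1 =
        MonoidAlgebra.single g 1 := by
    rw [MonoidAlgebra.mapDomainRingHom_apply, MonoidAlgebra.mapDomain_single,
      MonoidAlgebra.single_mul_single, one_mul, fk_jf]
  unfold fk_δ
  rw [fk_f_eq, fk_D_mul, e1, map_add, map_mul, add_mul, mul_assoc, e2]

open Classical in
private theorem fk_δ_coeff (a : X × Bool) (g g' : G) :
    (fk_δ φ e K a g).coeff g' =
      if φ g' = φ g then (fk_D K a (fk_f φ e g)).coeff (fk_f φ e g') else 0 := by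
  unfold fk_δ
  rw [MonoidAlgebra.coeff_mul_single_apply, mul_one, MonoidAlgebra.mapDomainRingHom_apply]
  split_ifs with h
  · have e1 : g' * (fk_s φ (φ g))⁻¹ = fk_j φ e (fk_f φ e g') := by
      rw [← h, mul_inv_eq_iff_eq_mul]
      exact (fk_jf φ e g').symm
    rw [e1]
    exact Finsupp.mapDomain_apply (fk_j_inj φ e) _ _
  · refine Finsupp.mapDomain_of_notMem_range _ _ ?_
    rintro ⟨v, hv⟩
    apply h
    have h2 : φ (fk_j φ e v) = φ (g' * (fk_s φ (φ g))⁻¹) := congrArg φ hv
    rw [fk_φj, map_mul, map_inv, fk_φs] at h2
    exact (mul_inv_eq_one.1 h2.symm)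


/-- the derivation on the group algebra -/
private noncomputable def fk_T (a : X × Bool) (x : MonoidAlgebra K G) : MonoidAlgebra K G :=
  Finsupp.linearCombination K (fk_δ φ e K a) x.coeff

private theorem fk_T_add (a : X × Bool) (x y : MonoidAlgebra K G) :
    fk_T φ e K a (x + y) = fk_T φ e K a x + fk_T φ e K a y := by
  unfold fk_T
  rw [MonoidAlgebra.coeff_add, map_add]

private theorem fk_T_zero (a : X × Bool) : fk_T φ e K a 0 = 0 := by
  unfold fk_T
  rw [MonoidAlgebra.coeff_zero, map_zero]

private theorem fk_T_single (a : X × Bool) (g : G) (c : K) :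
    fk_T φ e K a (MonoidAlgebra.single g c) = c • fk_δ φ e K a g := by
  unfold fk_T
  rw [MonoidAlgebra.coeff_single, Finsupp.linearCombination_single]

private theorem fk_δ_split (a : X × Bool) (g g' : G) :
    fk_δ φ e K a (g * g') =
      MonoidAlgebra.mapDomainRingHom K (fk_j φ e) (fk_D K a (fk_f φ e g)) *
        MonoidAlgebra.single (fk_s φ (φ g) * g') 1 + fk_δ φ e K a (fk_s φ (φ g) * g') := by
  have h1 : g * g' = fk_j φ e (fk_f φ e g) * (fk_s φ (φ g) * g') := by
    rw [← mul_assoc, fk_jf]
  conv_lhs => rw [h1]
  exact fk_δ_mul φ e K a _ _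

private theorem fk_T_mul_single (a : X × Bool) (g' : G) (k : K) (x : MonoidAlgebra K G) :
    fk_T φ e K a (x * MonoidAlgebra.single g' k) =
      fk_T φ e K a x * MonoidAlgebra.single g' k +
        Finsupp.linearCombination K (fun q => k • fk_δ φ e K a (fk_s φ q * g') -
          fk_δ φ e K a (fk_s φ q) * MonoidAlgebra.single g' k)
            (MonoidAlgebra.mapDomainRingHom K φ x).coeff := by
  induction x using MonoidAlgebra.induction_linear with
  | zero =>
    rw [zero_mul, fk_T_zero, zero_mul, map_zero, MonoidAlgebra.coeff_zero, map_zero, add_zero]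
  | add x y hx hy =>
    rw [add_mul, fk_T_add, hx, hy, fk_T_add, add_mul, map_add, MonoidAlgebra.coeff_add, map_add]
    abel
  | single g r =>
    have h1 := fk_δ_split φ e K a g g'
    have h2 := fk_δ_split φ e K a g 1
    rw [mul_one, mul_one] at h2
    have h3 : (MonoidAlgebra.single (fk_s φ (φ g)) 1 : MonoidAlgebra K G) *
        MonoidAlgebra.single g' k = k • MonoidAlgebra.single (fk_s φ (φ g) * g') 1 := by
      rw [MonoidAlgebra.single_mul_single, MonoidAlgebra.smul_single, one_mul, smul_eq_mul, mul_one]
    rw [MonoidAlgebra.single_mul_single, fk_T_single, fk_T_single,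
      MonoidAlgebra.mapDomainRingHom_apply, MonoidAlgebra.mapDomain_single,
      MonoidAlgebra.coeff_single, Finsupp.linearCombination_single, h1, h2, mul_smul, smul_mul_assoc,
      ← smul_add]
    congr 1
    rw [add_mul, mul_assoc, h3, mul_smul_comm, smul_add]
    abel

private theorem fk_T_mul (a : X × Bool) (x : MonoidAlgebra K G)
    (hx : MonoidAlgebra.mapDomainRingHom K φ x = 0) (z : MonoidAlgebra K G) :
    fk_T φ e K a (x * z) = fk_T φ e K a x * z := by
  induction z using MonoidAlgebra.induction_linear with
  | zero => rw [mul_zero, fk_T_zero, mul_zero]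
  | add y z hy hz => rw [mul_add, fk_T_add, hy, hz, mul_add]
  | single g r => rw [fk_T_mul_single, hx, MonoidAlgebra.coeff_zero, map_zero, add_zero]

private theorem fk_T_coeff (a : X × Bool) (x : MonoidAlgebra K G) (g' : G) :
    (fk_T φ e K a x).coeff g' =
      ∑ g ∈ x.coeff.support, x.coeff g * (fk_δ φ e K a g).coeff g' := by
  unfold fk_T
  rw [Finsupp.linearCombination_apply, Finsupp.sum, MonoidAlgebra.coeff_sum,
    Finsupp.coe_finsetSum, Finset.sum_apply]
  exact Finset.sum_congr rfl fun g _ => by
    rw [MonoidAlgebra.coeff_smul, Finsupp.smul_apply, smul_eq_mul]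

/-- the length of the component in the free group -/
private noncomputable def fk_n (g : G) : ℕ := by
  classical
  exact (fk_f φ e g).toWord.length

private theorem fk_f_s (g : G) : fk_f φ e (fk_s φ (φ g)) = 1 := by
  apply fk_j_inj φ e
  have h := fk_jf φ e (fk_s φ (φ g))
  rw [fk_φs] at h
  rw [map_one]
  exact mul_eq_right.1 h

private theorem fk_small (x : MonoidAlgebra K G) (hx : x ≠ 0)
    (h : ∀ g, x.coeff g ≠ 0 → fk_n φ e g = 0) : MonoidAlgebra.mapDomainRingHom K φ x ≠ 0 := by
  classical
  intro h0
  obtain ⟨g0, hg0⟩ : ∃ g, x.coeff g ≠ 0 := by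
    by_contra hc
    push Not at hc
    exact hx (by ext g; exact hc g)
  apply hg0
  have h1 : (MonoidAlgebra.mapDomainRingHom K φ x).coeff (φ g0) = x.coeff g0 := by
    rw [MonoidAlgebra.mapDomainRingHom_apply]
    refine Finsupp.mapDomain_apply' (x.coeff.support : Set G) x.coeff subset_rfl ?_ ?_
    · intro g hg g' hg' e1
      have n1 := h g (Finsupp.mem_support_iff.1 hg)
      have n2 := h g' (Finsupp.mem_support_iff.1 hg')
      apply fk_ext φ e e1
      rw [FreeGroup.toWord_eq_nil_iff.1 (List.length_eq_zero_iff.1 n1),
        FreeGroup.toWord_eq_nil_iff.1 (List.length_eq_zero_iff.1 n2)]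
    · exact Finsupp.mem_support_iff.2 hg0
  rw [← h1, h0, MonoidAlgebra.coeff_zero, Finsupp.coe_zero, Pi.zero_apply]

end

/-- Reduction to an element with nonzero image. -/
theorem fk_reduce {X G Q : Type u} [Group G] [Group Q] (φ : G →* Q) (e : FreeGroup X ≃* φ.ker)
    (K : Type w) [Field K] (x : MonoidAlgebra K G) (hx : x ≠ 0) :
    ∃ x' : MonoidAlgebra K G, MonoidAlgebra.mapDomainRingHom K φ x' ≠ 0 ∧
      ∀ z, x * z = 0 → x' * z = 0 := by
  classical
  have key : ∀ L : ℕ, ∀ x : MonoidAlgebra K G, x ≠ 0 → (∀ g, x.coeff g ≠ 0 → fk_n φ e g ≤ L) →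
      ∃ x' : MonoidAlgebra K G, MonoidAlgebra.mapDomainRingHom K φ x' ≠ 0 ∧
        ∀ z, x * z = 0 → x' * z = 0 := by
    intro L
    induction L with
    | zero =>
      intro x hx h
      exact ⟨x, fk_small φ e K x hx fun g hg => Nat.le_zero.1 (h g hg), fun z hz => hz⟩
    | succ L ihL =>
      have inner : ∀ n : ℕ, ∀ x : MonoidAlgebra K G, x ≠ 0 →
          (∀ g, x.coeff g ≠ 0 → fk_n φ e g ≤ L + 1) →
          (x.coeff.support.filter fun g => fk_n φ e g = L + 1).card ≤ n →
          ∃ x' : MonoidAlgebra K G, MonoidAlgebra.mapDomainRingHom K φ x' ≠ 0 ∧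
            ∀ z, x * z = 0 → x' * z = 0 := by
        intro n
        induction n with
        | zero =>
          intro x hx h hc
          refine ihL x hx fun g hg => ?_
          have h1 := h g hg
          have h2 : fk_n φ e g ≠ L + 1 := by
            intro h2
            have h3 := Finset.card_eq_zero.1 (Nat.le_zero.1 hc)
            have h4 : g ∈ (x.coeff.support.filter fun g => fk_n φ e g = L + 1) :=
              Finset.mem_filter.2 ⟨Finsupp.mem_support_iff.2 hg, h2⟩
            rw [h3] at h4
            exact Finset.notMem_empty _ h4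
          omega
        | succ n ihn =>
          intro x hx h hc
          by_cases hε : MonoidAlgebra.mapDomainRingHom K φ x = 0
          swap
          · exact ⟨x, hε, fun z hz => hz⟩
          by_cases hex : ∃ g0, x.coeff g0 ≠ 0 ∧ fk_n φ e g0 = L + 1
          swap
          · push Not at hex
            refine ihL x hx fun g hg => ?_
            have h1 := h g hg
            have h2 := hex g hg
            omega
          obtain ⟨g0, hg0, hn0⟩ := hex
          obtain ⟨a, w0, hw0⟩ : ∃ a w0, (fk_f φ e g0).toWord = a :: w0 := by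
            rcases hww : (fk_f φ e g0).toWord with _ | ⟨a, w0⟩
            · exfalso
              have : (fk_f φ e g0).toWord.length = L + 1 := hn0
              rw [hww] at this
              exact absurd this (by simp)
            · exact ⟨a, w0, rfl⟩
          have hlen : w0.length = L := by
            have : (fk_f φ e g0).toWord.length = L + 1 := hn0
            rw [hw0, List.length_cons] at this
            omega
          have hred : FreeGroup.IsReduced (a :: w0) := hw0 ▸ FreeGroup.isReduced_toWord
          -- coefficients of the terms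
          have hD : ∀ g, fk_D K a (fk_f φ e g) = fk_l K a (fk_f φ e g).toWord := fun _ => rfl
          have hlong : ∀ g', L + 1 ≤ fk_n φ e g' → (fk_T φ e K a x).coeff g' ≠ 0 →
              x.coeff g' ≠ 0 ∧ ∃ w', (fk_f φ e g').toWord = (a.1, !a.2) :: w' := by
            intro g' hn' hc'
            rw [fk_T_coeff] at hc'
            obtain ⟨g, hg, hne⟩ := Finset.exists_ne_zero_of_sum_ne_zero hc'
            have hxg := Finsupp.mem_support_iff.1 hg
            have h2 := right_ne_zero_of_mul hne
            rw [fk_δ_coeff] at h2
            have h3 : φ g' = φ g := by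
              by_contra h3
              exact h2 (if_neg h3)
            rw [if_pos h3, hD, ← FreeGroup.mk_toWord (x := fk_f φ e g')] at h2
            obtain ⟨h4, h5⟩ := fk_l_long K a _ FreeGroup.isReduced_toWord _
              FreeGroup.isReduced_toWord ((h g hxg).trans hn') h2
            have h6 : g' = g := fk_ext φ e h3 (FreeGroup.toWord_injective h4)
            subst h6
            exact ⟨hxg, h5⟩
          have hx' : fk_T φ e K a x ≠ 0 := by
            intro h0
            apply hg0
            let g1 : G := fk_j φ e (FreeGroup.mk w0) * fk_s φ (φ g0)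
            have hφ1 : φ g1 = φ g0 := by
              change φ (_ * _) = _
              rw [map_mul, fk_φj, one_mul, fk_φs]
            have hf1 : fk_f φ e g1 = FreeGroup.mk w0 := by
              change fk_f φ e (_ * _) = _
              rw [fk_f_eq, fk_f_s, mul_one]
            have h1 := congrArg (fun y => y.coeff g1) h0
            change (fk_T φ e K a x).coeff g1 = 0 at h1
            rw [fk_T_coeff, Finset.sum_eq_single g0] at h1
            · rw [fk_δ_coeff, if_pos hφ1, hf1, hD, hw0,
                fk_l_top K a w0 hred (a :: w0) hred (by simp), if_pos rfl, mul_one] at h1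
              exact h1
            · intro g hg hne
              rw [fk_δ_coeff]
              split_ifs with h3
              · have hxg := Finsupp.mem_support_iff.1 hg
                rw [hf1, hD, fk_l_top K a w0 hred _ FreeGroup.isReduced_toWord
                  (by rw [hlen]; exact h g hxg), if_neg, mul_zero]
                intro h4
                apply hne
                apply fk_ext φ e (h3.symm.trans hφ1)
                exact FreeGroup.toWord_injective (h4.trans hw0.symm)
              · rw [mul_zero]
            · intro h3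
              exact absurd (Finsupp.mem_support_iff.2 hg0) h3
          have hb : ∀ g, (fk_T φ e K a x).coeff g ≠ 0 → fk_n φ e g ≤ L + 1 := by
            intro g hg
            by_contra hc'
            exact hc' (h g (hlong g (by omega) hg).1)
          obtain ⟨x', h1, h2⟩ := ihn (fk_T φ e K a x) hx' hb (by
            have hsub : ((fk_T φ e K a x).coeff.support.filter fun g => fk_n φ e g = L + 1) ⊆
                (x.coeff.support.filter fun g => fk_n φ e g = L + 1).erase g0 := by
              intro g hg
              rw [Finset.mem_filter] at hg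
              obtain ⟨h3, w', h4⟩ := hlong g hg.2.ge (Finsupp.mem_support_iff.1 hg.1)
              refine Finset.mem_erase.2 ⟨?_, Finset.mem_filter.2
                ⟨Finsupp.mem_support_iff.2 h3, hg.2⟩⟩
              rintro rfl
              rw [hw0] at h4
              have h5 := congrArg Prod.snd (List.cons.inj h4).1
              simp at h5
            have hmem : g0 ∈ (x.coeff.support.filter fun g => fk_n φ e g = L + 1) :=
              Finset.mem_filter.2 ⟨Finsupp.mem_support_iff.2 hg0, hn0⟩
            have h3 := Finset.card_le_card hsub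
            rw [Finset.card_erase_of_mem hmem] at h3
            omega)
          refine ⟨x', h1, fun z hz => h2 z ?_⟩
          rw [← fk_T_mul φ e K a x hε z, hz, fk_T_zero]
      intro x hx h
      exact inner _ x hx h le_rfl
  exact key (x.coeff.support.sup (fk_n φ e)) x hx fun g hg =>
    Finset.le_sup (f := fk_n φ e) (Finsupp.mem_support_iff.2 hg)

end Pool.Agent.Lib.MP_7b9603_alLO
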