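import Pool.Agent.Lib.MP_7b9603_alLO.Defs
import Pool.Agent.Lib.MP_7b9603_alCF.B3
import Pool.Agent.Lib.MP_7b9603_alCF.F2

/-!
# Group algebras of free products of Artin groups
-/

set_option autoImplicit false

namespace Pool.Agent.Lib.MP_7b9603_alLO

open SPH Pool.Agent.Lib.MP_7b9603_alCF

universe u v w

private abbrev fr_Y {S : Type u} (T : Set S) (b : Bool) : Set S := cond b T Tᶜ

private def fr_f {S : Type u} (M : CoxeterMatrix S) (X : Set S) : AX M X →* ArtinGroup M :=
  incA (sm M X) M Subtype.val (fun _ _ => rfl)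

private theorem fr_gen {S : Type u} (M : CoxeterMatrix S) (T : Set S) (P : ArtinGroup M → Prop)
    (h1 : P 1) (h2 : ∀ (b : Bool) (a : AX M (fr_Y T b)) g, P g → P (fr_f M (fr_Y T b) a * g))
    (g : ArtinGroup M) : P g := by
  classical
  have key : ∀ y : S, ∃ (b : Bool) (a : AX M (fr_Y T b)), fr_f M (fr_Y T b) a = agen M y := by
    intro y
    by_cases hy : y ∈ T
    · exact ⟨true, agen (sm M (fr_Y T true)) ⟨y, hy⟩, incA_agen _ _ _ _ _⟩
    · exact ⟨false, agen (sm M (fr_Y T false)) ⟨y, hy⟩, incA_agen _ _ _ _ _⟩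
  have hg : g ∈ Subgroup.closure (Set.range (agen M)) := by
    have := PresentedGroup.closure_range_of (artinRelM M)
    change g ∈ Subgroup.closure (Set.range (PresentedGroup.of (rels := artinRelM M)))
    rw [this]
    exact Subgroup.mem_top g
  induction hg using Subgroup.closure_induction_left with
  | one => exact h1
  | mul_left x hx y hy ih =>
    obtain ⟨z, rfl⟩ := hx
    obtain ⟨b, a, ha⟩ := key z
    rw [← ha]
    exact h2 b a y ih
  | inv_mul_cancel x hx y hy ih =>
    obtain ⟨z, rfl⟩ := hx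
    obtain ⟨b, a, ha⟩ := key z
    rw [← ha, ← map_inv]
    exact h2 b a⁻¹ y ih

private theorem fr_lift {S : Type u} (M : CoxeterMatrix S) (T : Set S)
    (h0 : ∀ a ∈ T, ∀ b, b ∉ T → M a b = 0) {T' : Type u} [Group T']
    (h : ∀ b : Bool, AX M (fr_Y T b) →* T') :
    ∃ φ : ArtinGroup M →* T', ∀ b a, φ (fr_f M (fr_Y T b) a) = h b a := by
  classical
  let σ : S → T' := fun s => if hs : s ∈ T then h true (agen (sm M (fr_Y T true)) ⟨s, hs⟩)
    else h false (agen (sm M (fr_Y T false)) ⟨s, hs⟩)
  have σt : ∀ (s : S) (hs : s ∈ T), σ s = h true (agen (sm M (fr_Y T true)) ⟨s, hs⟩) := by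
    intro s hs
    simp only [σ, dif_pos hs]
  have σf : ∀ (s : S) (hs : s ∉ T), σ s = h false (agen (sm M (fr_Y T false)) ⟨s, hs⟩) := by
    intro s hs
    simp only [σ, dif_neg hs]
  have hrel : ∀ y z : S, M y z ≠ 0 →
      altProd (σ y) (σ z) (M y z) = altProd (σ z) (σ y) (M y z) := by
    intro y z hyz
    by_cases hy : y ∈ T
    · by_cases hz : z ∈ T
      · rw [σt y hy, σt z hz, ← altProd_map, ← altProd_map]
        exact congrArg (h true) (agen_rel (sm M (fr_Y T true)) ⟨y, hy⟩ ⟨z, hz⟩ hyz)
      · exact absurd (h0 y hy z hz) hyz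
    · by_cases hz : z ∈ T
      · refine absurd ?_ hyz
        rw [M.symmetric]
        exact h0 z hz y hy
      · rw [σf y hy, σf z hz, ← altProd_map, ← altProd_map]
        exact congrArg (h false) (agen_rel (sm M (fr_Y T false)) ⟨y, hy⟩ ⟨z, hz⟩ hyz)
  refine ⟨ArtinGroup.lift M σ hrel, ?_⟩
  have H : ∀ b, (ArtinGroup.lift M σ hrel).comp (fr_f M (fr_Y T b)) = h b := by
    intro b
    apply artin_hom_ext
    intro a
    have e : fr_f M (fr_Y T b) (agen (sm M (fr_Y T b)) a) = agen M a.1 := incA_agen _ _ _ _ _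
    rw [MonoidHom.comp_apply, e, ArtinGroup.lift_agen]
    cases b
    · exact σf a.1 a.2
    · exact σt a.1 a.2
  intro b a
  exact DFunLike.congr_fun (H b) a

private theorem fr_ind {K : Type u} [Field K] {G : Type u} [Group G] :
    Ind (1 : PUnit.{u + 1} →* G) (MonoidAlgebra.singleOneRingHom (R := K) (M := G))
      (RingHom.id (MonoidAlgebra K G)) := by
  classical
  intro s e _ h0 g hg
  have h1 : ∑ g ∈ s, MonoidAlgebra.single g (e g) = (0 : MonoidAlgebra K G) := by
    rw [← h0]
    refine Finset.sum_congr rfl fun x _ => ?_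
    change _ = MonoidAlgebra.single (1 : G) (e x) * MonoidAlgebra.single x 1
    rw [MonoidAlgebra.single_mul_single, one_mul, mul_one]
  have h2 := congrArg (fun z : MonoidAlgebra K G => z.coeff g) h1
  simp only [MonoidAlgebra.coeff_sum, MonoidAlgebra.coeff_single, Finsupp.coe_finsetSum,
    Finset.sum_apply, Finsupp.single_apply, MonoidAlgebra.coeff_zero, Finsupp.coe_zero,
    Pi.zero_apply, Finset.sum_ite_eq', hg, if_true] at h2
  exact h2

private theorem fr_core {S : Type u} (M : CoxeterMatrix S) (T : Set S)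
    (h0 : ∀ a ∈ T, ∀ b, b ∉ T → M a b = 0) (K : Type u) [Field K]
    (hT : NoZeroDivisors (MonoidAlgebra K (AX M T)))
    (hT' : NoZeroDivisors (MonoidAlgebra K (AX M Tᶜ))) :
    NoZeroDivisors (MonoidAlgebra K (ArtinGroup M)) := by
  classical
  have hnz : ∀ b, NoZeroDivisors (MonoidAlgebra K (AX M (fr_Y T b))) := by
    intro b
    cases b
    · exact hT'
    · exact hT
  let oN : MonoidAlgebra K PUnit.{u + 1} →+* K :=
    (MonoidAlgebra.lift K K PUnit.{u + 1} (1 : PUnit.{u + 1} →* K)).toRingHom
  have hoN : ∀ (g : PUnit.{u + 1}) (r : K), oN (MonoidAlgebra.single g r) = r := by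
    intro g r
    change MonoidAlgebra.lift K K PUnit.{u + 1} (1 : PUnit.{u + 1} →* K)
      (MonoidAlgebra.single g r) = r
    rw [MonoidAlgebra.lift_single]
    simp
  obtain ⟨R, iR, κ, Φ, hRz, hRn, hκj, hΦ, htr⟩ := amalgam_step (I := Bool) (K := K)
    (G := ArtinGroup M) (N := PUnit.{u + 1}) (H := fun b => AX M (fr_Y T b))
    (fun b => 1) (fun b => fr_f M (fr_Y T b))
    (by
      intro i i' c
      simp)
    (fun P h1 h2 g => fr_gen M T P h1 h2 g)
    (fun T' _ h _ => fr_lift M T h0 h)
    (E := K) (R := fun b => MonoidAlgebra K (AX M (fr_Y T b)))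
    (fun b => MonoidAlgebra.singleOneRingHom) oN (fun b => RingHom.id _)
    (by
      intro b x
      induction x using MonoidAlgebra.induction_linear with
      | zero => simp
      | add a b ha hb => simp only [map_add, ha, hb]
      | single g r =>
        rw [hoN, MonoidAlgebra.mapDomainRingHom_apply, MonoidAlgebra.mapDomain_single]
        rfl)
    (fun b => fr_ind)
  have hind := htr true PUnit.{u + 1} 1 K MonoidAlgebra.singleOneRingHom fr_ind
  have hinj : Function.Injective Φ := by
    rw [injective_iff_map_eq_zero]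
    intro x hx
    have h1 := hind x.coeff.support (fun g => x.coeff g) (by
        intro g _ g' _ hgg' hr
        obtain ⟨c, hc⟩ := hr
        apply hgg'
        rw [MonoidHom.comp_apply, MonoidHom.one_apply, map_one] at hc
        exact mul_inv_eq_one.mp hc.symm) (by
        rw [← hx]
        conv_rhs => rw [← MonoidAlgebra.sum_coeff_single x]
        rw [Finsupp.sum, map_sum]
        refine Finset.sum_congr rfl fun g _ => ?_
        have h3 := hΦ true (MonoidAlgebra.single 1 (x.coeff g))
        rw [MonoidAlgebra.mapDomainRingHom_apply, MonoidAlgebra.mapDomain_single, map_one] at h3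
        have h4 : κ true (MonoidAlgebra.singleOneRingHom (x.coeff g)) =
            Φ (MonoidAlgebra.single 1 (x.coeff g)) := h3.symm
        rw [RingHom.comp_apply, h4, ← map_mul, MonoidAlgebra.single_mul_single, one_mul, mul_one])
    ext g
    by_contra hg
    exact hg (h1 g (Finsupp.mem_support_iff.mpr hg))
  exact Function.Injective.noZeroDivisors Φ hinj (map_zero Φ) (map_mul Φ)

private theorem fr_trans {G G' K K' : Type*} [Group G] [Group G'] (φ : G' →* G)
    (hφ : Function.Injective φ) [Field K] [Field K'] (ρ : K' →+* K)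
    (h : NoZeroDivisors (MonoidAlgebra K G)) : NoZeroDivisors (MonoidAlgebra K' G') := by
  have h1 : Function.Injective (MonoidAlgebra.mapDomainRingHom K' φ) :=
    MonoidAlgebra.mapDomain_injective hφ
  have h2 : Function.Injective (MonoidAlgebra.mapRingHom G ρ) := by
    intro x y hxy
    ext g
    apply ρ.injective
    rw [← MonoidAlgebra.coeff_mapRingHom, ← MonoidAlgebra.coeff_mapRingHom, hxy]
  exact Function.Injective.noZeroDivisors ((MonoidAlgebra.mapRingHom G ρ).comp
    (MonoidAlgebra.mapDomainRingHom K' φ)) (h2.comp h1) (map_zero _) (map_mul _)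

/-- Free products. -/
theorem free_dom {S : Type u} (M : CoxeterMatrix S) (T : Set S)
    (h0 : ∀ a ∈ T, ∀ b, b ∉ T → M a b = 0) (K : Type w) [Field K]
    (hT : NoZeroDivisors (MonoidAlgebra K (AX M T)))
    (hT' : NoZeroDivisors (MonoidAlgebra K (AX M Tᶜ))) :
    NoZeroDivisors (MonoidAlgebra K (ArtinGroup M)) := by
  let e : S ≃ ULift.{w} S := Equiv.ulift.symm
  let M' : CoxeterMatrix (ULift.{w} S) := M.reindex e
  let ρ : ULift.{u} K →+* K := ULift.ringEquiv.toRingHom
  let ρ' : K →+* ULift.{u} K := ULift.ringEquiv.symm.toRingHom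
  have key : ∀ (X : Set S), NoZeroDivisors (MonoidAlgebra K (AX M X)) →
      NoZeroDivisors (MonoidAlgebra (ULift.{u} K)
        (AX M' (ULift.down ⁻¹' X : Set (ULift.{w} S)))) := by
    intro X hX
    let f : X ≃ (ULift.down ⁻¹' X : Set (ULift.{w} S)) :=
      { toFun := fun s => ⟨ULift.up s.1, s.2⟩
        invFun := fun s => ⟨s.1.down, s.2⟩
        left_inv := fun _ => rfl
        right_inv := fun _ => rfl }
    have h1 : (sm M X).reindex f = sm M' (ULift.down ⁻¹' X : Set (ULift.{w} S)) := by
      apply CoxeterMatrix.ext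
      ext a b
      rfl
    have h2 : NoZeroDivisors (MonoidAlgebra (ULift.{u} K) (ArtinGroup ((sm M X).reindex f))) :=
      fr_trans (su_equiv (sm M X) f).symm.toMonoidHom (su_equiv (sm M X) f).symm.injective ρ hX
    rw [h1] at h2
    exact h2
  have h1 : NoZeroDivisors (MonoidAlgebra (ULift.{u} K) (ArtinGroup M')) :=
    fr_core M' (ULift.down ⁻¹' T) (fun a ha b hb => h0 a.down ha b.down hb) (ULift.{u} K)
      (key T hT) (key Tᶜ hT')
  exact fr_trans (su_equiv M e).toMonoidHom (su_equiv M e).injective ρ' h1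

end Pool.Agent.Lib.MP_7b9603_alLO
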