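import Pool.Agent.Lib.MP_7b9603_alCF.B3

/-!
# Group algebras of free products
-/

set_option autoImplicit false

namespace Pool.Agent.Lib.MP_7b9603_alLO

open Pool.Agent.Lib.MP_7b9603_alCF

universe u

/-- Independence of the group elements over the coefficients. -/
private theorem fa_ind {K : Type u} [Field K] {G : Type u} [Group G] (c : PUnit.{u+1} →* G) :
    Ind c (MonoidAlgebra.singleOneRingHom : K →+* MonoidAlgebra K G)
      (RingHom.id (MonoidAlgebra K G)) := by
  classical
  intro s e _ h0 g hg
  have h1 : (∑ g' ∈ s, MonoidAlgebra.single g' (e g') : MonoidAlgebra K G) = 0 := by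
    rw [← h0]
    refine Finset.sum_congr rfl fun g' _ => ?_
    rw [RingHom.id_apply]
    change _ = MonoidAlgebra.single 1 (e g') * MonoidAlgebra.single g' 1
    rw [MonoidAlgebra.single_mul_single, one_mul, mul_one]
  have h2 := congrArg (fun x : MonoidAlgebra K G => x.coeff g) h1
  simp only [MonoidAlgebra.coeff_sum, Finsupp.coe_finsetSum, Finset.sum_apply,
    MonoidAlgebra.coeff_single, MonoidAlgebra.coeff_zero, Finsupp.coe_zero, Pi.zero_apply] at h2
  rw [Finset.sum_eq_single g] at h2
  · rwa [Finsupp.single_eq_same] at h2
  · intro b _ hb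
    exact Finsupp.single_eq_of_ne (Ne.symm hb)
  · intro h
    exact absurd hg h

private def fa_fam (A B : Type u) : Bool → Type u := fun b => cond b A B

private instance fa_grp (A B : Type u) [Group A] [Group B] : ∀ b, Group (fa_fam A B b)
  | true => inferInstanceAs (Group A)
  | false => inferInstanceAs (Group B)

private def fa_hom {A B G : Type u} [Group A] [Group B] [Group G] (fA : A →* G) (fB : B →* G) :
    ∀ b, fa_fam A B b →* G
  | true => fA
  | false => fB

/-- The group algebra of a free product of two groups, given by its universal property. -/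
theorem free_prod_dom {K : Type u} [Field K] {G A B : Type u} [Group G] [Group A] [Group B]
    (fA : A →* G) (fB : B →* G) (hgen : fA.range ⊔ fB.range = ⊤)
    (hlift : ∀ (T : Type u) [Group T] (a : A →* T) (b : B →* T),
      ∃ φ : G →* T, (∀ x, φ (fA x) = a x) ∧ ∀ y, φ (fB y) = b y)
    (hA : NoZeroDivisors (MonoidAlgebra K A)) (hB : NoZeroDivisors (MonoidAlgebra K B)) :
    NoZeroDivisors (MonoidAlgebra K G) := by
  classical
  have hnz : ∀ b, NoZeroDivisors (MonoidAlgebra K (fa_fam A B b)) := by
    intro b
    cases b
    · exact hB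
    · exact hA
  obtain ⟨T, iT, κ, Φ, hTz, hTn, hκj, hΦ, htr⟩ := amalgam_step (I := Bool) (K := K)
    (G := G) (N := PUnit.{u+1}) (H := fa_fam A B)
    (fun b => (1 : PUnit.{u+1} →* fa_fam A B b)) (fa_hom fA fB)
    (by
      intro i i' c
      rw [MonoidHom.one_apply, MonoidHom.one_apply, map_one, map_one])
    (by
      intro P h1 h2 g
      have hg : g ∈ fA.range ⊔ fB.range := by
        rw [hgen]
        trivial
      rw [← Subgroup.closure_eq fA.range, ← Subgroup.closure_eq fB.range,
        ← Subgroup.closure_union] at hg
      have h3 : (∀ g', P g' → P (g * g')) ∧ ∀ g', P g' → P (g⁻¹ * g') := by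
        clear h1
        induction hg using Subgroup.closure_induction with
        | mem x hx =>
          rcases hx with ⟨a, rfl⟩ | ⟨b, rfl⟩
          · refine ⟨fun g' hg' => h2 true a g' hg', fun g' hg' => ?_⟩
            rw [← map_inv]
            exact h2 true a⁻¹ g' hg'
          · refine ⟨fun g' hg' => h2 false b g' hg', fun g' hg' => ?_⟩
            rw [← map_inv]
            exact h2 false b⁻¹ g' hg'
        | one =>
          refine ⟨fun g' hg' => ?_, fun g' hg' => ?_⟩
          · rwa [one_mul]
          · rwa [inv_one, one_mul]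
        | mul x y _ _ hx hy =>
          refine ⟨fun g' hg' => ?_, fun g' hg' => ?_⟩
          · rw [mul_assoc]
            exact hx.1 _ (hy.1 _ hg')
          · rw [mul_inv_rev, mul_assoc]
            exact hy.2 _ (hx.2 _ hg')
        | inv x _ hx =>
          refine ⟨hx.2, fun g' hg' => ?_⟩
          rw [inv_inv]
          exact hx.1 _ hg'
      have h4 := h3.1 1 h1
      rwa [mul_one] at h4)
    (by
      intro T' _ h _
      obtain ⟨ψ, h1, h2⟩ := hlift T' (h true) (h false)
      refine ⟨ψ, fun i a => ?_⟩
      cases i
      · exact h2 a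
      · exact h1 a)
    (E := K) (R := fun b => MonoidAlgebra K (fa_fam A B b))
    (fun b => MonoidAlgebra.singleOneRingHom)
    ((MonoidAlgebra.lift K K PUnit.{u+1} (1 : PUnit.{u+1} →* K)).toRingHom)
    (fun b => RingHom.id _)
    (by
      intro i x
      rw [RingHom.id_apply]
      induction x using MonoidAlgebra.induction_linear with
      | zero => simp
      | add a b ha hb => simp only [map_add, ha, hb]
      | single g r =>
        rw [MonoidAlgebra.mapDomainRingHom_apply, MonoidAlgebra.mapDomain_single,
          MonoidHom.one_apply]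
        simp [MonoidAlgebra.lift_single])
    (fun i => fa_ind _)
  have hinj : Function.Injective Φ := by
    rw [injective_iff_map_eq_zero]
    intro x hx
    have h1 := htr true PUnit.{u+1} (1 : PUnit.{u+1} →* fa_fam A B true) K
      MonoidAlgebra.singleOneRingHom (fa_ind _) x.coeff.support (fun g => x.coeff g) (by
        intro g _ g' _ hgg' hr
        obtain ⟨c, hc⟩ := hr
        rw [MonoidHom.comp_apply, MonoidHom.one_apply, map_one] at hc
        exact hgg' (mul_inv_eq_one.mp hc.symm)) (by
        rw [← hx]
        conv_rhs => rw [← MonoidAlgebra.sum_coeff_single x]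
        rw [Finsupp.sum, map_sum]
        refine Finset.sum_congr rfl fun g _ => ?_
        have h3 := hΦ true (MonoidAlgebra.single 1 (x.coeff g))
        rw [MonoidAlgebra.mapDomainRingHom_apply, MonoidAlgebra.mapDomain_single, map_one] at h3
        rw [RingHom.id_apply] at h3
        change κ true (MonoidAlgebra.single 1 (x.coeff g)) * _ = _
        rw [← h3, ← map_mul, MonoidAlgebra.single_mul_single, one_mul, mul_one])
    ext g
    by_contra hg
    exact hg (h1 g (Finsupp.mem_support_iff.mpr hg))
  exact hinj.noZeroDivisors Φ (map_zero _) (map_mul _)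

end Pool.Agent.Lib.MP_7b9603_alLO
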