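import Mathlib

/-!
# Group algebras and homomorphisms with free kernel

If `φ : G → Q` has a free kernel and the group algebra of `Q` over a field has no zero divisors,
then neither has the group algebra of `G`.
-/

set_option autoImplicit false

namespace Pool.Agent.Lib.MP_7b9603_alLO

open MonoidAlgebra

universe u w

section FK

variable {ι G Q : Type u} [Group G] [Group Q] (φ : G →* Q) (e : FreeGroup ι ≃* φ.ker)

/-- The value of a word. -/
private def fkEv (l : List (ι × Bool)) : G := (e (FreeGroup.mk l)).1

private theorem fkEv_nil : fkEv φ e [] = 1 := by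
  show (e (FreeGroup.mk [])).1 = 1
  rw [← FreeGroup.one_eq_mk, map_one]
  rfl

private theorem fkEv_true (i : ι) (l : List (ι × Bool)) :
    fkEv φ e ((i, true) :: l) = fkEv φ e [(i, true)] * fkEv φ e l := by
  show (e (FreeGroup.mk _)).1 = (e (FreeGroup.mk _)).1 * (e (FreeGroup.mk _)).1
  rw [← Subgroup.coe_mul, ← map_mul, FreeGroup.mul_mk]
  rfl

private theorem fkEv_false (i : ι) (l : List (ι × Bool)) :
    fkEv φ e [(i, true)] * fkEv φ e ((i, false) :: l) = fkEv φ e l := by
  show (e (FreeGroup.mk _)).1 * (e (FreeGroup.mk _)).1 = (e (FreeGroup.mk _)).1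
  rw [← Subgroup.coe_mul, ← map_mul, FreeGroup.mul_mk]
  have h : (FreeGroup.mk ([(i, true)] ++ (i, false) :: l)) = FreeGroup.mk l :=
    Quot.sound FreeGroup.Red.Step.cons_not
  rw [h]

private theorem fkEv_ker (l : List (ι × Bool)) : φ (fkEv φ e l) = 1 :=
  (e (FreeGroup.mk l)).2

private theorem fkEv_inj {l l' : List (ι × Bool)} (hl : FreeGroup.IsReduced l)
    (hl' : FreeGroup.IsReduced l') (h : fkEv φ e l = fkEv φ e l') : l = l' := by
  classical
  have h1 : FreeGroup.mk l = FreeGroup.mk l' := e.injective (Subtype.ext h)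
  have h2 := FreeGroup.reduce.sound h1
  rwa [hl.reduce_eq, hl'.reduce_eq] at h2

/-- A section. -/
private noncomputable def fkS (q : Q) : G := Function.invFun φ q

private theorem fkS_spec (g : G) : φ (fkS φ (φ g)) = φ g :=
  Function.invFun_eq (f := φ) ⟨g, rfl⟩

open scoped Classical in
/-- The word of an element. -/
private noncomputable def fkW (g : G) : List (ι × Bool) :=
  (e.symm ⟨g * (fkS φ (φ g))⁻¹, by
    rw [MonoidHom.mem_ker, map_mul, map_inv, fkS_spec, mul_inv_cancel]⟩).toWord

private theorem fkW_red (g : G) : FreeGroup.IsReduced (fkW φ e g) := by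
  classical
  exact FreeGroup.isReduced_toWord

private theorem fkEv_fkW (g : G) : fkEv φ e (fkW φ e g) * fkS φ (φ g) = g := by
  classical
  have h : fkEv φ e (fkW φ e g) = g * (fkS φ (φ g))⁻¹ := by
    show (e (FreeGroup.mk (FreeGroup.toWord _))).1 = _
    rw [FreeGroup.mk_toWord, MulEquiv.apply_symm_apply]
  rw [h, inv_mul_cancel_right]

private theorem fkW_eq {g : G} {l : List (ι × Bool)} (hl : FreeGroup.IsReduced l)
    (h : g = fkEv φ e l * fkS φ (φ g)) : fkW φ e g = l := by
  apply fkEv_inj φ e (fkW_red φ e g) hl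
  have h1 := (fkEv_fkW φ e g).trans h
  exact mul_right_cancel h1

private theorem fkW_ext {g h : G} (h1 : φ g = φ h) (h2 : fkW φ e g = fkW φ e h) : g = h := by
  rw [← fkEv_fkW φ e g, ← fkEv_fkW φ e h, h1, h2]

/-- The word of `β * g`. -/
private theorem fkW_mul_true (i : ι) (g : G)
    (h : FreeGroup.IsReduced ((i, true) :: fkW φ e g)) :
    fkW φ e (fkEv φ e [(i, true)] * g) = (i, true) :: fkW φ e g := by
  apply fkW_eq φ e h
  rw [map_mul, fkEv_ker, one_mul, fkEv_true φ e i (fkW φ e g), mul_assoc, fkEv_fkW]

private theorem fkW_mul_false (i : ι) (g : G) (l : List (ι × Bool))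
    (h : fkW φ e g = (i, false) :: l) :
    fkW φ e (fkEv φ e [(i, true)] * g) = l := by
  apply fkW_eq φ e
  · have h1 := fkW_red φ e g
    rw [h] at h1
    exact List.IsChain.tail h1
  · rw [map_mul, fkEv_ker, one_mul]
    conv_lhs => rw [← fkEv_fkW φ e g, h]
    rw [← mul_assoc, fkEv_false]

variable (K : Type w) [Field K]

open scoped Classical in
/-- The derivative on words. -/
private noncomputable def fkD (j : ι) : List (ι × Bool) → MonoidAlgebra K G
  | [] => 0
  | (i, true) :: l => fkD j l + if i = j then single (fkEv φ e l) 1 else 0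
  | (i, false) :: l => fkD j l - if i = j then single (fkEv φ e ((i, false) :: l)) 1 else 0

/-- The derivative on the group. -/
private noncomputable def fkDg (j : ι) (g : G) : MonoidAlgebra K G :=
  fkD φ e K j (fkW φ e g) * single (fkS φ (φ g)) 1

open scoped Classical in
private theorem fkDg_mul (i j : ι) (g : G) :
    fkDg φ e K j (fkEv φ e [(i, true)] * g) =
      fkDg φ e K j g + if i = j then single g 1 else 0 := by
  have hφ : φ (fkEv φ e [(i, true)] * g) = φ g := by rw [map_mul, fkEv_ker, one_mul]
  have key : ∀ l, (fkD φ e K j l + if i = j then single (fkEv φ e l) (1 : K) else 0) =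
      fkD φ e K j ((i, true) :: l) := fun l => rfl
  by_cases h : ∃ l, fkW φ e g = (i, false) :: l
  · obtain ⟨l, hl⟩ := h
    have h1 := fkW_mul_false φ e i g l hl
    show fkD φ e K j (fkW φ e _) * single (fkS φ (φ _)) 1 =
      fkD φ e K j (fkW φ e g) * single (fkS φ (φ g)) 1 + _
    rw [h1, hφ, hl]
    show _ = (fkD φ e K j l - if i = j then single (fkEv φ e ((i, false) :: l)) (1 : K) else 0) *
      single (fkS φ (φ g)) 1 + _
    by_cases hij : i = j
    · rw [if_pos hij, if_pos hij, sub_mul, single_mul_single, mul_one, ← hl, fkEv_fkW,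
        sub_add_cancel]
    · rw [if_neg hij, if_neg hij, sub_zero, add_zero]
  · have hr : FreeGroup.IsReduced ((i, true) :: fkW φ e g) := by
      have h0 := fkW_red φ e g
      rcases hw : fkW φ e g with _ | ⟨⟨i', b⟩, l⟩
      · exact FreeGroup.IsReduced.singleton
      · rw [hw] at h0
        rw [FreeGroup.isReduced_cons_cons]
        refine ⟨fun h2 => ?_, h0⟩
        rcases b with _ | _
        · exact absurd ⟨l, by rw [hw, show i = i' from h2]⟩ h
        · rfl
    have h1 := fkW_mul_true φ e i g hr
    show fkD φ e K j (fkW φ e _) * single (fkS φ (φ _)) 1 =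
      fkD φ e K j (fkW φ e g) * single (fkS φ (φ g)) 1 + _
    rw [h1, hφ, ← key]
    by_cases hij : i = j
    · rw [if_pos hij, if_pos hij, add_mul, single_mul_single, mul_one, fkEv_fkW]
    · rw [if_neg hij, if_neg hij, add_zero, add_zero]

/-- The derivative on the group algebra. -/
private noncomputable def fkL (j : ι) : MonoidAlgebra K G →ₗ[K] MonoidAlgebra K G :=
  (Finsupp.linearCombination K (fkDg φ e K j)) ∘ₗ (MonoidAlgebra.coeffLinearEquiv K).toLinearMap

private theorem fkL_single (j : ι) (g : G) (a : K) :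
    fkL φ e K j (single g a) = a • fkDg φ e K j g := by
  show Finsupp.linearCombination K (fkDg φ e K j) (Finsupp.single g a) = _
  rw [Finsupp.linearCombination_single]

open scoped Classical in
private theorem fkL_mul (i j : ι) (z : MonoidAlgebra K G) :
    fkL φ e K j (single (fkEv φ e [(i, true)]) 1 * z) =
      fkL φ e K j z + if i = j then z else 0 := by
  induction z using MonoidAlgebra.induction_linear with
  | zero => rw [mul_zero, map_zero, ite_self, add_zero]
  | add x y hx hy =>
    rw [mul_add, map_add, hx, hy, map_add]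
    by_cases hij : i = j
    · rw [if_pos hij, if_pos hij, if_pos hij]
      abel
    · rw [if_neg hij, if_neg hij, if_neg hij]
      abel
  | single g a =>
    rw [single_mul_single, one_mul, fkL_single, fkL_single, fkDg_mul, smul_add]
    by_cases hij : i = j
    · rw [if_pos hij, if_pos hij, smul_single, smul_eq_mul, mul_one]
    · rw [if_neg hij, if_neg hij, smul_zero]

/-- A linear map that is invariant under the kernel vanishes on the kernel of the projection. -/
private theorem fkE (E : MonoidAlgebra K G →ₗ[K] MonoidAlgebra K G)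
    (hE : ∀ i z, E (single (fkEv φ e [(i, true)]) 1 * z) = E z) (x : MonoidAlgebra K G)
    (hx : MonoidAlgebra.mapDomainRingHom K φ x = 0) : E x = 0 := by
  have h1 : ∀ (k : FreeGroup ι) (z : MonoidAlgebra K G), E (single (e k).1 1 * z) = E z := by
    intro k
    induction k using FreeGroup.induction_on with
    | C1 =>
      intro z
      rw [map_one]
      show E (1 * z) = E z
      rw [one_mul]
    | of i =>
      intro z
      exact hE i z
    | inv_of i h =>
      intro z
      rw [← h (single (e (FreeGroup.of i)⁻¹).1 1 * z), ← mul_assoc, single_mul_single, mul_one,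
        ← Subgroup.coe_mul, ← map_mul, mul_inv_cancel, map_one]
      show E (1 * z) = E z
      rw [one_mul]
    | mul k l hk hl =>
      intro z
      rw [← hl z, ← hk (single (e l).1 1 * z), ← mul_assoc, single_mul_single, mul_one,
        ← Subgroup.coe_mul, ← map_mul]
  have h2 : ∀ g : G, E (single g 1) = E (single (fkS φ (φ g)) 1) := by
    intro g
    rw [← h1 (FreeGroup.mk (fkW φ e g)) (single (fkS φ (φ g)) 1), single_mul_single, mul_one]
    show _ = E (single (fkEv φ e (fkW φ e g) * fkS φ (φ g)) 1)
    rw [fkEv_fkW]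
  have h3 : ∀ z : MonoidAlgebra K G,
      E z = Finsupp.linearCombination K (fun q => E (single (fkS φ q) 1))
        (Finsupp.mapDomain φ z.coeff) := by
    intro z
    rw [Finsupp.linearCombination_mapDomain]
    induction z using MonoidAlgebra.induction_linear with
    | zero => rw [map_zero, coeff_zero, map_zero]
    | add x y hx hy => rw [map_add, hx, hy, coeff_add, map_add]
    | single g a =>
      rw [coeff_single, Finsupp.linearCombination_single, Function.comp_apply, ← h2 g, ← map_smul,
        smul_single, smul_eq_mul, mul_one]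
  rw [h3]
  have h4 : Finsupp.mapDomain φ x.coeff = 0 := congrArg MonoidAlgebra.coeff hx
  rw [h4, map_zero]

/-- The derivative and products. -/
private theorem fkL_ann (j : ι) (x y : MonoidAlgebra K G)
    (hx : MonoidAlgebra.mapDomainRingHom K φ x = 0) :
    fkL φ e K j (x * y) = fkL φ e K j x * y := by
  classical
  have h := fkE φ e K ((fkL φ e K j) ∘ₗ (LinearMap.mulRight K y) -
    (LinearMap.mulRight K y) ∘ₗ (fkL φ e K j)) (by
      intro i z
      show fkL φ e K j (_ * y) - fkL φ e K j _ * y = fkL φ e K j (z * y) - fkL φ e K j z * y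
      rw [mul_assoc, fkL_mul, fkL_mul]
      by_cases hij : i = j
      · rw [if_pos hij, if_pos hij, add_mul]
        abel
      · rw [if_neg hij, if_neg hij, add_zero, add_zero]) x hx
  exact sub_eq_zero.1 h

/-- The support of the derivative of a word. -/
private theorem fkD_supp (j : ι) (l : List (ι × Bool)) (h : G)
    (hh : (fkD φ e K j l).coeff h ≠ 0) :
    (∃ l', (j, true) :: l' <:+ l ∧ h = fkEv φ e l') ∨
      ∃ l', (j, false) :: l' <:+ l ∧ h = fkEv φ e ((j, false) :: l') := by
  classical
  induction l with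
  | nil =>
    exact absurd rfl hh
  | cons p l ih =>
    obtain ⟨i, b⟩ := p
    have ih' : (fkD φ e K j l).coeff h ≠ 0 →
        (∃ l', (j, true) :: l' <:+ (i, b) :: l ∧ h = fkEv φ e l') ∨
        ∃ l', (j, false) :: l' <:+ (i, b) :: l ∧ h = fkEv φ e ((j, false) :: l') := by
      intro h0
      rcases ih h0 with ⟨l', h1, h2⟩ | ⟨l', h1, h2⟩
      · exact Or.inl ⟨l', h1.trans (List.suffix_cons _ _), h2⟩
      · exact Or.inr ⟨l', h1.trans (List.suffix_cons _ _), h2⟩
    cases b
    · change (fkD φ e K j l -
        if i = j then single (fkEv φ e ((i, false) :: l)) (1 : K) else 0).coeff h ≠ 0 at hh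
      by_cases hij : i = j
      · subst hij
        rw [if_pos rfl] at hh
        by_cases hg : h = fkEv φ e ((i, false) :: l)
        · exact Or.inr ⟨l, List.suffix_rfl, hg⟩
        · apply ih'
          rw [coeff_sub, coeff_single] at hh
          rwa [Finsupp.sub_apply, Finsupp.single_eq_of_ne hg, sub_zero] at hh
      · rw [if_neg hij, sub_zero] at hh
        exact ih' hh
    · change (fkD φ e K j l + if i = j then single (fkEv φ e l) (1 : K) else 0).coeff h ≠ 0 at hh
      by_cases hij : i = j
      · subst hij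
        rw [if_pos rfl] at hh
        by_cases hg : h = fkEv φ e l
        · exact Or.inl ⟨l, List.suffix_rfl, hg⟩
        · apply ih'
          rw [coeff_add, coeff_single] at hh
          rwa [Finsupp.add_apply, Finsupp.single_eq_of_ne hg, add_zero] at hh
      · rw [if_neg hij, add_zero] at hh
        exact ih' hh

private theorem fkW_ev_smul {g : G} {l : List (ι × Bool)} {h : G}
    (hl : FreeGroup.IsReduced l) (hh : h * (fkS φ (φ g))⁻¹ = fkEv φ e l) :
    φ h = φ g ∧ fkW φ e h = l := by
  have h1 : h = fkEv φ e l * fkS φ (φ g) := by rw [← hh, inv_mul_cancel_right]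
  have h2 : φ h = φ g := by rw [h1, map_mul, fkEv_ker, one_mul, fkS_spec]
  refine ⟨h2, fkW_eq φ e hl ?_⟩
  rw [h2]
  exact h1

/-- The support of the derivative of a group element. -/
private theorem fkDg_supp (j : ι) (g h : G) (hh : (fkDg φ e K j g).coeff h ≠ 0) :
    φ h = φ g ∧ ((j, true) :: fkW φ e h <:+ fkW φ e g ∨
      (fkW φ e h <:+ fkW φ e g ∧ ∃ l', fkW φ e h = (j, false) :: l')) := by
  have h1 : (fkD φ e K j (fkW φ e g)).coeff (h * (fkS φ (φ g))⁻¹) ≠ 0 := by
    intro h0
    apply hh
    show (fkD φ e K j (fkW φ e g) * single (fkS φ (φ g)) 1).coeff h = 0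
    rw [coeff_mul_single_apply, h0, zero_mul]
  have hr := fkW_red φ e g
  rcases fkD_supp φ e K j _ _ h1 with ⟨l', h2, h3⟩ | ⟨l', h2, h3⟩
  · have h4 : FreeGroup.IsReduced l' := List.IsChain.tail (List.IsChain.suffix hr h2)
    obtain ⟨h5, h6⟩ := fkW_ev_smul φ e h4 h3
    exact ⟨h5, Or.inl (by rw [h6]; exact h2)⟩
  · have h4 : FreeGroup.IsReduced ((j, false) :: l') := List.IsChain.suffix hr h2
    obtain ⟨h5, h6⟩ := fkW_ev_smul φ e h4 h3
    exact ⟨h5, Or.inr ⟨by rw [h6]; exact h2, l', h6⟩⟩

/-- The two operators. -/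
private noncomputable def fkT (b : Bool) (j : ι) : MonoidAlgebra K G →ₗ[K] MonoidAlgebra K G :=
  cond b ((LinearMap.mulLeft K (single (fkEv φ e [(j, true)]) 1)) ∘ₗ (fkL φ e K j))
    (fkL φ e K j)

private theorem fkT_true (j : ι) (x : MonoidAlgebra K G) :
    fkT φ e K true j x = single (fkEv φ e [(j, true)]) 1 * fkT φ e K false j x := rfl

private theorem fkT_ann (b : Bool) (j : ι) (x y : MonoidAlgebra K G)
    (hx : MonoidAlgebra.mapDomainRingHom K φ x = 0) (hxy : x * y = 0) :
    fkT φ e K b j x * y = 0 := by
  have h : fkT φ e K false j x * y = 0 := by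
    show fkL φ e K j x * y = 0
    rw [← fkL_ann φ e K j x y hx, hxy, map_zero]
  cases b
  · exact h
  · rw [fkT_true, mul_assoc, h, mul_zero]

private theorem fkT_ne (b : Bool) (j : ι) (x : MonoidAlgebra K G)
    (hx : fkT φ e K b j x ≠ 0) : fkT φ e K (!b) j x ≠ 0 := by
  intro h
  apply hx
  cases b
  · change fkT φ e K true j x = 0 at h
    rw [fkT_true] at h
    have h1 : single (fkEv φ e [(j, true)])⁻¹ (1 : K) *
        (single (fkEv φ e [(j, true)]) 1 * fkT φ e K false j x) = 0 := by rw [h, mul_zero]
    rw [← mul_assoc, single_mul_single, inv_mul_cancel, mul_one] at h1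
    change 1 * fkT φ e K false j x = 0 at h1
    rwa [one_mul] at h1
  · change fkT φ e K false j x = 0 at h
    rw [fkT_true, h, mul_zero]

private theorem fkT_supp (b : Bool) (j : ι) (g h : G)
    (hh : (fkT φ e K b j (single g 1)).coeff h ≠ 0) :
    φ h = φ g ∧ ((j, !b) :: fkW φ e h <:+ fkW φ e g ∨
      (fkW φ e h <:+ fkW φ e g ∧ ∃ l', fkW φ e h = (j, b) :: l')) := by
  have h0 : fkT φ e K false j (single g 1) = fkDg φ e K j g := by
    show fkL φ e K j (single g 1) = _
    rw [fkL_single, one_smul]
  cases b
  · rw [h0] at hh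
    exact fkDg_supp φ e K j g h hh
  · rw [fkT_true, h0, coeff_single_mul_apply, one_mul] at hh
    obtain ⟨h1, h2⟩ := fkDg_supp φ e K j g _ hh
    have h3 : φ h = φ g := by
      rw [← h1, map_mul, map_inv, fkEv_ker, inv_one, one_mul]
    have h4 : fkEv φ e [(j, true)] * ((fkEv φ e [(j, true)])⁻¹ * h) = h := mul_inv_cancel_left _ _
    refine ⟨h3, ?_⟩
    rcases h2 with h2 | ⟨h2, l', h5⟩
    · right
      have h6 := fkW_mul_true φ e j ((fkEv φ e [(j, true)])⁻¹ * h)
        (List.IsChain.suffix (fkW_red φ e g) h2)
      rw [h4] at h6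
      exact ⟨by rw [h6]; exact h2, _, h6⟩
    · left
      have h6 := fkW_mul_false φ e j ((fkEv φ e [(j, true)])⁻¹ * h) l' h5
      rw [h4] at h6
      rw [h6]
      rw [h5] at h2
      exact h2

private theorem fkT_coeff (b : Bool) (j : ι) (g : G) (l : List (ι × Bool))
    (hg : fkW φ e g = (j, b) :: l) : (fkT φ e K b j (single g 1)).coeff g ≠ 0 := by
  classical
  have hr := fkW_red φ e g
  rw [hg] at hr
  have h0 : fkT φ e K false j (single g 1) = fkDg φ e K j g := by
    show fkL φ e K j (single g 1) = _
    rw [fkL_single, one_smul]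
  have hev : g * (fkS φ (φ g))⁻¹ = fkEv φ e ((j, b) :: l) := by
    rw [← hg]
    conv_lhs => rw [← fkEv_fkW φ e g]
    rw [map_mul, fkEv_ker, one_mul, fkS_spec, mul_inv_cancel_right]
  cases b
  · rw [h0]
    show (fkD φ e K j (fkW φ e g) * single (fkS φ (φ g)) 1).coeff g ≠ 0
    rw [coeff_mul_single_apply, mul_one, hg, hev]
    show (fkD φ e K j l -
        if j = j then single (fkEv φ e ((j, false) :: l)) (1 : K) else 0).coeff _ ≠ 0
    rw [if_pos rfl, coeff_sub, coeff_single, Finsupp.sub_apply, Finsupp.single_eq_same]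
    have h1 : (fkD φ e K j l).coeff (fkEv φ e ((j, false) :: l)) = 0 := by
      by_contra h2
      rcases fkD_supp φ e K j _ _ h2 with ⟨l', h3, h4⟩ | ⟨l', h3, h4⟩
      · have h5 : (j, false) :: l = l' := fkEv_inj φ e hr
          (List.IsChain.tail (List.IsChain.suffix (List.IsChain.tail hr) h3)) h4
        have h6 := h3.length_le
        rw [← h5] at h6
        simp only [List.length_cons] at h6
        omega
      · have h5 := fkEv_inj φ e hr (List.IsChain.suffix (List.IsChain.tail hr) h3) h4
        have h6 := h3.length_le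
        rw [← h5] at h6
        simp only [List.length_cons] at h6
        omega
    rw [h1, zero_sub]
    exact neg_ne_zero.2 one_ne_zero
  · rw [fkT_true, h0, coeff_single_mul_apply, one_mul]
    show (fkD φ e K j (fkW φ e g) * single (fkS φ (φ g)) 1).coeff _ ≠ 0
    rw [coeff_mul_single_apply, mul_one, mul_assoc, hg, hev, fkEv_true φ e j l,
      inv_mul_cancel_left]
    show (fkD φ e K j l + if j = j then single (fkEv φ e l) (1 : K) else 0).coeff _ ≠ 0
    rw [if_pos rfl, coeff_add, coeff_single, Finsupp.add_apply, Finsupp.single_eq_same]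
    have h1 : (fkD φ e K j l).coeff (fkEv φ e l) = 0 := by
      by_contra h2
      rcases fkD_supp φ e K j _ _ h2 with ⟨l', h3, h4⟩ | ⟨l', h3, h4⟩
      · have h5 : l = l' := fkEv_inj φ e (List.IsChain.tail hr)
          (List.IsChain.tail (List.IsChain.suffix (List.IsChain.tail hr) h3)) h4
        have h6 := h3.length_le
        rw [← h5] at h6
        simp only [List.length_cons] at h6
        omega
      · have h5 := fkEv_inj φ e (List.IsChain.tail hr)
          (List.IsChain.suffix (List.IsChain.tail hr) h3) h4
        change l = (j, false) :: l' at h5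
        rw [h5, FreeGroup.isReduced_cons_cons] at hr
        exact absurd (hr.1 rfl) (by simp)
    rw [h1, zero_add]
    exact one_ne_zero

/-- Coefficients of a linear map. -/
private theorem fk_coeff (L : MonoidAlgebra K G →ₗ[K] MonoidAlgebra K G) (x : MonoidAlgebra K G)
    (h : G) : (L x).coeff h = x.coeff.sum fun g a => a * (L (single g 1)).coeff h := by
  induction x using MonoidAlgebra.induction_linear with
  | zero => rw [map_zero, coeff_zero, Finsupp.sum_zero_index]; rfl
  | add x y hx hy =>
    rw [map_add, coeff_add, Finsupp.add_apply, hx, hy, coeff_add, Finsupp.sum_add_index']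
    · intro g
      rw [zero_mul]
    · intro g a b
      rw [add_mul]
  | single g a =>
    rw [coeff_single, Finsupp.sum_single_index (by rw [zero_mul])]
    have h1 : single g a = a • single g (1 : K) := by rw [smul_single, smul_eq_mul, mul_one]
    rw [h1, map_smul, coeff_smul_apply, smul_eq_mul]

/-- The reduction: elements supported on a finite set of words closed under tails. -/
private theorem fk_red (S : Finset (List (ι × Bool))) (hS : ∀ l ∈ S, ∀ l', l' <:+ l → l' ∈ S)
    (x : MonoidAlgebra K G) (hx : x ≠ 0) (hxS : ∀ g, x.coeff g ≠ 0 → fkW φ e g ∈ S) :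
    ∃ x' : MonoidAlgebra K G, MonoidAlgebra.mapDomainRingHom K φ x' ≠ 0 ∧
      ∀ z, x * z = 0 → x' * z = 0 := by
  classical
  induction hn : S.card generalizing S x with
  | zero =>
    exfalso
    apply hx
    rw [Finset.card_eq_zero] at hn
    subst hn
    apply coeff_injective
    ext g
    by_contra h
    exact absurd (hxS g h) (Finset.notMem_empty _)
  | succ n ih =>
    by_cases hπ : MonoidAlgebra.mapDomainRingHom K φ x = 0
    swap
    · exact ⟨x, hπ, fun z hz => hz⟩
    have hne : S.Nonempty := by
      rw [← Finset.card_pos, hn]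
      exact Nat.succ_pos n
    obtain ⟨l, hl, hmax⟩ := Finset.exists_max_image S List.length hne
    have hcard : (S.erase l).card = n := by
      rw [Finset.card_erase_of_mem hl, hn, Nat.add_sub_cancel]
    have hclosed : ∀ m ∈ S.erase l, ∀ l', l' <:+ m → l' ∈ S.erase l := by
      intro m hm l' hl'
      rw [Finset.mem_erase] at hm ⊢
      refine ⟨?_, hS m hm.2 l' hl'⟩
      rintro rfl
      exact hm.1 (hl'.eq_of_length_le (hmax m hm.2)).symm
    by_cases hx0 : ∀ g, x.coeff g ≠ 0 → fkW φ e g ∈ S.erase l
    · exact ih (S.erase l) hclosed x hx hx0 hcard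
    push Not at hx0
    obtain ⟨g0, hg0, hg0l⟩ := hx0
    have hw0 : fkW φ e g0 = l := by
      by_contra h
      exact hg0l (Finset.mem_erase.2 ⟨h, hxS g0 hg0⟩)
    rcases l with _ | ⟨⟨j, b⟩, l⟩
    · exfalso
      apply hx
      have h1 : ∀ g ∈ x.coeff.support, (fkS φ ∘ φ) g = id g := by
        intro g hg
        have h2 := hmax _ (hxS g (Finsupp.mem_support_iff.1 hg))
        have h3 : fkW φ e g = [] := List.eq_nil_of_length_eq_zero (Nat.le_zero.1 h2)
        have h4 := fkEv_fkW φ e g
        rw [h3, fkEv_nil, one_mul] at h4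
        exact h4
      have h2 := Finsupp.mapDomain_congr h1
      have h4 : Finsupp.mapDomain φ x.coeff = 0 := congrArg MonoidAlgebra.coeff hπ
      rw [Finsupp.mapDomain_comp, h4, Finsupp.mapDomain_zero, Finsupp.mapDomain_id] at h2
      exact coeff_injective h2.symm
    · have hT : fkT φ e K b j x ≠ 0 := by
        intro h
        have h1 := fk_coeff K (fkT φ e K b j) x g0
        rw [h, coeff_zero, Finsupp.coe_zero, Pi.zero_apply, Finsupp.sum,
          Finset.sum_eq_single g0] at h1
        · rcases mul_eq_zero.1 h1.symm with h2 | h2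
          · exact hg0 h2
          · exact fkT_coeff φ e K b j g0 l hw0 h2
        · intro g hg hgg
          have hgS := hxS g (Finsupp.mem_support_iff.1 hg)
          by_contra h2
          obtain ⟨h3, h4⟩ := fkT_supp φ e K b j g g0 (right_ne_zero_of_mul h2)
          have h5 := hmax _ hgS
          rcases h4 with h4 | ⟨h4, -⟩
          · have h6 := h4.length_le
            rw [hw0] at h6
            simp only [List.length_cons] at h6 h5
            omega
          · rw [hw0] at h4
            have h6 := h4.eq_of_length_le h5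
            exact hgg (fkW_ext φ e h3.symm (by rw [hw0, h6]))
        · intro hg
          rw [Finsupp.notMem_support_iff.1 hg, zero_mul]
      have hT' := fkT_ne φ e K b j x hT
      obtain ⟨x', hx', hx''⟩ := ih (S.erase ((j, b) :: l)) hclosed (fkT φ e K (!b) j x) hT' (by
        intro h hh
        rw [fk_coeff K (fkT φ e K (!b) j) x h] at hh
        obtain ⟨g, hg, hgh⟩ := Finset.exists_ne_zero_of_sum_ne_zero hh
        have hgS := hxS g (Finsupp.mem_support_iff.1 hg)
        obtain ⟨-, h4⟩ := fkT_supp φ e K (!b) j g h (right_ne_zero_of_mul hgh)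
        have h5 := hmax _ hgS
        rcases h4 with h4 | ⟨h4, l', h6⟩
        · have h6 := h4.length_le
          refine Finset.mem_erase.2 ⟨?_, hS _ hgS _ ((List.suffix_cons _ _).trans h4)⟩
          intro h7
          rw [h7] at h6
          simp only [List.length_cons] at h6 h5
          omega
        · refine Finset.mem_erase.2 ⟨?_, hS _ hgS _ h4⟩
          intro h7
          rw [h6] at h7
          have h8 := congrArg (fun p => p.2) (List.cons.inj h7).1
          cases b
          · exact absurd h8 (by simp)
          · exact absurd h8 (by simp)) hcard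
      exact ⟨x', hx', fun z hz => hx'' z (fkT_ann φ e K (!b) j x z hπ hz)⟩

include e in
/-- Every nonzero element can be replaced by one with nonzero image. -/
private theorem fk_reduce (x : MonoidAlgebra K G) (hx : x ≠ 0) :
    ∃ x' : MonoidAlgebra K G, MonoidAlgebra.mapDomainRingHom K φ x' ≠ 0 ∧
      ∀ z, x * z = 0 → x' * z = 0 := by
  classical
  refine fk_red φ e K (x.coeff.support.biUnion fun g => (fkW φ e g).tails.toFinset) ?_ x hx ?_
  · intro l hl l' hl'
    rw [Finset.mem_biUnion] at hl ⊢
    obtain ⟨g, hg, hgl⟩ := hl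
    rw [List.mem_toFinset, List.mem_tails] at hgl
    exact ⟨g, hg, by rw [List.mem_toFinset, List.mem_tails]; exact hl'.trans hgl⟩
  · intro g hg
    rw [Finset.mem_biUnion]
    exact ⟨g, Finsupp.mem_support_iff.2 hg, by
      rw [List.mem_toFinset, List.mem_tails]⟩

end FK

section Inv

variable {G : Type u} [Group G] (K : Type w) [Field K]

private theorem fkInv_mul (x y : MonoidAlgebra K G) :
    MonoidAlgebra.mapDomain (fun g : G => g⁻¹) (x * y) =
      MonoidAlgebra.mapDomain (fun g : G => g⁻¹) y *
        MonoidAlgebra.mapDomain (fun g : G => g⁻¹) x := by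
  induction x using MonoidAlgebra.induction_linear with
  | zero => rw [zero_mul, MonoidAlgebra.mapDomain_zero, mul_zero]
  | add x x' hx hx' => rw [add_mul, MonoidAlgebra.mapDomain_add, hx, hx',
      MonoidAlgebra.mapDomain_add, mul_add]
  | single g a =>
    induction y using MonoidAlgebra.induction_linear with
    | zero => rw [mul_zero, MonoidAlgebra.mapDomain_zero, zero_mul]
    | add y y' hy hy' => rw [mul_add, MonoidAlgebra.mapDomain_add, hy, hy',
        MonoidAlgebra.mapDomain_add, add_mul]
    | single h b =>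
      rw [single_mul_single, MonoidAlgebra.mapDomain_single, MonoidAlgebra.mapDomain_single,
        MonoidAlgebra.mapDomain_single, single_mul_single, mul_inv_rev, mul_comm a b]

private theorem fkInv_ne (x : MonoidAlgebra K G) (hx : x ≠ 0) :
    MonoidAlgebra.mapDomain (fun g : G => g⁻¹) x ≠ 0 := by
  intro h
  apply hx
  apply MonoidAlgebra.mapDomain_injective (R := K) (f := fun g : G => g⁻¹) inv_injective
  rw [h, MonoidAlgebra.mapDomain_zero]

end Inv

/-- If a homomorphism to a group whose group algebra over a field has no zero divisors has a free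
kernel, then the group algebra of the source has no zero divisors. -/
theorem free_ker_dom {G Q : Type u} [Group G] [Group Q] (φ : G →* Q) (hF : IsFreeGroup φ.ker)
    (K : Type w) [Field K] (hQ : NoZeroDivisors (MonoidAlgebra K Q)) :
    NoZeroDivisors (MonoidAlgebra K G) := by
  obtain ⟨ι, ⟨bas⟩⟩ := hF.nonempty_basis
  have e : FreeGroup ι ≃* φ.ker := bas.repr.symm
  refine ⟨fun {x y} hxy => ?_⟩
  by_contra hcon
  push Not at hcon
  obtain ⟨hx, hy⟩ := hcon
  obtain ⟨x', hx', hx''⟩ := fk_reduce φ e K x hx
  have h1 := hx'' y hxy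
  have h2 : MonoidAlgebra.mapDomain (fun g : G => g⁻¹) y *
      MonoidAlgebra.mapDomain (fun g : G => g⁻¹) x' = 0 := by
    rw [← fkInv_mul, h1, MonoidAlgebra.mapDomain_zero]
  obtain ⟨y', hy', hy''⟩ := fk_reduce φ e K _ (fkInv_ne K y hy)
  have h3 := hy'' _ h2
  have h4 := congrArg (MonoidAlgebra.mapDomainRingHom K φ) h3
  rw [map_mul, map_zero] at h4
  rcases mul_eq_zero.1 h4 with h5 | h5
  · exact hy' h5
  · have h6 : MonoidAlgebra.mapDomainRingHom K φ
        (MonoidAlgebra.mapDomain (fun g : G => g⁻¹) x') =
        MonoidAlgebra.mapDomain (fun q : Q => q⁻¹) (MonoidAlgebra.mapDomainRingHom K φ x') := by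
      apply coeff_injective
      show Finsupp.mapDomain φ (Finsupp.mapDomain (fun g : G => g⁻¹) x'.coeff) =
        Finsupp.mapDomain (fun q : Q => q⁻¹) (Finsupp.mapDomain φ x'.coeff)
      rw [← Finsupp.mapDomain_comp, ← Finsupp.mapDomain_comp]
      refine Finsupp.mapDomain_congr fun g _ => ?_
      show φ g⁻¹ = (φ g)⁻¹
      rw [map_inv]
    rw [h6] at h5
    exact fkInv_ne K _ hx' h5

end Pool.Agent.Lib.MP_7b9603_alLO
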