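import Pool.Agent.Lib.MP_7b9603_alLO.Defs

/-!
# Direct limits of chains of linear orders
-/

set_option autoImplicit false

namespace Pool.Agent.Lib.MP_7b9603_alLO

open SPH Pool.Agent.Lib.MP_7b9603_alCF

universe u v

/-- The disjoint union, without its order. -/
private structure l1_S (U : ℕ → Type u) : Type u where
  n : ℕ
  x : U n

section

variable (U : ℕ → Type u) [∀ n, LinearOrder (U n)] (g : ∀ n, U n ↪o U (n + 1))

/-- The transition maps. -/
private def l1_F {n m : ℕ} (h : n ≤ m) : U n → U m :=
  Nat.leRecOn h (fun {k} x => g k x)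

private theorem l1_F_self {n : ℕ} (h : n ≤ n) (x : U n) : l1_F U g h x = x :=
  Nat.leRecOn_self _

private theorem l1_F_succ {n m : ℕ} (h : n ≤ m) (h' : n ≤ m + 1) (x : U n) :
    l1_F U g h' x = g m (l1_F U g h x) :=
  Nat.leRecOn_succ h x

private theorem l1_F_mono {n m : ℕ} (h : n ≤ m) : StrictMono (l1_F U g h) := by
  induction m, h using Nat.le_induction with
  | base => intro x y hxy; rwa [l1_F_self, l1_F_self]
  | succ m h ih =>
    intro x y hxy
    rw [l1_F_succ U g h, l1_F_succ U g h]
    exact (g m).strictMono (ih hxy)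

private theorem l1_F_trans {n m k : ℕ} (h : n ≤ m) (h' : m ≤ k) (h'' : n ≤ k) (x : U n) :
    l1_F U g h'' x = l1_F U g h' (l1_F U g h x) := by
  induction k, h' using Nat.le_induction with
  | base => rw [l1_F_self]
  | succ k h' ih =>
    rw [l1_F_succ U g (h.trans h'), l1_F_succ U g h', ih]

private def l1_le (a b : l1_S U) : Prop :=
  l1_F U g (le_max_left a.n b.n) a.x ≤ l1_F U g (le_max_right a.n b.n) b.x

private theorem l1_le_iff (a b : l1_S U) {N : ℕ} (ha : a.n ≤ N) (hb : b.n ≤ N) :
    l1_le U g a b ↔ l1_F U g ha a.x ≤ l1_F U g hb b.x := by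
  rw [l1_F_trans U g (le_max_left a.n b.n) (max_le ha hb) ha,
    l1_F_trans U g (le_max_right a.n b.n) (max_le ha hb) hb,
    (l1_F_mono U g (max_le ha hb)).le_iff_le]
  rfl

@[reducible] private def l1_pre : Preorder (l1_S U) where
  le := l1_le U g
  le_refl a := (l1_le_iff U g a a le_rfl le_rfl).2 le_rfl
  le_trans a b c hab hbc := by
    have ha : a.n ≤ max a.n (max b.n c.n) := le_max_left _ _
    have hb : b.n ≤ max a.n (max b.n c.n) := (le_max_left _ _).trans (le_max_right _ _)
    have hc : c.n ≤ max a.n (max b.n c.n) := (le_max_right _ _).trans (le_max_right _ _)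
    exact (l1_le_iff U g a c ha hc).2
      (((l1_le_iff U g a b ha hb).1 hab).trans ((l1_le_iff U g b c hb hc).1 hbc))

end

theorem lim_exists (U : ℕ → Type u) [∀ n, LinearOrder (U n)] (g : ∀ n, U n ↪o U (n + 1)) :
    ∃ (L : Type u) (_ : LinearOrder L) (l : ∀ n, U n ↪o L), (∀ n x, l (n + 1) (g n x) = l n x) ∧
      ∀ y : L, ∃ n x, l n x = y := by
  classical
  let : Preorder (l1_S U) := l1_pre U g
  have hle : ∀ (a b : l1_S U) {N : ℕ} (ha : a.n ≤ N) (hb : b.n ≤ N),
      a ≤ b ↔ l1_F U g ha a.x ≤ l1_F U g hb b.x := fun a b N ha hb => l1_le_iff U g a b ha hb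
  let : LinearOrder (Antisymmetrization (l1_S U) (· ≤ ·)) :=
    { (inferInstance : PartialOrder (Antisymmetrization (l1_S U) (· ≤ ·))) with
      le_total := by
        intro x y
        induction x using Antisymmetrization.ind with
        | _ a =>
          induction y using Antisymmetrization.ind with
          | _ b =>
            rw [toAntisymmetrization_le_toAntisymmetrization_iff,
              toAntisymmetrization_le_toAntisymmetrization_iff,
              hle a b (le_max_left a.n b.n) (le_max_right a.n b.n),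
              hle b a (le_max_right a.n b.n) (le_max_left a.n b.n)]
            exact le_total _ _
      toDecidableLE := Classical.decRel _ }
  refine ⟨Antisymmetrization (l1_S U) (· ≤ ·), inferInstance,
    fun n => OrderEmbedding.ofMapLEIff (fun x => toAntisymmetrization (· ≤ ·) (l1_S.mk n x)) ?_,
    ?_, ?_⟩
  · intro x y
    rw [toAntisymmetrization_le_toAntisymmetrization_iff,
      hle (l1_S.mk n x) (l1_S.mk n y) (N := n) le_rfl le_rfl, l1_F_self, l1_F_self]
  · intro n x
    refine Quotient.sound ⟨?_, ?_⟩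
    · refine (hle (l1_S.mk (n + 1) (g n x)) (l1_S.mk n x) (N := n + 1) le_rfl
        (Nat.le_succ n)).2 ?_
      rw [l1_F_self, l1_F_succ U g le_rfl, l1_F_self]
    · refine (hle (l1_S.mk n x) (l1_S.mk (n + 1) (g n x)) (N := n + 1) (Nat.le_succ n)
        le_rfl).2 ?_
      rw [l1_F_self, l1_F_succ U g le_rfl, l1_F_self]
  · intro y
    induction y using Antisymmetrization.ind with
    | _ a => exact ⟨a.n, a.x, rfl⟩

end Pool.Agent.Lib.MP_7b9603_alLO
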