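import Pool.Agent.Lib.MP_7b9603_alLO.Defs

/-!
# Direct limits of ordered sets: actions and maps
-/

set_option autoImplicit false

namespace Pool.Agent.Lib.MP_7b9603_alLO

open SPH Pool.Agent.Lib.MP_7b9603_alCF

universe u v

private theorem l2_up (U : ℕ → Type u) [∀ n, LinearOrder (U n)] (g : ∀ n, U n ↪o U (n + 1))
    (L : Type u) [LinearOrder L] (l : ∀ n, U n ↪o L) (hl : ∀ n x, l (n + 1) (g n x) = l n x)
    {n m : ℕ} (h : n ≤ m) (x : U n) {Ξ : Type u} (p : ∀ n, U n → Ξ)
    (hp : ∀ n x, p (n + 1) (g n x) = p n x) :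
    ∃ x' : U m, l m x' = l n x ∧ p m x' = p n x := by
  induction m, h using Nat.le_induction with
  | base => exact ⟨x, rfl, rfl⟩
  | succ m _ ih =>
    obtain ⟨x', h1, h2⟩ := ih
    exact ⟨g m x', by rw [hl, h1], by rw [hp, h2]⟩

theorem lim_map (U : ℕ → Type u) [∀ n, LinearOrder (U n)] (g : ∀ n, U n ↪o U (n + 1))
    (L : Type u) [LinearOrder L] (l : ∀ n, U n ↪o L) (hl : ∀ n x, l (n + 1) (g n x) = l n x)
    (hs : ∀ y : L, ∃ n x, l n x = y) {Ξ : Type u} (p : ∀ n, U n → Ξ)
    (hp : ∀ n x, p (n + 1) (g n x) = p n x) :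
    ∃ q : L → Ξ, ∀ n x, q (l n x) = p n x := by
  have key : ∀ (n m : ℕ) (x : U n) (x' : U m), l n x = l m x' → p n x = p m x' := by
    intro n m x x' h
    obtain ⟨y, h1, h2⟩ := l2_up U g L l hl (le_max_left n m) x p hp
    obtain ⟨y', h1', h2'⟩ := l2_up U g L l hl (le_max_right n m) x' p hp
    have h3 : y = y' := (l (max n m)).injective (by rw [h1, h1', h])
    rw [← h2, ← h2', h3]
  choose N X hX using hs
  exact ⟨fun y => p (N y) (X y), fun n x => key _ _ _ _ (hX (l n x))⟩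

theorem lim_act (U : ℕ → Type u) [∀ n, LinearOrder (U n)] (g : ∀ n, U n ↪o U (n + 1))
    (L : Type u) [LinearOrder L] (l : ∀ n, U n ↪o L) (hl : ∀ n x, l (n + 1) (g n x) = l n x)
    (hs : ∀ y : L, ∃ n x, l n x = y) {K : Type u} [Group K] (ρ : ∀ n, K →* (U n ≃o U n))
    (hρ : ∀ n k x, g n (ρ n k x) = ρ (n + 1) k (g n x)) :
    ∃ σ : K →* (L ≃o L), ∀ n k x, σ k (l n x) = l n (ρ n k x) := by
  have hF : ∀ k : K, ∃ q : L → L, ∀ n x, q (l n x) = l n (ρ n k x) := fun k =>
    lim_map U g L l hl hs (fun n x => l n (ρ n k x)) fun n x => by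
      rw [← hρ, hl]
  choose F hF using hF
  have hmul : ∀ (n : ℕ) (a b : K) (x : U n), ρ n a (ρ n b x) = ρ n (a * b) x := by
    intro n a b x
    rw [map_mul]
    rfl
  have hone : ∀ (n : ℕ) (x : U n), ρ n 1 x = x := by
    intro n x
    rw [map_one]
    rfl
  have hFF : ∀ (a b : K) (y : L), F a (F b y) = F (a * b) y := by
    intro a b y
    obtain ⟨n, x, rfl⟩ := hs y
    rw [hF, hF, hF, hmul]
  have hF1 : ∀ y : L, F 1 y = y := by
    intro y
    obtain ⟨n, x, rfl⟩ := hs y
    rw [hF, hone]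
  have hle : ∀ (k : K) (y y' : L), F k y ≤ F k y' ↔ y ≤ y' := by
    intro k y y'
    obtain ⟨n, x, rfl⟩ := hs y
    obtain ⟨m, x', rfl⟩ := hs y'
    obtain ⟨z, h1, -⟩ := l2_up U g L l hl (le_max_left n m) x
      (fun n x => l n x) hl
    obtain ⟨z', h1', -⟩ := l2_up U g L l hl (le_max_right n m) x'
      (fun n x => l n x) hl
    rw [← h1, ← h1', hF, hF, (l (max n m)).le_iff_le, (l (max n m)).le_iff_le,
      (ρ (max n m) k).le_iff_le]
  refine ⟨{ toFun := fun k =>
              { toFun := F k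
                invFun := F k⁻¹
                left_inv := fun y => by rw [hFF, inv_mul_cancel, hF1]
                right_inv := fun y => by rw [hFF, mul_inv_cancel, hF1]
                map_rel_iff' := fun {a b} => hle k a b }
            map_one' := ?_
            map_mul' := ?_ }, ?_⟩
  · ext y
    exact hF1 y
  · intro a b
    ext y
    exact (hFF a b y).symm
  · intro n k x
    exact hF k n x

end Pool.Agent.Lib.MP_7b9603_alLO
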