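import Pool.Agent.Lib.MP_7b9603_alLO.Defs

/-!
# A linear order on the disjoint union of an ordered set and a product, given by cuts
-/

set_option autoImplicit false

namespace Pool.Agent.Lib.MP_7b9603_alLO

open SPH Pool.Agent.Lib.MP_7b9603_alCF

universe u v

/-- The key: an element of `Y` is its principal lower set, a pair is its cut. -/
private def ol_key {Y T X : Type u} [LinearOrder Y] [LinearOrder T] [LinearOrder X]
    (D : T × X → LowerSet Y) : Y ⊕ (T × X) → LowerSet Y ×ₗ (WithBot (T ×ₗ X))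
  | Sum.inl y => toLex (LowerSet.Iic y, ⊥)
  | Sum.inr p => toLex (D p, ((toLex p : T ×ₗ X) : WithBot (T ×ₗ X)))

private theorem ol_inj {Y T X : Type u} [LinearOrder Y] [LinearOrder T] [LinearOrder X]
    (D : T × X → LowerSet Y) : Function.Injective (ol_key D) := by
  rintro (y | p) (y' | q) h
  · have h1 : LowerSet.Iic y = LowerSet.Iic y' := congrArg (fun z => (ofLex z).1) h
    have h2 : y ≤ y' := LowerSet.Iic_le.1 h1.le
    have h3 : y' ≤ y := LowerSet.Iic_le.1 h1.ge
    rw [le_antisymm h2 h3]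
  · exact absurd (congrArg (fun z => (ofLex z).2) h) (WithBot.bot_ne_coe)
  · exact absurd (congrArg (fun z => (ofLex z).2) h) (WithBot.coe_ne_bot)
  · have h1 : ((toLex p : T ×ₗ X) : WithBot (T ×ₗ X)) = (toLex q : T ×ₗ X) :=
      congrArg (fun z => (ofLex z).2) h
    have h2 : (toLex p : T ×ₗ X) = toLex q := WithBot.coe_injective h1
    rw [toLex_inj.1 h2]

theorem one_lin {Y T X : Type u} [LinearOrder Y] [LinearOrder T] [LinearOrder X]
    (D : T × X → LowerSet Y) :
    ∃ o : LinearOrder (Y ⊕ (T × X)),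
      (∀ y y' : Y, o.lt (Sum.inl y) (Sum.inl y') ↔ y < y') ∧
      (∀ (y : Y) (p : T × X), o.lt (Sum.inl y) (Sum.inr p) ↔ y ∈ D p) ∧
      (∀ (y : Y) (p : T × X), o.lt (Sum.inr p) (Sum.inl y) ↔ y ∉ D p) ∧
      ∀ p q : T × X, o.lt (Sum.inr p) (Sum.inr q) ↔
        D p < D q ∨ (D p = D q ∧ (p.1 < q.1 ∨ (p.1 = q.1 ∧ p.2 < q.2))) := by
  classical
  refine ⟨LinearOrder.lift' (ol_key D) (ol_inj D), ?_, ?_, ?_, ?_⟩
  · intro y y'
    change ol_key D (Sum.inl y) < ol_key D (Sum.inl y') ↔ _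
    rw [ol_key, ol_key, Prod.Lex.toLex_lt_toLex]
    constructor
    · rintro (h | ⟨-, h⟩)
      · rw [← not_le]
        intro h1
        exact absurd (LowerSet.Iic_le.2 (show y' ∈ LowerSet.Iic y from h1)) (not_le_of_gt h)
      · exact absurd h (lt_irrefl _)
    · intro h
      left
      rw [← not_le]
      intro h1
      exact absurd (show y' ≤ y from LowerSet.Iic_le.1 h1) (not_le_of_gt h)
  · intro y p
    change ol_key D (Sum.inl y) < ol_key D (Sum.inr p) ↔ _
    rw [ol_key, ol_key, Prod.Lex.toLex_lt_toLex]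
    constructor
    · rintro (h | ⟨h, -⟩)
      · exact LowerSet.Iic_le.1 h.le
      · exact LowerSet.Iic_le.1 (le_of_eq h)
    · intro h
      rcases lt_or_eq_of_le (LowerSet.Iic_le.2 h) with h1 | h1
      · exact Or.inl h1
      · exact Or.inr ⟨h1, WithBot.bot_lt_coe _⟩
  · intro y p
    change ol_key D (Sum.inr p) < ol_key D (Sum.inl y) ↔ _
    rw [ol_key, ol_key, Prod.Lex.toLex_lt_toLex]
    constructor
    · rintro (h | ⟨-, h⟩)
      · intro h1
        exact absurd (LowerSet.Iic_le.2 h1) (not_le_of_gt h)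
      · exact absurd h not_lt_bot
    · intro h
      left
      rw [← not_le]
      intro h1
      exact h (LowerSet.Iic_le.1 h1)
  · intro p q
    change ol_key D (Sum.inr p) < ol_key D (Sum.inr q) ↔ _
    rw [ol_key, ol_key, Prod.Lex.toLex_lt_toLex]
    rw [show ((D p, ((toLex p : T ×ₗ X) : WithBot (T ×ₗ X))).2 <
      (D q, ((toLex q : T ×ₗ X) : WithBot (T ×ₗ X))).2) ↔
        (p.1 < q.1 ∨ (p.1 = q.1 ∧ p.2 < q.2)) from by
      rw [← Prod.Lex.toLex_lt_toLex]
      exact WithBot.coe_lt_coe]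

end Pool.Agent.Lib.MP_7b9603_alLO
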