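import Pool.Agent.Lib.MP_7b9603_alLO.C1
import Pool.Agent.Lib.MP_7b9603_alLO.OneLin

/-!
# Extension of ordered actions along a relatively convex subgroup
-/

set_option autoImplicit false

namespace Pool.Agent.Lib.MP_7b9603_alLO

open SPH Pool.Agent.Lib.MP_7b9603_alCF

universe u v

/-- A homomorphism into the group of order automorphisms from a strictly monotone action. -/
private theorem oe_hom {H : Type u} [Group H] {W : Type u} [LinearOrder W] (act : H → W → W)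
    (h1 : ∀ w, act 1 w = w) (hmul : ∀ a b w, act (a * b) w = act a (act b w))
    (hmono : ∀ a w w', w < w' → act a w < act a w') :
    ∃ ρ : H →* (W ≃o W), ∀ a w, ρ a w = act a w := by
  have hinv : ∀ a w, act a⁻¹ (act a w) = w := fun a w => by rw [← hmul, inv_mul_cancel, h1]
  have hinv' : ∀ a w, act a (act a⁻¹ w) = w := fun a w => by rw [← hmul, mul_inv_cancel, h1]
  have hsm : ∀ a, StrictMono (act a) := fun a w w' h => hmono a w w' h
  refine ⟨{ toFun := fun a =>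
              { toFun := act a, invFun := act a⁻¹, left_inv := hinv a, right_inv := hinv' a,
                map_rel_iff' := fun {x y} => (hsm a).le_iff_le }
            map_one' := ?_
            map_mul' := fun a b => ?_ }, fun a w => rfl⟩
  · ext w
    exact h1 w
  · ext w
    exact hmul a b w

/-- Order embeddings from strictly monotone maps. -/
private theorem oe_emb {X W : Type u} [LinearOrder X] [LinearOrder W] (f : X → W)
    (h : ∀ x x', x < x' → f x < f x') : ∃ e : X ↪o W, ∀ x, e x = f x :=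
  ⟨OrderEmbedding.ofStrictMono f fun x x' hx => h x x' hx, fun _ => rfl⟩

private theorem oe_mul {H : Type u} [Group H] {W : Type u} [LinearOrder W] (ρ : H →* (W ≃o W))
    (a b : H) (w : W) : ρ (a * b) w = ρ a (ρ b w) := by
  rw [map_mul]
  rfl

private theorem oe_one {H : Type u} [Group H] {W : Type u} [LinearOrder W] (ρ : H →* (W ≃o W))
    (w : W) : ρ 1 w = w := by
  rw [map_one]
  rfl

theorem one_ext {H C G : Type u} [Group H] [Group C] [Group G] (φ : C →* H)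
    (hφ : Function.Injective φ) (hC : RC φ.range) (j : H →* G) {Ξ : Type u} [MulAction G Ξ]
    {Y X Z : Type u} [LinearOrder Y] [LinearOrder X] [LinearOrder Z]
    (ρY : H →* (Y ≃o Y)) (ρX : C →* (X ≃o X)) (ρZ : C →* (Z ≃o Z)) (ι : Z ↪o Y) (κ : Z ↪o X)
    (hι : ∀ c z, ι (ρZ c z) = ρY (φ c) (ι z)) (hκ : ∀ c z, κ (ρZ c z) = ρX c (κ z))
    (πY : Y → Ξ) (πX : X → Ξ) (hπY : ∀ h y, πY (ρY h y) = j h • πY y)
    (hπX : ∀ c x, πX (ρX c x) = j (φ c) • πX x) (hπ : ∀ z, πY (ι z) = πX (κ z)) :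
    ∃ (W : Type u) (_ : LinearOrder W) (ρ : H →* (W ≃o W)) (α : Y ↪o W) (β : X ↪o W) (π : W → Ξ),
      (∀ h y, α (ρY h y) = ρ h (α y)) ∧ (∀ c x, β (ρX c x) = ρ (φ c) (β x)) ∧
      (∀ z, α (ι z) = β (κ z)) ∧ (∀ h w, π (ρ h w) = j h • π w) ∧ (∀ y, π (α y) = πY y) ∧
      (∀ x, π (β x) = πX x) := by
  classical
  obtain ⟨P, hP⟩ := hC
  obtain ⟨T, oT, ρT, t0, hstab, -, htrans⟩ := action_of_cone φ.range P hP
  -- the section
  obtain ⟨s, hs, hs0⟩ : ∃ s : T → H, (∀ t, ρT (s t) t0 = t) ∧ s t0 = 1 := by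
    choose s hs using htrans
    refine ⟨fun t => if t = t0 then 1 else s t, fun t => ?_, if_pos rfl⟩
    by_cases ht : t = t0
    · simp only [if_pos ht]
      rw [oe_one, ht]
    · simp only [if_neg ht]
      exact hs t
  -- the cocycle
  have hcex : ∀ (h : H) (t : T), ∃ c : C, φ c = (s (ρT h t))⁻¹ * h * s t := by
    intro h t
    have h1 : (s (ρT h t))⁻¹ * h * s t ∈ φ.range := by
      rw [← hstab, oe_mul, oe_mul, hs]
      have h2 : ρT (s (ρT h t))⁻¹ (ρT (s (ρT h t)) t0) = t0 := by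
        rw [← oe_mul, inv_mul_cancel, oe_one]
      rwa [hs] at h2
    exact h1
  choose c hc using hcex
  have hc1 : ∀ t, c 1 t = 1 := by
    intro t
    apply hφ
    rw [hc, oe_one ρT t, map_one, mul_one, inv_mul_cancel]
  have hcmul : ∀ (a b : H) (t : T), c (a * b) t = c a (ρT b t) * c b t := by
    intro a b t
    apply hφ
    rw [map_mul, hc, hc, hc, oe_mul]
    group
  have hc0 : ∀ d : C, c (φ d) t0 = d := by
    intro d
    apply hφ
    have h1 : ρT (φ d) t0 = t0 := (hstab _).2 ⟨d, rfl⟩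
    rw [hc, h1, hs0]
    simp
  -- the rest of `X`
  have hXinv : ∀ (d : C) (x : X), x ∉ Set.range κ → ρX d x ∉ Set.range κ := by
    rintro d x hx ⟨z, hz⟩
    apply hx
    refine ⟨ρZ d⁻¹ z, ?_⟩
    rw [hκ, hz, ← oe_mul, inv_mul_cancel, oe_one]
  let X' : Type u := {x : X // x ∉ Set.range κ}
  let D : T × X' → LowerSet Y := fun p =>
    { carrier := {y | ∃ z, κ z < p.2.1 ∧ ρY (s p.1)⁻¹ y ≤ ι z}
      lower' := by
        rintro y y' hle ⟨z, hz, hy⟩
        exact ⟨z, hz, ((ρY (s p.1)⁻¹).monotone hle).trans hy⟩ }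
  have hD : ∀ (p : T × X') (y : Y), y ∈ D p ↔ ∃ z, κ z < p.2.1 ∧ ρY (s p.1)⁻¹ y ≤ ι z :=
    fun p y => Iff.rfl
  obtain ⟨oW, hll, hlr, hrl, hrr⟩ := one_lin D
  -- the action
  let mv : H → T × X' → T × X' := fun h p => (ρT h p.1, ⟨ρX (c h p.1) p.2.1, hXinv _ _ p.2.2⟩)
  have hDmv : ∀ (h : H) (p : T × X') (y : Y), ρY h y ∈ D (mv h p) ↔ y ∈ D p := by
    intro h p y
    rw [hD, hD]
    have h1 : ρY (s (mv h p).1)⁻¹ (ρY h y) = ρY (φ (c h p.1)) (ρY (s p.1)⁻¹ y) := by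
      rw [← oe_mul, ← oe_mul, hc]
      congr 2
      show (s (ρT h p.1))⁻¹ * h = _
      group
    constructor
    · rintro ⟨z, hz, hy⟩
      refine ⟨ρZ (c h p.1)⁻¹ z, ?_, ?_⟩
      · rw [hκ]
        have h2 : ρX (c h p.1) (ρX (c h p.1)⁻¹ (κ z)) < ρX (c h p.1) p.2.1 := by
          rw [← oe_mul, mul_inv_cancel, oe_one]
          exact hz
        exact (ρX (c h p.1)).lt_iff_lt.1 h2
      · rw [hι]
        rw [h1] at hy
        have h2 : ρY (φ (c h p.1)) (ρY (s p.1)⁻¹ y) ≤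
            ρY (φ (c h p.1)) (ρY (φ (c h p.1)⁻¹) (ι z)) := by
          rw [← oe_mul _ _ _ (ι z), ← map_mul, mul_inv_cancel, map_one, oe_one]
          exact hy
        exact (ρY (φ (c h p.1))).le_iff_le.1 h2
    · rintro ⟨z, hz, hy⟩
      refine ⟨ρZ (c h p.1) z, ?_, ?_⟩
      · rw [hκ]
        exact (ρX (c h p.1)).lt_iff_lt.2 hz
      · rw [hι, h1]
        exact (ρY (φ (c h p.1))).le_iff_le.2 hy
  have hDle : ∀ (h : H) (p q : T × X'), D (mv h p) ≤ D (mv h q) ↔ D p ≤ D q := by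
    intro h p q
    constructor
    · intro hle y hy
      exact (hDmv h q y).1 (hle ((hDmv h p y).2 hy))
    · intro hle y hy
      have h1 : y = ρY h (ρY h⁻¹ y) := by rw [← oe_mul, mul_inv_cancel, oe_one]
      rw [h1] at hy ⊢
      exact (hDmv h q _).2 (hle ((hDmv h p _).1 hy))
  have hDlt : ∀ (h : H) (p q : T × X'), D (mv h p) < D (mv h q) ↔ D p < D q := by
    intro h p q
    rw [lt_iff_le_not_ge, lt_iff_le_not_ge, hDle, hDle]
  have hDeq : ∀ (h : H) (p q : T × X'), D (mv h p) = D (mv h q) ↔ D p = D q := by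
    intro h p q
    rw [le_antisymm_iff, le_antisymm_iff, hDle, hDle]
  let act : H → Y ⊕ (T × X') → Y ⊕ (T × X') := fun h =>
    Sum.elim (fun y => Sum.inl (ρY h y)) (fun p => Sum.inr (mv h p))
  have hmv1 : ∀ p, mv 1 p = p := by
    rintro ⟨t, x, hx⟩
    simp only [mv]
    refine Prod.ext (oe_one _ _) (Subtype.ext ?_)
    show ρX (c 1 t) x = x
    rw [hc1, oe_one]
  have hmvmul : ∀ a b p, mv (a * b) p = mv a (mv b p) := by
    rintro a b ⟨t, x, hx⟩
    simp only [mv]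
    refine Prod.ext (oe_mul _ _ _ _) (Subtype.ext ?_)
    show ρX (c (a * b) t) x = ρX (c a (ρT b t)) (ρX (c b t) x)
    rw [hcmul, oe_mul]
  have hact1 : ∀ w, act 1 w = w := by
    rintro (y | p)
    · exact congrArg Sum.inl (oe_one _ _)
    · exact congrArg Sum.inr (hmv1 p)
  have hactmul : ∀ a b w, act (a * b) w = act a (act b w) := by
    rintro a b (y | p)
    · exact congrArg Sum.inl (oe_mul _ _ _ _)
    · exact congrArg Sum.inr (hmvmul a b p)
  have hmono : ∀ a w w', oW.lt w w' → oW.lt (act a w) (act a w') := by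
    rintro a (y | p) (y' | q) hlt
    · rw [hll] at hlt
      show oW.lt (Sum.inl (ρY a y)) (Sum.inl (ρY a y'))
      rw [hll]
      exact (ρY a).lt_iff_lt.2 hlt
    · rw [hlr] at hlt
      show oW.lt (Sum.inl (ρY a y)) (Sum.inr (mv a q))
      rw [hlr]
      exact (hDmv a q y).2 hlt
    · rw [hrl] at hlt
      show oW.lt (Sum.inr (mv a p)) (Sum.inl (ρY a y'))
      rw [hrl]
      exact fun h0 => hlt ((hDmv a p y').1 h0)
    · rw [hrr] at hlt
      show oW.lt (Sum.inr (mv a p)) (Sum.inr (mv a q))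
      rw [hrr, hDlt, hDeq]
      rcases hlt with hlt | ⟨heq, hlt⟩
      · exact Or.inl hlt
      · refine Or.inr ⟨heq, ?_⟩
        rcases hlt with hlt | ⟨ht, hlt⟩
        · exact Or.inl ((ρT a).lt_iff_lt.2 hlt)
        · refine Or.inr ⟨congrArg (ρT a) ht, ?_⟩
          show ρX (c a p.1) p.2.1 < ρX (c a q.1) q.2.1
          rw [ht]
          exact (ρX (c a q.1)).lt_iff_lt.2 hlt
  obtain ⟨ρ, hρ⟩ := @oe_hom H _ (Y ⊕ (T × X')) oW act hact1 hactmul hmono
  -- the second embedding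
  let βf : X → Y ⊕ (T × X') := fun x =>
    if h : x ∈ Set.range κ then Sum.inl (ι h.choose) else Sum.inr (t0, ⟨x, h⟩)
  have hβ1 : ∀ z, βf (κ z) = Sum.inl (ι z) := by
    intro z
    have h1 : κ z ∈ Set.range κ := ⟨z, rfl⟩
    simp only [βf, dif_pos h1]
    rw [κ.injective h1.choose_spec]
  have hβ2 : ∀ (x : X) (hx : x ∉ Set.range κ), βf x = Sum.inr (t0, ⟨x, hx⟩) := by
    intro x hx
    simp only [βf, dif_neg hx]
  have hD0 : ∀ (x : X) (hx : x ∉ Set.range κ) (y : Y),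
      y ∈ D (t0, ⟨x, hx⟩) ↔ ∃ z, κ z < x ∧ y ≤ ι z := by
    intro x hx y
    rw [hD]
    show (∃ z, κ z < x ∧ ρY (s t0)⁻¹ y ≤ ι z) ↔ _
    rw [hs0, inv_one, oe_one]
  have hβmono : ∀ x x', x < x' → oW.lt (βf x) (βf x') := by
    intro x x' hlt
    by_cases hx : x ∈ Set.range κ
    · obtain ⟨z, rfl⟩ := hx
      rw [hβ1]
      by_cases hx' : x' ∈ Set.range κ
      · obtain ⟨z', rfl⟩ := hx'
        rw [hβ1, hll]
        exact ι.lt_iff_lt.2 (κ.lt_iff_lt.1 hlt)
      · rw [hβ2 x' hx', hlr, hD0]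
        exact ⟨z, hlt, le_rfl⟩
    · rw [hβ2 x hx]
      by_cases hx' : x' ∈ Set.range κ
      · obtain ⟨z', rfl⟩ := hx'
        rw [hβ1, hrl, hD0]
        rintro ⟨z'', h1, h2⟩
        have h3 : κ z' ≤ κ z'' := κ.le_iff_le.2 (ι.le_iff_le.1 h2)
        exact absurd (hlt.trans_le (h3.trans h1.le)) (lt_irrefl _)
      · rw [hβ2 x' hx', hrr]
        have hle : D (t0, ⟨x, hx⟩) ≤ D (t0, ⟨x', hx'⟩) := by
          intro y hy
          obtain ⟨z, h1, h2⟩ := (hD0 x hx y).1 hy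
          exact (hD0 x' hx' y).2 ⟨z, h1.trans hlt, h2⟩
        rcases hle.lt_or_eq with h1 | h1
        · exact Or.inl h1
        · exact Or.inr ⟨h1, Or.inr ⟨rfl, hlt⟩⟩
  obtain ⟨α, hα⟩ := @oe_emb Y (Y ⊕ (T × X')) _ oW (fun y : Y => (Sum.inl y : Y ⊕ (T × X')))
    (fun y y' h => (hll y y').2 h)
  obtain ⟨β, hβ⟩ := @oe_emb X (Y ⊕ (T × X')) _ oW βf hβmono
  refine ⟨Y ⊕ (T × X'), oW, ρ, α, β,
    Sum.elim πY (fun p => j (s p.1) • πX p.2.1), ?_, ?_, ?_, ?_, ?_, ?_⟩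
  · intro h y
    rw [hα, hα, hρ]
    rfl
  · intro d x
    rw [hβ, hβ, hρ]
    by_cases hx : x ∈ Set.range κ
    · obtain ⟨z, rfl⟩ := hx
      rw [← hκ, hβ1, hβ1, hι]
      rfl
    · rw [hβ2 x hx, hβ2 _ (hXinv d x hx)]
      have h1 : ρT (φ d) t0 = t0 := (hstab _).2 ⟨d, rfl⟩
      refine congrArg Sum.inr (Prod.ext h1.symm (Subtype.ext ?_))
      show ρX d x = ρX (c (φ d) t0) x
      rw [hc0]
  · intro z
    rw [hα, hβ, hβ1]
  · rintro h (y | p)
    · rw [hρ]
      exact hπY h y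
    · rw [hρ]
      show j (s (ρT h p.1)) • πX (ρX (c h p.1) p.2.1) = j h • j (s p.1) • πX p.2.1
      rw [hπX, smul_smul, smul_smul, ← map_mul, ← map_mul, hc]
      congr 2
      group
  · intro y
    rw [hα]
    rfl
  · intro x
    rw [hβ]
    by_cases hx : x ∈ Set.range κ
    · obtain ⟨z, rfl⟩ := hx
      rw [hβ1]
      exact hπ z
    · rw [hβ2 x hx]
      show j (s t0) • πX x = πX x
      rw [hs0, map_one, one_smul]

end Pool.Agent.Lib.MP_7b9603_alLO
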