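import Pool.Agent.Lib.MP_7b9603_alLO.One

/-!
# One step of the construction for an amalgam
-/

set_option autoImplicit false

namespace Pool.Agent.Lib.MP_7b9603_alLO

open SPH Pool.Agent.Lib.MP_7b9603_alCF

universe u v

section

variable {A B C G : Type u} [Group A] [Group B] [Group C] [Group G]

theorem st_step (φA : C →* A) (φB : C →* B) (jA : A →* G) (jB : B →* G)
    (hA : Function.Injective φA) (hB : Function.Injective φB)
    (hcomm : ∀ c, jA (φA c) = jB (φB c)) (hCA : RC φA.range) (hCB : RC φB.range)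
    (Ξ : Type u) [MulAction G Ξ] (s : St φA φB jA jB Ξ) :
    ∃ (t : St φA φB jA jB Ξ) (f : s.Y ↪o t.X),
      (∀ a x, f (s.e (s.ρX a x)) = t.ρX a (f (s.e x))) ∧
      (∀ b y, t.e (f (s.ρY b y)) = t.ρY b (t.e (f y))) ∧
      (∀ c y, f (s.ρY (φB c) y) = t.ρX (φA c) (f y)) ∧ (∀ y, t.πX (f y) = s.πY y) := by
  obtain ⟨W, oW, ρ, α, β, π, h1, h2, h3, h4, h5, h6⟩ :=
    one_ext φA hA hCA jA (Ξ := Ξ) (Y := s.X) (X := s.Y) (Z := s.X) s.ρX (s.ρY.comp φB)
      (s.ρX.comp φA) (RelEmbedding.refl _) s.e (fun _ _ => rfl) (fun c z => s.he c z)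
      s.πX s.πY s.hπX
      (fun c x => by rw [hcomm c]; exact s.hπY (φB c) x) (fun z => (s.hπe z).symm)
  obtain ⟨W', oW', ρ', α', β', π', k1, k2, k3, k4, k5, k6⟩ :=
    one_ext φB hB hCB jB (Ξ := Ξ) (Y := s.Y) (X := W) (Z := s.Y) s.ρY (ρ.comp φA)
      (s.ρY.comp φB) (RelEmbedding.refl _) β (fun _ _ => rfl) (fun c z => h2 c z)
      s.πY π s.hπY
      (fun c x => by rw [← hcomm c]; exact h4 (φA c) x) (fun z => (h6 z).symm)
  refine ⟨{ X := W, Y := W', oX := oW, oY := oW', ρX := ρ, ρY := ρ', e := β', πX := π, πY := π',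
            he := k2, hπX := h4, hπY := k4, hπe := k6 }, β, ?_, ?_, h2, h6⟩
  · intro a x
    show β (s.e (s.ρX a x)) = ρ a (β (s.e x))
    rw [← h3, ← h3]
    exact h1 a x
  · intro b y
    show β' (β (s.ρY b y)) = ρ' b (β' (β y))
    rw [← k3, ← k3]
    exact k1 b y

end

end Pool.Agent.Lib.MP_7b9603_alLO
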