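import Pool.Agent.Lib.MP_7b9603_alLO.C1
import Pool.Agent.Lib.MP_7b9603_alLO.C2
import Pool.Agent.Lib.MP_7b9603_alLO.One
import Pool.Agent.Lib.MP_7b9603_alLO.Step
import Pool.Agent.Lib.MP_7b9603_alLO.Lim1
import Pool.Agent.Lib.MP_7b9603_alLO.Lim2

/-!
# Amalgamation of ordered actions
-/

set_option autoImplicit false

namespace Pool.Agent.Lib.MP_7b9603_alLO

open SPH Pool.Agent.Lib.MP_7b9603_alCF

universe u v

/-- A transitive ordered action embeds in an ordered action with the same cone. -/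
private theorem ga_emb {C : Type u} [Group C] {Z Y : Type u} [LinearOrder Z] [LinearOrder Y]
    (ρZ : C →* (Z ≃o Z)) (ρ : C →* (Y ≃o Y)) (z0 : Z) (y0 : Y) (htr : ∀ z, ∃ c, ρZ c z0 = z)
    (hpos : ∀ c, z0 < ρZ c z0 ↔ y0 < ρ c y0) :
    ∃ ι : Z ↪o Y, (∀ c, ι (ρZ c z0) = ρ c y0) ∧ ∀ c z, ι (ρZ c z) = ρ c (ι z) := by
  have hlt : ∀ c d, ρZ c z0 < ρZ d z0 ↔ ρ c y0 < ρ d y0 := by
    intro c d
    rw [action_le, action_le]
    exact hpos _
  have heq : ∀ c d, ρZ c z0 = ρZ d z0 → ρ c y0 = ρ d y0 := by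
    intro c d h
    rcases lt_trichotomy (ρ c y0) (ρ d y0) with h1 | h1 | h1
    · exact absurd ((hlt c d).2 h1) (by rw [h]; exact lt_irrefl _)
    · exact h1
    · exact absurd ((hlt d c).2 h1) (by rw [h]; exact lt_irrefl _)
  choose s hs using htr
  have hmono : StrictMono (fun z => ρ (s z) y0) := by
    intro z z' h
    apply (hlt _ _).1
    rw [hs, hs]
    exact h
  have h1 : ∀ c, OrderEmbedding.ofStrictMono _ hmono (ρZ c z0) = ρ c y0 := by
    intro c
    exact heq _ _ (hs _)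
  refine ⟨OrderEmbedding.ofStrictMono _ hmono, h1, ?_⟩
  intro c z
  have h2 : ρZ c z = ρZ (c * s z) z0 := by
    rw [map_mul]
    change ρZ c z = ρZ c (ρZ (s z) z0)
    rw [hs]
  rw [h2, h1, map_mul]
  rfl

/-- The map to the cosets. -/
private theorem ga_proj {A G : Type u} [Group A] [Group G] {X : Type u} [LinearOrder X]
    (ρ : A →* (X ≃o X)) (x0 : X) (htr : ∀ x, ∃ a, ρ a x0 = x) (A' : Subgroup A)
    (hst : ∀ a, ρ a x0 = x0 ↔ a ∈ A') (j : A →* G) (G' : Subgroup G) (hG : A'.map j ≤ G') :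
    ∃ π : X → G ⧸ G', (∀ a, π (ρ a x0) = (QuotientGroup.mk (j a) : G ⧸ G')) ∧
      ∀ a x, π (ρ a x) = j a • π x := by
  have key : ∀ t a, ρ t x0 = ρ a x0 →
      (QuotientGroup.mk (j t) : G ⧸ G') = QuotientGroup.mk (j a) := by
    intro t a h
    rw [QuotientGroup.eq, ← map_inv, ← map_mul]
    apply hG
    refine ⟨_, ?_, rfl⟩
    change t⁻¹ * a ∈ A'
    rw [← hst, map_mul]
    change ρ t⁻¹ (ρ a x0) = x0
    rw [map_inv, ← h]
    exact (ρ t).symm_apply_apply x0
  choose s hs using htr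
  have h1 : ∀ a, (QuotientGroup.mk (j (s (ρ a x0))) : G ⧸ G') = QuotientGroup.mk (j a) :=
    fun a => key _ a (hs _)
  refine ⟨fun x => QuotientGroup.mk (j (s x)), h1, ?_⟩
  intro a x
  have h2 : ρ a x = ρ (a * s x) x0 := by
    rw [map_mul]
    change ρ a x = ρ a (ρ (s x) x0)
    rw [hs]
  change (QuotientGroup.mk (j (s (ρ a x))) : G ⧸ G') = _
  rw [h2, h1, map_mul]
  rfl

section

variable {A B C G : Type u} [Group A] [Group B] [Group C] [Group G]

/-- The first ordered set. -/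
private theorem ga_start (φA : C →* A) (φB : C →* B) (jA : A →* G) (jB : B →* G)
    (hB : Function.Injective φB)
    (hcomm : ∀ c, jA (φA c) = jB (φB c)) (hCB : RC φB.range) (A' : Subgroup A) (B' : Subgroup B)
    (PA : Set A) (PB : Set B) (hPA : IsCone A' PA) (hPB : IsCone B' PB)
    (hP : ∀ c, φA c ∈ PA ↔ φB c ∈ PB)
    (G' : Subgroup G) (hGA : A'.map jA ≤ G') (hGB : B'.map jB ≤ G') :
    ∃ (s : St φA φB jA jB (G ⧸ G')) (xA : s.X) (yB : s.Y),
      (∀ a, s.ρX a xA = xA ↔ a ∈ A') ∧ (∀ b, s.ρY b yB = yB ↔ b ∈ B') ∧ s.e xA = yB ∧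
        s.πX xA = (QuotientGroup.mk (1 : G) : G ⧸ G') := by
  obtain ⟨X0, _, ρA, xA, hxA1, hxA2, hxA3⟩ := action_of_cone A' PA hPA
  obtain ⟨Y0, _, ρB, yB, hyB1, hyB2, hyB3⟩ := action_of_cone B' PB hPB
  obtain ⟨Z, _, ρZ, z0, hz1, hz2, hz3⟩ := action_of_cone (A'.comap φA) (φA ⁻¹' PA)
    (cone_comap φA A' PA hPA)
  obtain ⟨ι, hι1, hι2⟩ := ga_emb ρZ (ρB.comp φB) z0 yB hz3 (by
    intro c
    rw [hz2]
    change φA c ∈ PA ↔ yB < ρB (φB c) yB
    rw [hyB2]
    exact hP c)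
  obtain ⟨κ, hκ1, hκ2⟩ := ga_emb ρZ (ρA.comp φA) z0 xA hz3 (by
    intro c
    rw [hz2]
    change φA c ∈ PA ↔ xA < ρA (φA c) xA
    rw [hxA2])
  obtain ⟨πX, hπX1, hπX2⟩ := ga_proj ρA xA hxA3 A' hxA1 jA G' hGA
  obtain ⟨πY, hπY1, hπY2⟩ := ga_proj ρB yB hyB3 B' hyB1 jB G' hGB
  obtain ⟨W, _, ρW, α, β, π, h1, h2, h3, h4, h5, h6⟩ := one_ext φB hB hCB jB (Ξ := G ⧸ G') ρB
    (ρA.comp φA) ρZ ι κ hι2 hκ2 πY πX hπY2 (by
      intro c x
      rw [← hcomm]
      exact hπX2 (φA c) x) (by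
      intro z
      obtain ⟨c, rfl⟩ := hz3 z
      rw [hι1, hκ1]
      change πY (ρB (φB c) yB) = πX (ρA (φA c) xA)
      rw [hπX1, hπY1, hcomm])
  refine ⟨{ X := X0, Y := W, oX := inferInstance, oY := inferInstance, ρX := ρA, ρY := ρW,
            e := β, πX := πX, πY := π, he := h2, hπX := hπX2, hπY := h4, hπe := h6 },
    xA, α yB, hxA1, ?_, ?_, ?_⟩
  · intro b
    change ρW b (α yB) = α yB ↔ b ∈ B'
    rw [← h1, α.injective.eq_iff]
    exact hyB1 b
  · change β xA = α yB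
    have e1 : κ z0 = xA := by
      have := hκ1 1
      rw [map_one, map_one] at this
      exact this
    have e2 : ι z0 = yB := by
      have := hι1 1
      rw [map_one, map_one] at this
      exact this
    rw [← e1, ← e2, h3]
  · change πX xA = _
    have := hπX1 1
    rw [map_one, map_one] at this
    exact this

theorem ga (φA : C →* A) (φB : C →* B) (jA : A →* G) (jB : B →* G)
    (hA : Function.Injective φA) (hB : Function.Injective φB)
    (hcomm : ∀ c, jA (φA c) = jB (φB c)) (hgen : jA.range ⊔ jB.range = ⊤)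
    (huniv : ∀ (Q : Type u) [Group Q] (f : A →* Q) (g : B →* Q), (∀ c, f (φA c) = g (φB c)) →
      ∃ h : G →* Q, (∀ a, h (jA a) = f a) ∧ ∀ b, h (jB b) = g b)
    (hCA : RC φA.range) (hCB : RC φB.range) (A' : Subgroup A) (B' : Subgroup B)
    (PA : Set A) (PB : Set B) (hPA : IsCone A' PA) (hPB : IsCone B' PB)
    (hC : ∀ c, φA c ∈ A' ↔ φB c ∈ B') (hP : ∀ c, φA c ∈ PA ↔ φB c ∈ PB) :
    RC (A'.map jA ⊔ B'.map jB) ∧ (∀ a, jA a ∈ A'.map jA ⊔ B'.map jB ↔ a ∈ A') ∧
      ∀ b, jB b ∈ A'.map jA ⊔ B'.map jB ↔ b ∈ B' := by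
  obtain ⟨s0, xA, yB, hxA, hyB, hxy, hπ0⟩ := ga_start φA φB jA jB hB hcomm hCB A' B' PA PB hPA hPB
    hP (A'.map jA ⊔ B'.map jB) le_sup_left le_sup_right
  choose nx f hf1 hf2 hf3 hf4 using fun s : St φA φB jA jB (G ⧸ (A'.map jA ⊔ B'.map jB)) =>
    st_step φA φB jA jB hA hB hcomm hCA hCB (G ⧸ (A'.map jA ⊔ B'.map jB)) s
  let s : ℕ → St φA φB jA jB (G ⧸ (A'.map jA ⊔ B'.map jB)) := fun n =>
    Nat.rec (motive := fun _ => St φA φB jA jB (G ⧸ (A'.map jA ⊔ B'.map jB))) s0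
      (fun _ t => nx t) n
  let g : ∀ n, (s n).X ↪o (s (n + 1)).X := fun n => (s n).e.trans (f (s n))
  obtain ⟨L, _, l, hl, hs⟩ := lim_exists (fun n => (s n).X) g
  let μ : ∀ n, (s n).Y ↪o L := fun n => (f (s n)).trans (l (n + 1))
  let g' : ∀ n, (s n).Y ↪o (s (n + 1)).Y := fun n => (f (s n)).trans (s (n + 1)).e
  have hlμ : ∀ n x, l n x = μ n ((s n).e x) := by
    intro n x
    exact (hl n x).symm
  have hμ : ∀ n y, μ (n + 1) (g' n y) = μ n y := by
    intro n y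
    exact (hlμ (n + 1) (f (s n) y)).symm
  have hμs : ∀ y : L, ∃ n x, μ n x = y := by
    intro y
    obtain ⟨n, x, h⟩ := hs y
    exact ⟨n, (s n).e x, by rw [← hlμ, h]⟩
  obtain ⟨σA, hσA⟩ := lim_act (fun n => (s n).X) g L l hl hs (fun n => (s n).ρX)
    (fun n a x => hf1 (s n) a x)
  obtain ⟨σB, hσB⟩ := lim_act (fun n => (s n).Y) g' L μ hμ hμs (fun n => (s n).ρY)
    (fun n b y => hf2 (s n) b y)
  obtain ⟨ρ, hρA, hρB⟩ := huniv (L ≃o L) σA σB (by
    intro c
    ext y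
    obtain ⟨n, x, rfl⟩ := hs y
    rw [hσA, hlμ, hlμ, (s n).he, hσB])
  obtain ⟨q, hq⟩ := lim_map (fun n => (s n).X) g L l hl hs (fun n => (s n).πX) (by
    intro n x
    exact (hf4 (s n) ((s n).e x)).trans ((s n).hπe x))
  have hqμ : ∀ n y, q (μ n y) = (s n).πY y := by
    intro n y
    exact (hq (n + 1) (f (s n) y)).trans (hf4 (s n) y)
  let K : Subgroup G :=
    { carrier := {x | ∀ y, q (ρ x y) = x • q y}
      mul_mem' := by
        intro a b ha hb y
        rw [map_mul]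
        change q (ρ a (ρ b y)) = _
        rw [ha, hb, mul_smul]
      one_mem' := by
        intro y
        rw [map_one, one_smul]
        rfl
      inv_mem' := by
        intro a ha y
        have h1 := ha (ρ a⁻¹ y)
        have h2 : ρ a (ρ a⁻¹ y) = y := by
          rw [map_inv]
          exact (ρ a).apply_symm_apply y
        rw [h2] at h1
        rw [h1, inv_smul_smul] }
  have hK : ∀ x, x ∈ K := by
    intro x
    have h1 : (⊤ : Subgroup G) ≤ K := by
      rw [← hgen]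
      refine sup_le ?_ ?_
      · rintro _ ⟨a, rfl⟩ y
        obtain ⟨n, x, rfl⟩ := hs y
        rw [hρA, hσA, hq, hq]
        exact (s n).hπX a x
      · rintro _ ⟨b, rfl⟩ y
        obtain ⟨n, x, rfl⟩ := hμs y
        rw [hρB, hσB, hqμ, hqμ]
        exact (s n).hπY b x
    exact h1 (Subgroup.mem_top x)
  have hl0 : l 0 xA = μ 0 yB := by
    rw [hlμ]
    exact congrArg _ hxy
  have hfA : ∀ a, ρ (jA a) (l 0 xA) = l 0 xA ↔ a ∈ A' := by
    intro a
    rw [hρA, hσA, (l 0).injective.eq_iff]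
    exact hxA a
  have hfB : ∀ b, ρ (jB b) (l 0 xA) = l 0 xA ↔ b ∈ B' := by
    intro b
    rw [hl0, hρB, hσB, (μ 0).injective.eq_iff]
    exact hyB b
  have hst : ∀ x, ρ x (l 0 xA) = l 0 xA ↔ x ∈ A'.map jA ⊔ B'.map jB := by
    intro x
    constructor
    · intro h
      have h1 := hK x (l 0 xA)
      rw [h, hq] at h1
      change s0.πX xA = x • s0.πX xA at h1
      rw [hπ0] at h1
      change (QuotientGroup.mk (1 : G) : G ⧸ (A'.map jA ⊔ B'.map jB)) =
        QuotientGroup.mk (x * 1) at h1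
      rw [QuotientGroup.eq, inv_one, one_mul, mul_one] at h1
      exact h1
    · intro h
      let T : Subgroup G :=
        { carrier := {x | ρ x (l 0 xA) = l 0 xA}
          mul_mem' := by
            intro a b ha hb
            change ρ (a * b) (l 0 xA) = l 0 xA
            rw [map_mul]
            change ρ a (ρ b (l 0 xA)) = _
            rw [show ρ b (l 0 xA) = l 0 xA from hb]
            exact ha
          one_mem' := by
            change ρ 1 (l 0 xA) = l 0 xA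
            rw [map_one]
            rfl
          inv_mem' := by
            intro a ha
            change ρ a⁻¹ (l 0 xA) = l 0 xA
            have h2 : ρ a (l 0 xA) = l 0 xA := ha
            rw [map_inv]
            conv_lhs => rw [← h2]
            exact (ρ a).symm_apply_apply _ }
      have h1 : A'.map jA ⊔ B'.map jB ≤ T := by
        refine sup_le ?_ ?_
        · rintro _ ⟨a, ha, rfl⟩
          exact (hfA a).2 ha
        · rintro _ ⟨b, hb, rfl⟩
          exact (hfB b).2 hb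
      exact h1 h
  refine ⟨⟨_, cone_of_action ρ (l 0 xA) _ hst⟩, ?_, ?_⟩
  · intro a
    rw [← hst, hfA]
  · intro b
    rw [← hst, hfB]

end

end Pool.Agent.Lib.MP_7b9603_alLO
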