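import Pool.Agent.Lib.MP_7b9603_alLO.RcDom
import Pool.Agent.Lib.MP_7b9603_alCF.B3
import Pool.Agent.Lib.MP_7b9603_alCF.F2

/-!
# Amalgams over a common generator
-/

set_option autoImplicit false

namespace Pool.Agent.Lib.MP_7b9603_alLO

open SPH Pool.Agent.Lib.MP_7b9603_alCF

universe u v w

/-- the shift action -/
private def gl_act (T : Type v) [Group T] : Multiplicative ℤ →* MulAut (ℤ → T) where
  toFun k :=
    { toFun := fun f n => f (n + k.toAdd)
      invFun := fun f n => f (n - k.toAdd)
      left_inv := fun f => funext fun n => by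
        change f (n - k.toAdd + k.toAdd) = f n
        rw [sub_add_cancel]
      right_inv := fun f => funext fun n => by
        change f (n + k.toAdd - k.toAdd) = f n
        rw [add_sub_cancel_right]
      map_mul' := fun _ _ => rfl }
  map_one' := by
    apply MulEquiv.ext
    intro f
    funext n
    change f (n + 0) = f n
    rw [add_zero]
  map_mul' k l := by
    apply MulEquiv.ext
    intro f
    funext n
    change f (n + (k.toAdd + l.toAdd)) = f (n + k.toAdd + l.toAdd)
    rw [add_assoc]

private theorem gl_mem {A : Type u} [Group A] (δ : A →* Multiplicative ℤ) (a : A)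
    (ha : δ a = Multiplicative.ofAdd 1) (x : A) (n m : ℤ) (hm : m = -(n + (δ x).toAdd)) :
    a ^ n * x * a ^ m ∈ δ.ker := by
  rw [MonoidHom.mem_ker, map_mul, map_mul, map_zpow, map_zpow, ha]
  apply Multiplicative.toAdd.injective
  rw [toAdd_mul, toAdd_mul, toAdd_zpow, toAdd_zpow, toAdd_ofAdd, toAdd_one, hm]
  simp only [smul_eq_mul, mul_one]
  ring

private theorem gl_wr {A : Type u} {T : Type v} [Group A] [Group T] (δ : A →* Multiplicative ℤ)
    (a : A) (ha : δ a = Multiplicative.ofAdd 1) (h : δ.ker →* T) :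
    ∃ F : A →* SemidirectProduct (ℤ → T) (Multiplicative ℤ) (gl_act T),
      (∀ x, (F x).right = δ x) ∧ (∀ x : δ.ker, (F x).left 0 = h x) ∧
        F a = ⟨1, Multiplicative.ofAdd 1⟩ := by
  let m : A → ℤ → δ.ker := fun x n => ⟨a ^ n * x * a ^ (-(n + (δ x).toAdd)),
    gl_mem δ a ha x n _ rfl⟩
  have hm : ∀ x y n, m (x * y) n = m x n * m y (n + (δ x).toAdd) := by
    intro x y n
    apply Subtype.ext
    change a ^ n * (x * y) * a ^ (-(n + (δ (x * y)).toAdd)) =
      a ^ n * x * a ^ (-(n + (δ x).toAdd)) * (a ^ (n + (δ x).toAdd) * y *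
        a ^ (-(n + (δ x).toAdd + (δ y).toAdd)))
    rw [map_mul, toAdd_mul, ← add_assoc]
    group
  have h1 : ∀ n, m 1 n = 1 := by
    intro n
    apply Subtype.ext
    change a ^ n * 1 * a ^ (-(n + (δ 1).toAdd)) = 1
    rw [map_one, toAdd_one, add_zero, mul_one, zpow_neg, mul_inv_cancel]
  refine ⟨{ toFun := fun x => ⟨fun n => h (m x n), δ x⟩
            map_one' := ?_
            map_mul' := ?_ }, fun x => rfl, ?_, ?_⟩
  · apply SemidirectProduct.ext
    · funext n
      change h (m 1 n) = 1
      rw [h1, map_one]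
    · exact map_one δ
  · intro x y
    apply SemidirectProduct.ext
    · funext n
      change h (m (x * y) n) = h (m x n) * h (m y (n + (δ x).toAdd))
      rw [hm, map_mul]
    · exact map_mul δ x y
  · intro x
    change h (m x 0) = h x
    congr 1
    apply Subtype.ext
    change a ^ (0 : ℤ) * (x : A) * a ^ (-(0 + (δ x).toAdd)) = x
    have : δ (x : A) = 1 := x.2
    rw [this, toAdd_one]
    simp
  · apply SemidirectProduct.ext
    · funext n
      change h (m a n) = 1
      have : m a n = 1 := by
        apply Subtype.ext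
        change a ^ n * a * a ^ (-(n + (δ a).toAdd)) = 1
        rw [ha, toAdd_ofAdd]
        group
      rw [this, map_one]
    · exact ha

/-- the restriction of `f` to the kernels -/
private def gl_res {G : Type u} [Group G] {A : Type u} [Group A] (f : A →* G)
    (d : G →* Multiplicative ℤ) : (d.comp f).ker →* d.ker :=
  (f.comp (d.comp f).ker.subtype).codRestrict d.ker fun x => x.2

private theorem gl_gen {I : Type} {G : Type u} [Group G] {A : I → Type u} [∀ i, Group (A i)]
    (f : ∀ i, A i →* G) (a : ∀ i, A i) (c : G) (hc : ∀ i, f i (a i) = c)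
    (d : G →* Multiplicative ℤ) (hd : d c = Multiplicative.ofAdd 1)
    (hgen : ∀ P : G → Prop, P 1 → (∀ i x g, P g → P (f i x * g)) → ∀ g, P g)
    (P : d.ker → Prop) (h1 : P 1)
    (h2 : ∀ i (x : (d.comp (f i)).ker) g, P g → P (gl_res (f i) d x * g)) : ∀ g, P g := by
  have hQ : ∀ g : G, ∀ (m : ℤ) (y : G), (∃ hy : y ∈ d.ker, P ⟨y, hy⟩) →
      ∃ hy : c ^ m * g * c ^ (-(d g).toAdd) * c ^ (-m) * y ∈ d.ker, P ⟨_, hy⟩ := by
    refine hgen _ ?_ ?_
    · intro m y hy
      have e : c ^ m * 1 * c ^ (-(d 1).toAdd) * c ^ (-m) * y = y := by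
        rw [map_one, toAdd_one]
        simp
      rw [e]
      exact hy
    · intro i x g hg m y hy
      obtain ⟨hz, hP⟩ := hg (m + (d (f i x)).toAdd) y hy
      have mem : (a i) ^ m * x * (a i) ^ (-(m + (d (f i x)).toAdd)) ∈ (d.comp (f i)).ker :=
        gl_mem (d.comp (f i)) (a i) (by rw [MonoidHom.comp_apply, hc, hd]) x m _ rfl
      have h4 := h2 i ⟨_, mem⟩ _ hP
      have e : c ^ m * (f i x * g) * c ^ (-(d (f i x * g)).toAdd) * c ^ (-m) * y =
          f i ((a i) ^ m * x * (a i) ^ (-(m + (d (f i x)).toAdd))) *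
            (c ^ (m + (d (f i x)).toAdd) * g * c ^ (-(d g).toAdd) *
              c ^ (-(m + (d (f i x)).toAdd)) * y) := by
        rw [map_mul d, toAdd_mul, map_mul, map_mul, map_zpow, map_zpow, hc]
        group
      rw [e]
      exact ⟨d.ker.mul_mem mem hz, h4⟩
  intro g
  obtain ⟨h3, h4⟩ := hQ g.1 0 1 ⟨one_mem _, h1⟩
  have e : c ^ (0 : ℤ) * g.1 * c ^ (-(d g.1).toAdd) * c ^ (-(0 : ℤ)) * 1 = g.1 := by
    have : d g.1 = 1 := g.2
    rw [this, toAdd_one]
    simp
  have e2 : (⟨_, h3⟩ : d.ker) = g := Subtype.ext e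
  rw [e2] at h4
  exact h4

private theorem gl_lift {I : Type} {G : Type u} [Group G] {A : I → Type u} [∀ i, Group (A i)]
    (f : ∀ i, A i →* G) (a : ∀ i, A i) (c : G) (hc : ∀ i, f i (a i) = c)
    (d : G →* Multiplicative ℤ) (hd : d c = Multiplicative.ofAdd 1)
    (hgen : ∀ P : G → Prop, P 1 → (∀ i x g, P g → P (f i x * g)) → ∀ g, P g)
    (hlift : ∀ (T : Type (max u w)) [Group T] (h : ∀ i, A i →* T),
      (∀ i i', h i (a i) = h i' (a i')) → ∃ φ : G →* T, ∀ i x, φ (f i x) = h i x)
    (T : Type (max u w)) [Group T] (h : ∀ i, (d.comp (f i)).ker →* T) :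
    ∃ φ : d.ker →* T, ∀ i x, φ (gl_res (f i) d x) = h i x := by
  choose F hF1 hF2 hF3 using fun i => gl_wr (d.comp (f i)) (a i)
    (by rw [MonoidHom.comp_apply, hc, hd]) (h i)
  obtain ⟨φ, hφ⟩ := hlift (SemidirectProduct (ℤ → T) (Multiplicative ℤ) (gl_act T)) F
    (fun i i' => (hF3 i).trans (hF3 i').symm)
  have hr : ∀ g, (φ g).right = d g := by
    refine hgen _ ?_ ?_
    · rw [map_one, map_one]
      rfl
    · intro i x g hg
      rw [map_mul, map_mul, SemidirectProduct.mul_right, hg, hφ, hF1]
      rfl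
  refine ⟨{ toFun := fun x => (φ x.1).left 0
            map_one' := ?_
            map_mul' := ?_ }, ?_⟩
  · change (φ 1).left 0 = 1
    rw [map_one]
    rfl
  · intro x y
    change (φ (x.1 * y.1)).left 0 = (φ x.1).left 0 * (φ y.1).left 0
    rw [map_mul, SemidirectProduct.mul_left, hr, x.2, map_one]
    rfl
  · intro i x
    change (φ (f i x.1)).left 0 = h i x
    rw [hφ, hF2]

private theorem gl_ind (K : Type u) [Field K] (G : Type u) [Group G] :
    Ind (1 : PUnit.{u + 1} →* G) (MonoidAlgebra.singleOneRingHom (R := K) (M := G))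
      (RingHom.id (MonoidAlgebra K G)) := by
  classical
  intro s e hs h0 g hg
  have h1 : ∀ g : G, MonoidAlgebra.singleOneRingHom (R := K) (M := G) (e g) *
      (RingHom.id (MonoidAlgebra K G)) (MonoidAlgebra.single g 1) =
        MonoidAlgebra.single g (e g) := by
    intro g
    rw [RingHom.id_apply]
    change MonoidAlgebra.single 1 (e g) * MonoidAlgebra.single g 1 = _
    rw [MonoidAlgebra.single_mul_single, one_mul, mul_one]
  have h2 : ∑ g ∈ s, (MonoidAlgebra.single g (e g) : MonoidAlgebra K G) = 0 := by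
    rw [← h0]
    exact Finset.sum_congr rfl fun g _ => (h1 g).symm
  have h3 := congrArg (fun x => x.coeff g) h2
  simp only [MonoidAlgebra.coeff_sum, MonoidAlgebra.coeff_single, Finsupp.coe_finset_sum,
    Finset.sum_apply, MonoidAlgebra.coeff_zero, Finsupp.coe_zero, Pi.zero_apply] at h3
  rw [Finset.sum_eq_single g] at h3
  · rwa [Finsupp.single_eq_same] at h3
  · intro b _ hb
    rw [Finsupp.single_apply, if_neg hb]
  · intro h
    exact absurd hg h

private theorem gl_inj {K : Type u} [Field K] {G : Type u} [Group G] {T : Type u} [Ring T]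
    [Nontrivial T] (κ : K →+* T) (Φ : MonoidAlgebra K G →+* T)
    (hI : Ind (1 : PUnit.{u + 1} →* G) κ Φ)
    (hκ : ∀ k, κ k = Φ (MonoidAlgebra.single 1 k)) : Function.Injective Φ := by
  classical
  rw [injective_iff_map_eq_zero]
  intro x hx
  have h1 := hI x.coeff.support (fun g => x.coeff g) (by
      intro g _ g' _ hgg' hr
      obtain ⟨c, hc⟩ := hr
      rw [MonoidHom.one_apply] at hc
      exact hgg' (mul_inv_eq_one.mp hc.symm)) (by
      rw [← hx]
      conv_rhs => rw [← MonoidAlgebra.sum_coeff_single x]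
      rw [Finsupp.sum, map_sum]
      refine Finset.sum_congr rfl fun g _ => ?_
      rw [hκ, ← map_mul, MonoidAlgebra.single_mul_single, one_mul, mul_one])
  ext g
  by_contra hg
  exact hg (h1 g (Finsupp.mem_support_iff.mpr hg))

/-- free products, one universe -/
private theorem gl_free0 {I : Type} [Nonempty I] {K : Type u} [Field K] {G : Type u} [Group G]
    {A : I → Type u} [∀ i, Group (A i)] (f : ∀ i, A i →* G)
    (hgen : ∀ P : G → Prop, P 1 → (∀ i x g, P g → P (f i x * g)) → ∀ g, P g)
    (hlift : ∀ (T : Type u) [Group T] (h : ∀ i, A i →* T), ∃ φ : G →* T, ∀ i x, φ (f i x) = h i x)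
    (hz : ∀ i, NoZeroDivisors (MonoidAlgebra K (A i))) : NoZeroDivisors (MonoidAlgebra K G) := by
  classical
  let oN : MonoidAlgebra K PUnit.{u + 1} →+* K := MonoidAlgebra.liftNCRingHom (RingHom.id K)
    (1 : PUnit.{u + 1} →* K) (fun x _ => Commute.one_right x)
  have hoN : ∀ c k, oN (MonoidAlgebra.single c k) = k := by
    intro c k
    have : oN (MonoidAlgebra.single c k) = k * 1 := MonoidAlgebra.liftNC_single _ _ _ _
    rw [this, mul_one]
  obtain ⟨T, iT, κ, Φ, hTz, hTn, hκj, hΦ, htr⟩ := amalgam_step (I := I) (K := K)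
    (G := G) (N := PUnit.{u + 1}) (H := A) (fun i => 1) f
    (by
      intro i i' c
      rw [MonoidHom.one_apply, MonoidHom.one_apply, map_one, map_one])
    hgen (fun T _ h _ => hlift T h) (E := K) (R := fun i => MonoidAlgebra K (A i))
    (fun i => MonoidAlgebra.singleOneRingHom) oN (fun i => RingHom.id _)
    (by
      intro i x
      have h1 : (RingHom.id (MonoidAlgebra K (A i))).comp
          (MonoidAlgebra.mapDomainRingHom K (1 : PUnit.{u + 1} →* A i)) =
            (MonoidAlgebra.singleOneRingHom (R := K) (M := A i)).comp oN := by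
        apply MonoidAlgebra.ringHom_ext
        · intro k
          simp only [RingHom.comp_apply, RingHom.id_apply]
          rw [MonoidAlgebra.mapDomainRingHom_apply, MonoidAlgebra.mapDomain_single, hoN]
          rfl
        · intro a
          simp only [RingHom.comp_apply, RingHom.id_apply]
          rw [MonoidAlgebra.mapDomainRingHom_apply, MonoidAlgebra.mapDomain_single, hoN]
          rfl
      exact RingHom.congr_fun h1 x)
    (fun i => gl_ind K (A i))
  obtain ⟨i⟩ : Nonempty I := inferInstance
  have h1 := htr i PUnit.{u + 1} 1 K MonoidAlgebra.singleOneRingHom (gl_ind K (A i))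
  rw [MonoidHom.comp_one] at h1
  have hinj := gl_inj _ Φ h1 (by
    intro k
    have := hΦ i (MonoidAlgebra.single 1 k)
    rw [MonoidAlgebra.mapDomainRingHom_apply, MonoidAlgebra.mapDomain_single, map_one] at this
    rw [this]
    rfl)
  exact Function.Injective.noZeroDivisors Φ hinj (map_zero Φ) (map_mul Φ)

private theorem gl_tr {K : Type*} {K' : Type*} [Field K] [Field K'] (σ : K →+* K') {G : Type*}
    {G' : Type*} [Group G] [Group G'] (φ : G →* G') (hφ : Function.Injective φ)
    (h : NoZeroDivisors (MonoidAlgebra K' G')) : NoZeroDivisors (MonoidAlgebra K G) := by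
  have h1 : Function.Injective (MonoidAlgebra.mapDomainRingHom K φ) :=
    MonoidAlgebra.mapDomain_injective hφ
  have h2 : Function.Injective (MonoidAlgebra.mapRingHom G' σ) := by
    intro x y hxy
    ext g
    apply σ.injective
    have := congrArg (fun z => z.coeff g) hxy
    simpa only [MonoidAlgebra.coeff_mapRingHom] using this
  exact Function.Injective.noZeroDivisors
    ((MonoidAlgebra.mapRingHom G' σ).comp (MonoidAlgebra.mapDomainRingHom K φ))
    (h2.comp h1) (map_zero _) (map_mul _)

/-- free products -/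
private theorem gl_free {I : Type} [Nonempty I] {K : Type w} [Field K] {G : Type u} [Group G]
    {A : I → Type u} [∀ i, Group (A i)] (f : ∀ i, A i →* G)
    (hgen : ∀ P : G → Prop, P 1 → (∀ i x g, P g → P (f i x * g)) → ∀ g, P g)
    (hlift : ∀ (T : Type (max u w)) [Group T] (h : ∀ i, A i →* T),
      ∃ φ : G →* T, ∀ i x, φ (f i x) = h i x)
    (hz : ∀ i, NoZeroDivisors (MonoidAlgebra K (A i))) : NoZeroDivisors (MonoidAlgebra K G) := by
  have h1 : NoZeroDivisors (MonoidAlgebra (ULift.{u} K) (ULift.{w} G)) := by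
    refine gl_free0 (I := I) (A := fun i => ULift.{w} (A i))
      (fun i => ((MulEquiv.ulift : ULift.{w} G ≃* G).symm.toMonoidHom.comp (f i)).comp
        (MulEquiv.ulift : ULift.{w} (A i) ≃* A i).toMonoidHom) ?_ ?_ ?_
    · intro P h1 h2 g
      have := hgen (fun g => P (ULift.up g)) h1 (fun i x g hg => h2 i (ULift.up x) _ hg) g.down
      exact this
    · intro T _ h
      obtain ⟨φ, hφ⟩ := hlift T
        (fun i => (h i).comp (MulEquiv.ulift : ULift.{w} (A i) ≃* A i).symm.toMonoidHom)
      exact ⟨φ.comp (MulEquiv.ulift : ULift.{w} G ≃* G).toMonoidHom, fun i x => hφ i x.down⟩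
    · intro i
      exact gl_tr (ULift.ringEquiv : ULift.{u} K ≃+* K).toRingHom
        (MulEquiv.ulift : ULift.{w} (A i) ≃* A i).toMonoidHom
        (MulEquiv.ulift : ULift.{w} (A i) ≃* A i).injective (hz i)
  exact gl_tr (ULift.ringEquiv : ULift.{u} K ≃+* K).symm.toRingHom
    (MulEquiv.ulift : ULift.{w} G ≃* G).symm.toMonoidHom
    (MulEquiv.ulift : ULift.{w} G ≃* G).symm.injective h1

private theorem gl_core {I : Type} [Nonempty I] {K : Type w} [Field K] {G : Type u} [Group G]
    {A : I → Type u} [∀ i, Group (A i)] (f : ∀ i, A i →* G) (a : ∀ i, A i) (c : G)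
    (hc : ∀ i, f i (a i) = c) (d : G →* Multiplicative ℤ) (hd : d c = Multiplicative.ofAdd 1)
    (hgen : ∀ P : G → Prop, P 1 → (∀ i x g, P g → P (f i x * g)) → ∀ g, P g)
    (hlift : ∀ (T : Type (max u w)) [Group T] (h : ∀ i, A i →* T),
      (∀ i i', h i (a i) = h i' (a i')) → ∃ φ : G →* T, ∀ i x, φ (f i x) = h i x)
    (hz : ∀ i, NoZeroDivisors (MonoidAlgebra K (A i))) : NoZeroDivisors (MonoidAlgebra K G) := by
  refine dom_of_rc d.ker ⟨LinearOrder.lift' (QuotientGroup.kerLift d)
    (QuotientGroup.kerLift_injective d), ?_⟩ K ?_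
  · intro g x y hxy
    induction x using QuotientGroup.induction_on with
    | H x =>
    induction y using QuotientGroup.induction_on with
    | H y =>
    change d (g * x) < d (g * y)
    have h1 : d x < d y := hxy
    rw [map_mul, map_mul]
    exact mul_lt_mul_right h1 (d g)
  · exact gl_free (fun i => gl_res (f i) d)
      (gl_gen f a c hc d hd hgen)
      (fun T _ h => gl_lift f a c hc d hd hgen hlift T h)
      (fun i => gl_tr (RingHom.id K) ((d.comp (f i)).ker.subtype)
        (Subgroup.subtype_injective _) (hz i))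

/-- Amalgams over a common generator. -/
theorem glue_dom {S : Type u} (M : CoxeterMatrix S) (T T' : Set S) (c : S) (hc : c ∈ T)
    (hc' : c ∈ T') (hU : ∀ s, s ∈ T ∨ s ∈ T') (hI : ∀ s, s ∈ T → s ∈ T' → s = c)
    (h0 : ∀ a ∈ T, ∀ b ∈ T', a ≠ c → b ≠ c → M a b = 0) (K : Type w) [Field K]
    (hT : NoZeroDivisors (MonoidAlgebra K (AX M T)))
    (hT' : NoZeroDivisors (MonoidAlgebra K (AX M T'))) :
    NoZeroDivisors (MonoidAlgebra K (ArtinGroup M)) := by
  classical
  let Y : Bool → Set S := fun b => cond b T T'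
  have hcY : ∀ b, c ∈ Y b := by
    intro b
    cases b
    · exact hc'
    · exact hc
  let d : ArtinGroup M →* Multiplicative ℤ :=
    ArtinGroup.lift M (fun _ => Multiplicative.ofAdd 1) (fun _ _ _ => rfl)
  refine gl_core (I := Bool) (A := fun b => AX M (Y b))
    (fun b => incA (sm M (Y b)) M Subtype.val (fun _ _ => rfl))
    (fun b => agen (sm M (Y b)) ⟨c, hcY b⟩) (agen M c) (fun b => incA_agen _ _ _ _ _) d
    (ArtinGroup.lift_agen _ _ _ _) ?_ ?_ ?_
  · intro P h1 h2 g
    have key : ∀ y : S, ∃ (b : Bool) (x : AX M (Y b)),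
        incA (sm M (Y b)) M Subtype.val (fun _ _ => rfl) x = agen M y := by
      intro y
      rcases hU y with hy | hy
      · exact ⟨true, agen (sm M (Y true)) ⟨y, hy⟩, incA_agen _ _ _ _ _⟩
      · exact ⟨false, agen (sm M (Y false)) ⟨y, hy⟩, incA_agen _ _ _ _ _⟩
    have hg : g ∈ Subgroup.closure (Set.range (agen M)) := by
      have := PresentedGroup.closure_range_of (artinRelM M)
      change g ∈ Subgroup.closure (Set.range (PresentedGroup.of (rels := artinRelM M)))
      rw [this]
      exact Subgroup.mem_top g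
    induction hg using Subgroup.closure_induction_left with
    | one => exact h1
    | mul_left x hx y hy ih =>
      obtain ⟨z, rfl⟩ := hx
      obtain ⟨b, a, ha⟩ := key z
      rw [← ha]
      exact h2 b a y ih
    | inv_mul_cancel x hx y hy ih =>
      obtain ⟨z, rfl⟩ := hx
      obtain ⟨b, a, ha⟩ := key z
      rw [← ha, ← map_inv]
      exact h2 b a⁻¹ y ih
  · intro X _ h hh
    let σ : S → X := fun s => if hs : s ∈ T then h true (agen (sm M (Y true)) ⟨s, hs⟩)
      else if hs' : s ∈ T' then h false (agen (sm M (Y false)) ⟨s, hs'⟩) else 1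
    have σT : ∀ (s : S) (hs : s ∈ T), σ s = h true (agen (sm M (Y true)) ⟨s, hs⟩) := by
      intro s hs
      exact dif_pos hs
    have σT' : ∀ (s : S) (hs : s ∈ T'), σ s = h false (agen (sm M (Y false)) ⟨s, hs⟩) := by
      intro s hs
      by_cases hs' : s ∈ T
      · obtain rfl : s = c := hI s hs' hs
        rw [σT s hs']
        exact hh true false
      · have e1 : σ s = _ := dif_neg hs'
        rw [e1]
        exact dif_pos hs
    have hrel : ∀ y z : S, M y z ≠ 0 → altProd (σ y) (σ z) (M y z) =
        altProd (σ z) (σ y) (M y z) := by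
      intro y z hyz
      have c1 : y ∈ T → z ∈ T → altProd (σ y) (σ z) (M y z) = altProd (σ z) (σ y) (M y z) := by
        intro hy hz
        rw [σT y hy, σT z hz, ← altProd_map, ← altProd_map]
        exact congrArg (h true) (agen_rel (sm M (Y true)) ⟨y, hy⟩ ⟨z, hz⟩ hyz)
      have c2 : y ∈ T' → z ∈ T' → altProd (σ y) (σ z) (M y z) =
          altProd (σ z) (σ y) (M y z) := by
        intro hy hz
        rw [σT' y hy, σT' z hz, ← altProd_map, ← altProd_map]
        exact congrArg (h false) (agen_rel (sm M (Y false)) ⟨y, hy⟩ ⟨z, hz⟩ hyz)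
      by_cases hy : y ∈ T
      · by_cases hz : z ∈ T
        · exact c1 hy hz
        · have hz' : z ∈ T' := (hU z).resolve_left hz
          by_cases hyc : y = c
          · exact c2 (hyc ▸ hc') hz'
          · exact absurd (h0 y hy z hz' hyc (fun e => hz (e ▸ hc))) hyz
      · have hy' : y ∈ T' := (hU y).resolve_left hy
        by_cases hz : z ∈ T
        · by_cases hzc : z = c
          · exact c2 hy' (hzc ▸ hc')
          · have := h0 z hz y hy' hzc (fun e => hy (e ▸ hc))
            rw [M.symmetric] at this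
            exact absurd this hyz
        · exact c2 hy' ((hU z).resolve_left hz)
    refine ⟨ArtinGroup.lift M σ hrel, ?_⟩
    intro b x
    have H : (ArtinGroup.lift M σ hrel).comp
        (incA (sm M (Y b)) M Subtype.val (fun _ _ => rfl)) = h b := by
      apply artin_hom_ext
      intro s
      rw [MonoidHom.comp_apply, incA_agen, ArtinGroup.lift_agen]
      cases b
      · exact σT' s.1 s.2
      · exact σT s.1 s.2
    exact DFunLike.congr_fun H x
  · intro b
    cases b
    · exact hT'
    · exact hT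

end Pool.Agent.Lib.MP_7b9603_alLO
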