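import Mathlib

/-!
# Gluing along a common infinite cyclic retract: the kernel of the degree is a free product

`G` is the amalgam of `A` and `B` over `cA = cB`, an element of degree one.  Homomorphisms of the
kernels of the degree on `A` and on `B` have a common extension to the kernel of the degree on `G`.
-/

set_option autoImplicit false

namespace Pool.Agent.Lib.MP_7b9603_alLO

universe u

/-- The shift action of the integers on the functions on the integers. -/
private def glShift (T : Type u) [Group T] : Multiplicative ℤ →* MulAut (ℤ → T) where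
  toFun k :=
    { toFun := fun f n => f (n + k.toAdd)
      invFun := fun f n => f (n - k.toAdd)
      left_inv := fun f => by
        funext n
        show f (n - k.toAdd + k.toAdd) = f n
        rw [sub_add_cancel]
      right_inv := fun f => by
        funext n
        show f (n + k.toAdd - k.toAdd) = f n
        rw [add_sub_cancel_right]
      map_mul' := fun f g => rfl }
  map_one' := by
    ext f n
    show f (n + 0) = f n
    rw [add_zero]
  map_mul' k l := by
    ext f n
    show f (n + (k.toAdd + l.toAdd)) = f (n + k.toAdd + l.toAdd)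
    rw [add_assoc]

private theorem glShift_apply (T : Type u) [Group T] (k : Multiplicative ℤ) (f : ℤ → T) (n : ℤ) :
    glShift T k f n = f (n + k.toAdd) := rfl

private theorem glDeg {A : Type u} [Group A] (d : A →* Multiplicative ℤ) (c : A)
    (hc : d c = Multiplicative.ofAdd 1) (n : ℤ) (a : A) :
    c ^ n * a * c ^ (-(n + (d a).toAdd)) ∈ d.ker := by
  rw [MonoidHom.mem_ker, map_mul, map_mul, map_zpow, map_zpow, hc]
  apply Multiplicative.toAdd.injective
  rw [toAdd_mul, toAdd_mul, toAdd_zpow, toAdd_zpow, toAdd_ofAdd, toAdd_one]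
  simp

/-- The homomorphism to the wreath product. -/
private def glHom {A T : Type u} [Group A] [Group T] (d : A →* Multiplicative ℤ) (c : A)
    (hc : d c = Multiplicative.ofAdd 1) (h : d.ker →* T) :
    A →* (ℤ → T) ⋊[glShift T] Multiplicative ℤ where
  toFun a := ⟨fun n => h ⟨c ^ n * a * c ^ (-(n + (d a).toAdd)), glDeg d c hc n a⟩, d a⟩
  map_one' := by
    refine SemidirectProduct.ext ?_ (map_one d)
    funext n
    show h ⟨_, _⟩ = 1
    rw [← map_one h]
    congr 1
    apply Subtype.ext
    show c ^ n * 1 * c ^ (-(n + (d 1).toAdd)) = 1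
    rw [map_one, toAdd_one, add_zero, mul_one, zpow_neg, mul_inv_cancel]
  map_mul' a b := by
    refine SemidirectProduct.ext ?_ (map_mul d a b)
    funext n
    show h ⟨_, _⟩ = h ⟨_, _⟩ * h ⟨_, _⟩
    rw [← map_mul]
    congr 1
    apply Subtype.ext
    show c ^ n * (a * b) * c ^ (-(n + (d (a * b)).toAdd)) =
      c ^ n * a * c ^ (-(n + (d a).toAdd)) *
        (c ^ (n + (d a).toAdd) * b * c ^ (-(n + (d a).toAdd + (d b).toAdd)))
    rw [map_mul, toAdd_mul, zpow_neg c (n + (d a).toAdd), add_assoc]
    group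

private theorem glHom_right {A T : Type u} [Group A] [Group T] (d : A →* Multiplicative ℤ) (c : A)
    (hc : d c = Multiplicative.ofAdd 1) (h : d.ker →* T) (a : A) :
    (glHom d c hc h a).right = d a := rfl

private theorem glHom_left {A T : Type u} [Group A] [Group T] (d : A →* Multiplicative ℤ) (c : A)
    (hc : d c = Multiplicative.ofAdd 1) (h : d.ker →* T) (a : A) (ha : a ∈ d.ker) :
    (glHom d c hc h a).left 0 = h ⟨a, ha⟩ := by
  show h ⟨_, _⟩ = _
  congr 1
  apply Subtype.ext
  show c ^ (0 : ℤ) * a * c ^ (-(0 + (d a).toAdd)) = a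
  rw [MonoidHom.mem_ker.1 ha, toAdd_one, add_zero, neg_zero, zpow_zero, one_mul, mul_one]

private theorem glHom_c {A T : Type u} [Group A] [Group T] (d : A →* Multiplicative ℤ) (c : A)
    (hc : d c = Multiplicative.ofAdd 1) (h : d.ker →* T) :
    glHom d c hc h c = ⟨1, Multiplicative.ofAdd 1⟩ := by
  refine SemidirectProduct.ext ?_ hc
  funext n
  show h ⟨_, _⟩ = 1
  rw [← map_one h]
  congr 1
  apply Subtype.ext
  show c ^ n * c * c ^ (-(n + (d c).toAdd)) = 1
  rw [hc, toAdd_ofAdd, ← zpow_add_one, zpow_neg, mul_inv_cancel]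

/-- Homomorphisms of the kernels of the degree on the factors extend to the kernel of the degree
on the amalgam. -/
theorem glue_lift {A B G T : Type u} [Group A] [Group B] [Group G] [Group T]
    (jA : A →* G) (jB : B →* G) (cA : A) (cB : B) (deg : G →* Multiplicative ℤ)
    (dA : A →* Multiplicative ℤ) (dB : B →* Multiplicative ℤ)
    (hdA : ∀ a, deg (jA a) = dA a) (hdB : ∀ b, deg (jB b) = dB b)
    (hcA : dA cA = Multiplicative.ofAdd 1) (hcB : dB cB = Multiplicative.ofAdd 1)
    (hgen : ∀ g, g ∈ Subgroup.closure (Set.range jA ∪ Set.range jB))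
    (huniv : ∀ (P : Type u) [Group P] (a : A →* P) (b : B →* P), a cA = b cB →
      ∃ F : G →* P, (∀ x, F (jA x) = a x) ∧ (∀ y, F (jB y) = b y))
    (hA : dA.ker →* T) (hB : dB.ker →* T) :
    ∃ φ : deg.ker →* T,
      (∀ (x : dA.ker) (hx : jA x ∈ deg.ker), φ ⟨jA x, hx⟩ = hA x) ∧
      (∀ (y : dB.ker) (hy : jB y ∈ deg.ker), φ ⟨jB y, hy⟩ = hB y) := by
  obtain ⟨F, hFA, hFB⟩ := huniv ((ℤ → T) ⋊[glShift T] Multiplicative ℤ)
    (glHom dA cA hcA hA) (glHom dB cB hcB hB) (by rw [glHom_c, glHom_c])
  have hright : ∀ g, (F g).right = deg g := by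
    intro g
    have h1 := hgen g
    induction h1 using Subgroup.closure_induction with
    | mem x hx =>
      rcases hx with ⟨a, rfl⟩ | ⟨b, rfl⟩
      · rw [hFA, glHom_right, hdA]
      · rw [hFB, glHom_right, hdB]
    | one => rw [map_one, map_one]; rfl
    | mul x y _ _ hx hy => rw [map_mul, map_mul, SemidirectProduct.mul_right, hx, hy]
    | inv x _ hx => rw [map_inv, map_inv, SemidirectProduct.inv_right, hx]
  refine ⟨{ toFun := fun g => (F g.1).left 0
            map_one' := ?_
            map_mul' := ?_ }, ?_, ?_⟩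
  · show (F 1).left 0 = 1
    rw [map_one]
    rfl
  · intro g g'
    show (F (g.1 * g'.1)).left 0 = (F g.1).left 0 * (F g'.1).left 0
    rw [map_mul, SemidirectProduct.mul_left, Pi.mul_apply, glShift_apply, hright,
      MonoidHom.mem_ker.1 g.2, toAdd_one, add_zero]
  · intro x hx
    show (F (jA x)).left 0 = hA x
    rw [hFA, glHom_left dA cA hcA hA x x.2]
  · intro y hy
    show (F (jB y)).left 0 = hB y
    rw [hFB, glHom_left dB cB hcB hB y y.2]

/-- The kernel of the degree on the amalgam is generated by the kernels on the factors. -/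
theorem glue_gen {A B G : Type u} [Group A] [Group B] [Group G]
    (jA : A →* G) (jB : B →* G) (cA : A) (cB : B) (hc : jA cA = jB cB)
    (deg : G →* Multiplicative ℤ)
    (dA : A →* Multiplicative ℤ) (dB : B →* Multiplicative ℤ)
    (hdA : ∀ a, deg (jA a) = dA a) (hdB : ∀ b, deg (jB b) = dB b)
    (hcA : dA cA = Multiplicative.ofAdd 1) (hcB : dB cB = Multiplicative.ofAdd 1)
    (hgen : ∀ g, g ∈ Subgroup.closure (Set.range jA ∪ Set.range jB)) (g : G)
    (hg : g ∈ deg.ker) : g ∈ dA.ker.map jA ⊔ dB.ker.map jB := by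
  set L : Subgroup G := dA.ker.map jA ⊔ dB.ker.map jB with hL
  set c : G := jA cA with hcc
  have hLA : ∀ a, dA a = 1 → jA a ∈ L := fun a ha =>
    Subgroup.mem_sup_left ⟨a, MonoidHom.mem_ker.2 ha, rfl⟩
  have hLB : ∀ b, dB b = 1 → jB b ∈ L := fun b hb =>
    Subgroup.mem_sup_right ⟨b, MonoidHom.mem_ker.2 hb, rfl⟩
  -- conjugation by powers of c preserves L
  have hconj : ∀ (n : ℤ) (x : G), x ∈ L → c ^ n * x * (c ^ n)⁻¹ ∈ L := by
    intro n x hx
    have h1 : L ≤ L.comap (MulAut.conj (c ^ n)).toMonoidHom := by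
      apply sup_le
      · rintro _ ⟨a, ha, rfl⟩
        show c ^ n * jA a * (c ^ n)⁻¹ ∈ L
        have h2 : c ^ n * jA a * (c ^ n)⁻¹ = jA (cA ^ n * a * (cA ^ n)⁻¹) := by
          rw [map_mul, map_mul, map_inv, map_zpow]
        rw [h2]
        apply hLA
        rw [map_mul, map_mul, map_inv, MonoidHom.mem_ker.1 ha, mul_one, mul_inv_cancel]
      · rintro _ ⟨b, hb, rfl⟩
        show c ^ n * jB b * (c ^ n)⁻¹ ∈ L
        have h2 : c ^ n * jB b * (c ^ n)⁻¹ = jB (cB ^ n * b * (cB ^ n)⁻¹) := by
          rw [map_mul, map_mul, map_inv, map_zpow, ← hc]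
        rw [h2]
        apply hLB
        rw [map_mul, map_mul, map_inv, MonoidHom.mem_ker.1 hb, mul_one, mul_inv_cancel]
    exact h1 hx
  have hdc : deg c = Multiplicative.ofAdd 1 := by rw [hcc, hdA, hcA]
  have key : ∀ x : G, ∃ h ∈ L, x = h * c ^ ((deg x).toAdd) := by
    intro x
    have h1 := hgen x
    induction h1 using Subgroup.closure_induction with
    | mem x hx =>
      rcases hx with ⟨a, rfl⟩ | ⟨b, rfl⟩
      · refine ⟨jA (a * cA ^ (-(dA a).toAdd)), ?_, ?_⟩
        · apply hLA
          apply Multiplicative.toAdd.injective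
          rw [map_mul, map_zpow, hcA, toAdd_mul, toAdd_zpow, toAdd_ofAdd, toAdd_one]
          simp
        · rw [map_mul, map_zpow, hdA, zpow_neg, inv_mul_cancel_right]
      · refine ⟨jB (b * cB ^ (-(dB b).toAdd)), ?_, ?_⟩
        · apply hLB
          apply Multiplicative.toAdd.injective
          rw [map_mul, map_zpow, hcB, toAdd_mul, toAdd_zpow, toAdd_ofAdd, toAdd_one]
          simp
        · rw [map_mul, map_zpow, hdB, ← hc, zpow_neg, inv_mul_cancel_right]
    | one => exact ⟨1, L.one_mem, by simp⟩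
    | mul x y _ _ hx hy =>
      obtain ⟨h, hh, ex⟩ := hx
      obtain ⟨k, hk, ey⟩ := hy
      refine ⟨h * (c ^ (deg x).toAdd * k * (c ^ (deg x).toAdd)⁻¹),
        L.mul_mem hh (hconj _ _ hk), ?_⟩
      rw [map_mul, toAdd_mul, zpow_add]
      conv_lhs => rw [ex, ey]
      group
    | inv x _ hx =>
      obtain ⟨h, hh, ex⟩ := hx
      refine ⟨c ^ (-(deg x).toAdd) * h⁻¹ * (c ^ (-(deg x).toAdd))⁻¹,
        hconj _ _ (L.inv_mem hh), ?_⟩
      rw [map_inv, toAdd_inv]
      conv_lhs => rw [ex]
      group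
  obtain ⟨h, hh, e⟩ := key g
  rw [MonoidHom.mem_ker.1 hg, toAdd_one, zpow_zero, mul_one] at e
  rw [e]
  exact hh

end Pool.Agent.Lib.MP_7b9603_alLO
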