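import Pool.Agent.Lib.MP_7b9603_alLO.RcDom
import Pool.Agent.Lib.MP_7b9603_alLO.GlueLift
import Pool.Agent.Lib.MP_7b9603_alLO.FreeAbs
import Pool.Agent.Lib.MP_7b9603_alCF.A10

/-!
# Group algebras of amalgams over a common infinite cyclic retract
-/

set_option autoImplicit false

namespace Pool.Agent.Lib.MP_7b9603_alLO

open SPH Pool.Agent.Lib.MP_7b9603_alCF

universe u v w

private theorem gb_sub {K : Type w} [Field K] {G H : Type*} [Group G] [Group H] (f : H →* G)
    (hf : Function.Injective f) (h : NoZeroDivisors (MonoidAlgebra K G)) :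
    NoZeroDivisors (MonoidAlgebra K H) := by
  have h1 : Function.Injective (MonoidAlgebra.mapDomainRingHom K f) :=
    MonoidAlgebra.mapDomain_injective hf
  exact h1.noZeroDivisors _ (map_zero _) (map_mul _)

/-- The quotient by the kernel of a homomorphism to the integers is ordered. -/
private theorem gb_order {G : Type u} [Group G] (deg : G →* Multiplicative ℤ) :
    ∃ _ : LinearOrder (G ⧸ deg.ker), ∀ (g : G) (x y : G ⧸ deg.ker), x < y → g • x < g • y := by
  classical
  have hinj : Function.Injective (QuotientGroup.kerLift deg) := QuotientGroup.kerLift_injective deg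
  refine ⟨LinearOrder.lift' (QuotientGroup.kerLift deg) hinj, ?_⟩
  intro g x y hxy
  induction x using QuotientGroup.induction_on with
  | H x =>
    induction y using QuotientGroup.induction_on with
    | H y =>
      have h1 : QuotientGroup.kerLift deg (x : G ⧸ deg.ker) <
        QuotientGroup.kerLift deg (y : G ⧸ deg.ker) := hxy
      rw [QuotientGroup.kerLift_mk, QuotientGroup.kerLift_mk] at h1
      show QuotientGroup.kerLift deg (g • (x : G ⧸ deg.ker)) <
        QuotientGroup.kerLift deg (g • (y : G ⧸ deg.ker))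
      have e1 : g • (x : G ⧸ deg.ker) = ((g * x : G) : G ⧸ deg.ker) := rfl
      have e2 : g • (y : G ⧸ deg.ker) = ((g * y : G) : G ⧸ deg.ker) := rfl
      rw [e1, e2, QuotientGroup.kerLift_mk, QuotientGroup.kerLift_mk, map_mul, map_mul]
      exact mul_lt_mul_right h1 (deg g)

/-- Amalgams over a common infinite cyclic subgroup which is mapped injectively to the integers. -/
theorem glue_abs {K : Type u} [Field K] {A B G : Type u} [Group A] [Group B] [Group G]
    (jA : A →* G) (jB : B →* G) (cA : A) (cB : B) (hc : jA cA = jB cB)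
    (deg : G →* Multiplicative ℤ)
    (dA : A →* Multiplicative ℤ) (dB : B →* Multiplicative ℤ)
    (hdA : ∀ a, deg (jA a) = dA a) (hdB : ∀ b, deg (jB b) = dB b)
    (hcA : dA cA = Multiplicative.ofAdd 1) (hcB : dB cB = Multiplicative.ofAdd 1)
    (hgen : ∀ g, g ∈ Subgroup.closure (Set.range jA ∪ Set.range jB))
    (huniv : ∀ (P : Type u) [Group P] (a : A →* P) (b : B →* P), a cA = b cB →
      ∃ F : G →* P, (∀ x, F (jA x) = a x) ∧ (∀ y, F (jB y) = b y))
    (hA : NoZeroDivisors (MonoidAlgebra K A)) (hB : NoZeroDivisors (MonoidAlgebra K B)) :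
    NoZeroDivisors (MonoidAlgebra K G) := by
  refine dom_of_rc deg.ker (gb_order deg) K ?_
  have mA : ∀ x : dA.ker, jA x ∈ deg.ker := fun x => by
    rw [MonoidHom.mem_ker, hdA]
    exact x.2
  have mB : ∀ x : dB.ker, jB x ∈ deg.ker := fun x => by
    rw [MonoidHom.mem_ker, hdB]
    exact x.2
  let fA : dA.ker →* deg.ker := (jA.comp dA.ker.subtype).codRestrict deg.ker mA
  let fB : dB.ker →* deg.ker := (jB.comp dB.ker.subtype).codRestrict deg.ker mB
  refine free_prod_dom fA fB ?_ ?_ (gb_sub dA.ker.subtype Subtype.val_injective hA)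
    (gb_sub dB.ker.subtype Subtype.val_injective hB)
  · rw [eq_top_iff]
    rintro ⟨g, hg⟩ _
    have h1 := glue_gen jA jB cA cB hc deg dA dB hdA hdB hcA hcB hgen g hg
    have h2 : dA.ker.map jA ⊔ dB.ker.map jB ≤ (fA.range ⊔ fB.range).map deg.ker.subtype := by
      rw [Subgroup.map_sup]
      apply sup_le_sup
      · rintro _ ⟨a, ha, rfl⟩
        exact ⟨fA ⟨a, ha⟩, ⟨⟨a, ha⟩, rfl⟩, rfl⟩
      · rintro _ ⟨b, hb, rfl⟩
        exact ⟨fB ⟨b, hb⟩, ⟨⟨b, hb⟩, rfl⟩, rfl⟩
    obtain ⟨x, hx, e⟩ := h2 h1
    have e' : x = ⟨g, hg⟩ := Subtype.ext e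
    rw [← e']
    exact hx
  · intro T _ a b
    obtain ⟨φ, h1, h2⟩ := glue_lift jA jB cA cB deg dA dB hdA hdB hcA hcB hgen huniv a b
    exact ⟨φ, fun x => h1 x (mA x), fun y => h2 y (mB y)⟩

private theorem gb_up {K : Type w} [Field K] {G : Type u} [Group G]
    (h : NoZeroDivisors (MonoidAlgebra K G)) :
    NoZeroDivisors (MonoidAlgebra (ULift.{u} K) (ULift.{w} G)) := by
  have h1 : NoZeroDivisors (MonoidAlgebra K (ULift.{w} G)) :=
    gb_sub (MulEquiv.ulift (α := G)).toMonoidHom MulEquiv.ulift.injective h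
  have h2 : Function.Injective (MonoidAlgebra.mapRingHom (ULift.{w} G)
      (ULift.ringEquiv (R := K)).toRingHom) := by
    intro x y hxy
    ext g
    have h3 := congrArg (fun z : MonoidAlgebra K (ULift.{w} G) => z.coeff g) hxy
    simp only [MonoidAlgebra.coeff_mapRingHom] at h3
    exact congrArg ULift.down ((ULift.ringEquiv (R := K)).injective h3)
  exact h2.noZeroDivisors _ (map_zero _) (map_mul _)

private theorem gb_down {K : Type w} [Field K] {G : Type u} [Group G]
    (h : NoZeroDivisors (MonoidAlgebra (ULift.{u} K) (ULift.{w} G))) :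
    NoZeroDivisors (MonoidAlgebra K G) := by
  have h1 : NoZeroDivisors (MonoidAlgebra (ULift.{u} K) G) :=
    gb_sub (MulEquiv.ulift (α := G)).symm.toMonoidHom MulEquiv.ulift.symm.injective h
  have h2 : Function.Injective (MonoidAlgebra.mapRingHom G
      (ULift.ringEquiv (R := K)).symm.toRingHom) := by
    intro x y hxy
    ext g
    have h3 := congrArg (fun z : MonoidAlgebra (ULift.{u} K) G => z.coeff g) hxy
    simp only [MonoidAlgebra.coeff_mapRingHom] at h3
    exact (ULift.ringEquiv (R := K)).symm.injective h3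
  exact h2.noZeroDivisors _ (map_zero _) (map_mul _)

/-- The degree. -/
private def gb_deg {S : Type u} (M : CoxeterMatrix S) : ArtinGroup M →* Multiplicative ℤ :=
  ArtinGroup.lift M (fun _ => Multiplicative.ofAdd 1) (fun _ _ _ => rfl)

private theorem gb_deg_agen {S : Type u} (M : CoxeterMatrix S) (s : S) :
    gb_deg M (agen M s) = Multiplicative.ofAdd 1 := ArtinGroup.lift_agen _ _ _ _

/-- Amalgams over a common generator. -/
theorem glue_dom_b {S : Type u} (M : CoxeterMatrix S) (T T' : Set S) (c : S) (hc : c ∈ T)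
    (hc' : c ∈ T') (hU : ∀ s, s ∈ T ∨ s ∈ T') (hI : ∀ s, s ∈ T → s ∈ T' → s = c)
    (h0 : ∀ a ∈ T, ∀ b ∈ T', a ≠ c → b ≠ c → M a b = 0) (K : Type w) [Field K]
    (hT : NoZeroDivisors (MonoidAlgebra K (AX M T)))
    (hT' : NoZeroDivisors (MonoidAlgebra K (AX M T'))) :
    NoZeroDivisors (MonoidAlgebra K (ArtinGroup M)) := by
  classical
  apply gb_down
  let iA : AX M T →* ArtinGroup M := incA (sm M T) M Subtype.val (fun _ _ => rfl)
  let iB : AX M T' →* ArtinGroup M := incA (sm M T') M Subtype.val (fun _ _ => rfl)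
  have iA_agen : ∀ a : T, iA (agen (sm M T) a) = agen M a.1 := fun a => incA_agen _ _ _ _ a
  have iB_agen : ∀ a : T', iB (agen (sm M T') a) = agen M a.1 := fun a => incA_agen _ _ _ _ a
  let jA : ULift.{w} (AX M T) →* ULift.{w} (ArtinGroup M) :=
    (MulEquiv.ulift (α := ArtinGroup M)).symm.toMonoidHom.comp
      (iA.comp (MulEquiv.ulift (α := AX M T)).toMonoidHom)
  let jB : ULift.{w} (AX M T') →* ULift.{w} (ArtinGroup M) :=
    (MulEquiv.ulift (α := ArtinGroup M)).symm.toMonoidHom.comp
      (iB.comp (MulEquiv.ulift (α := AX M T')).toMonoidHom)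
  have hlift : ∀ (P : Type (max u w)) [Group P] (a : AX M T →* P) (b : AX M T' →* P),
      a (agen (sm M T) ⟨c, hc⟩) = b (agen (sm M T') ⟨c, hc'⟩) →
      ∃ F : ArtinGroup M →* P, (∀ x, F (iA x) = a x) ∧ (∀ y, F (iB y) = b y) := by
    intro P _ a b hab
    let σ : S → P := fun s => if h : s ∈ T then a (agen (sm M T) ⟨s, h⟩)
      else if h' : s ∈ T' then b (agen (sm M T') ⟨s, h'⟩) else 1
    have σ1 : ∀ (s : S) (h : s ∈ T), σ s = a (agen (sm M T) ⟨s, h⟩) := by
      intro s h
      simp only [σ, dif_pos h]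
    have σ2 : ∀ (s : S) (h : s ∈ T'), σ s = b (agen (sm M T') ⟨s, h⟩) := by
      intro s h
      by_cases h' : s ∈ T
      · have e := hI s h' h
        subst e
        rw [σ1 s h']
        exact hab
      · simp only [σ, dif_neg h', dif_pos h]
    have hrel : ∀ s t, M s t ≠ 0 →
        altProd (σ s) (σ t) (M s t) = altProd (σ t) (σ s) (M s t) := by
      intro s t hst
      have hA : ∀ (h : s ∈ T) (h' : t ∈ T),
          altProd (σ s) (σ t) (M s t) = altProd (σ t) (σ s) (M s t) := by
        intro h h'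
        have h1 := congrArg a (agen_rel (sm M T) ⟨s, h⟩ ⟨t, h'⟩ hst)
        rw [altProd_map, altProd_map, ← σ1, ← σ1] at h1
        exact h1
      have hB : ∀ (h : s ∈ T') (h' : t ∈ T'),
          altProd (σ s) (σ t) (M s t) = altProd (σ t) (σ s) (M s t) := by
        intro h h'
        have h1 := congrArg b (agen_rel (sm M T') ⟨s, h⟩ ⟨t, h'⟩ hst)
        rw [altProd_map, altProd_map, ← σ2, ← σ2] at h1
        exact h1
      rcases hU s with hs | hs
      · by_cases ht : t ∈ T
        · exact hA hs ht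
        · have ht' := (hU t).resolve_left ht
          by_cases hsc : s = c
          · exact hB (by rw [hsc]; exact hc') ht'
          · by_cases htc : t = c
            · exact absurd (by rw [htc]; exact hc) ht
            · exact absurd (h0 s hs t ht' hsc htc) hst
      · by_cases ht : t ∈ T'
        · exact hB hs ht
        · have ht' := (hU t).resolve_right ht
          by_cases hsc : s = c
          · exact hA (by rw [hsc]; exact hc) ht'
          · by_cases htc : t = c
            · exact absurd (by rw [htc]; exact hc') ht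
            · exact absurd (by rw [M.symmetric s t]; exact h0 t ht' s hs htc hsc) hst
    refine ⟨ArtinGroup.lift M σ hrel, ?_, ?_⟩
    · intro x
      have h1 : (ArtinGroup.lift M σ hrel).comp iA = a := by
        apply artin_hom_ext
        rintro ⟨s, hs⟩
        rw [MonoidHom.comp_apply, iA_agen, ArtinGroup.lift_agen, σ1 s hs]
      exact DFunLike.congr_fun h1 x
    · intro x
      have h1 : (ArtinGroup.lift M σ hrel).comp iB = b := by
        apply artin_hom_ext
        rintro ⟨s, hs⟩
        rw [MonoidHom.comp_apply, iB_agen, ArtinGroup.lift_agen, σ2 s hs]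
      exact DFunLike.congr_fun h1 x
  have degA : ∀ x, gb_deg M (iA x) = gb_deg (sm M T) x := by
    intro x
    have h1 : (gb_deg M).comp iA = gb_deg (sm M T) := by
      apply artin_hom_ext
      intro s
      rw [MonoidHom.comp_apply, iA_agen, gb_deg_agen, gb_deg_agen]
    exact DFunLike.congr_fun h1 x
  have degB : ∀ x, gb_deg M (iB x) = gb_deg (sm M T') x := by
    intro x
    have h1 : (gb_deg M).comp iB = gb_deg (sm M T') := by
      apply artin_hom_ext
      intro s
      rw [MonoidHom.comp_apply, iB_agen, gb_deg_agen, gb_deg_agen]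
    exact DFunLike.congr_fun h1 x
  refine glue_abs jA jB (ULift.up (agen (sm M T) ⟨c, hc⟩)) (ULift.up (agen (sm M T') ⟨c, hc'⟩))
    ?_ ((gb_deg M).comp (MulEquiv.ulift (α := ArtinGroup M)).toMonoidHom)
    ((gb_deg (sm M T)).comp (MulEquiv.ulift (α := AX M T)).toMonoidHom)
    ((gb_deg (sm M T')).comp (MulEquiv.ulift (α := AX M T')).toMonoidHom)
    (fun a => degA a.down) (fun b => degB b.down) (gb_deg_agen (sm M T) ⟨c, hc⟩)
    (gb_deg_agen (sm M T') ⟨c, hc'⟩) ?_ ?_
    (gb_up hT) (gb_up hT')
  · show ULift.up (iA (agen (sm M T) ⟨c, hc⟩)) = ULift.up (iB (agen (sm M T') ⟨c, hc'⟩))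
    rw [iA_agen, iB_agen]
  · rintro ⟨g⟩
    have hg : g ∈ Subgroup.closure (Set.range (agen M)) := by
      have h := PresentedGroup.closure_range_of (artinRelM M)
      change g ∈ Subgroup.closure (Set.range (PresentedGroup.of (rels := artinRelM M)))
      rw [h]
      exact Subgroup.mem_top g
    induction hg using Subgroup.closure_induction with
    | mem x hx =>
      obtain ⟨s, rfl⟩ := hx
      apply Subgroup.subset_closure
      rcases hU s with hs | hs
      · left
        exact ⟨ULift.up (agen (sm M T) ⟨s, hs⟩), congrArg ULift.up (iA_agen ⟨s, hs⟩)⟩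
      · right
        exact ⟨ULift.up (agen (sm M T') ⟨s, hs⟩), congrArg ULift.up (iB_agen ⟨s, hs⟩)⟩
    | one => exact Subgroup.one_mem _
    | mul x y _ _ hx hy => exact Subgroup.mul_mem _ hx hy
    | inv x _ hx => exact Subgroup.inv_mem _ hx
  · intro P _ a b hab
    obtain ⟨F, h1, h2⟩ := hlift P (a.comp (MulEquiv.ulift (α := AX M T)).symm.toMonoidHom)
      (b.comp (MulEquiv.ulift (α := AX M T')).symm.toMonoidHom) hab
    refine ⟨F.comp (MulEquiv.ulift (α := ArtinGroup M)).toMonoidHom, fun x => h1 x.down,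
      fun y => h2 y.down⟩

end Pool.Agent.Lib.MP_7b9603_alLO
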