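import Pool.Agent.Lib.MP_7b9603_alLO.GlueRet

/-!
# Gluing along a left orderable retract
-/

set_option autoImplicit false

namespace Pool.Agent.Lib.MP_7b9603_alLO

open SPH Pool.Agent.Lib.MP_7b9603_alCF

universe u v w

/-- Amalgams over a common left orderable retract. -/
theorem glue_retract {S : Type u} (M : CoxeterMatrix S) (T T' : Set S) (hU : ∀ s, s ∈ T ∨ s ∈ T')
    (h0 : ∀ a ∈ T, ∀ b ∈ T', a ∉ T' → b ∉ T → M a b = 0)
    (hord : ∃ _ : LinearOrder (AX M (T ∩ T')), ∀ a b c : AX M (T ∩ T'), a < b → c * a < c * b)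
    (ρ : ArtinGroup M →* AX M (T ∩ T'))
    (hρ : ∀ s (hs : s ∈ T ∩ T'), ρ (agen M s) = agen (sm M (T ∩ T')) ⟨s, hs⟩)
    (K : Type w) [Field K] (hT : NoZeroDivisors (MonoidAlgebra K (AX M T)))
    (hT' : NoZeroDivisors (MonoidAlgebra K (AX M T'))) :
    NoZeroDivisors (MonoidAlgebra K (ArtinGroup M)) :=
  glue_ret M T T' hU h0 hord ρ (fun s => hρ s.1 s.2) K hT hT'

end Pool.Agent.Lib.MP_7b9603_alLO
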