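import Mathlib

/-!
# Gluing along a common retract: the kernel of the retraction is a free product

`G` is the amalgam of `A` and `B` over `Q`, and there is a retraction of `G` onto `Q`.
Homomorphisms of the kernels of the retraction on `A` and on `B` have a common extension to the
kernel of the retraction on `G`.
-/

set_option autoImplicit false

namespace Pool.Agent.Lib.MP_7b9603_alLO

universe u

/-- The shift action of a group on the functions on it. -/
private def rlShift (Q T : Type u) [Group Q] [Group T] : Q →* MulAut (Q → T) where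
  toFun k :=
    { toFun := fun f n => f (n * k)
      invFun := fun f n => f (n * k⁻¹)
      left_inv := fun f => by
        funext n
        show f (n * k⁻¹ * k) = f n
        rw [inv_mul_cancel_right]
      right_inv := fun f => by
        funext n
        show f (n * k * k⁻¹) = f n
        rw [mul_inv_cancel_right]
      map_mul' := fun f g => rfl }
  map_one' := by
    ext f n
    show f (n * 1) = f n
    rw [mul_one]
  map_mul' k l := by
    ext f n
    show f (n * (k * l)) = f (n * k * l)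
    rw [mul_assoc]

private theorem rlShift_apply (Q T : Type u) [Group Q] [Group T] (k : Q) (f : Q → T) (n : Q) :
    rlShift Q T k f n = f (n * k) := rfl

private theorem rlDeg {A Q : Type u} [Group A] [Group Q] (d : A →* Q) (s : Q →* A)
    (hs : ∀ q, d (s q) = q) (n : Q) (a : A) :
    s n * a * (s (n * d a))⁻¹ ∈ d.ker := by
  rw [MonoidHom.mem_ker, map_mul, map_mul, map_inv, hs, hs, mul_inv_cancel]

/-- The homomorphism to the wreath product. -/
private def rlHom {A Q T : Type u} [Group A] [Group Q] [Group T] (d : A →* Q) (s : Q →* A)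
    (hs : ∀ q, d (s q) = q) (h : d.ker →* T) :
    A →* (Q → T) ⋊[rlShift Q T] Q where
  toFun a := ⟨fun n => h ⟨s n * a * (s (n * d a))⁻¹, rlDeg d s hs n a⟩, d a⟩
  map_one' := by
    refine SemidirectProduct.ext ?_ (map_one d)
    funext n
    show h ⟨_, _⟩ = 1
    rw [← map_one h]
    congr 1
    apply Subtype.ext
    show s n * 1 * (s (n * d 1))⁻¹ = 1
    rw [map_one, mul_one, mul_one, mul_inv_cancel]
  map_mul' a b := by
    refine SemidirectProduct.ext ?_ (map_mul d a b)
    funext n
    show h ⟨_, _⟩ = h ⟨_, _⟩ * h ⟨_, _⟩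
    rw [← map_mul]
    congr 1
    apply Subtype.ext
    show s n * (a * b) * (s (n * d (a * b)))⁻¹ =
      s n * a * (s (n * d a))⁻¹ * (s (n * d a) * b * (s (n * d a * d b))⁻¹)
    rw [map_mul d, ← mul_assoc n (d a) (d b)]
    group

private theorem rlHom_right {A Q T : Type u} [Group A] [Group Q] [Group T] (d : A →* Q)
    (s : Q →* A) (hs : ∀ q, d (s q) = q) (h : d.ker →* T) (a : A) :
    (rlHom d s hs h a).right = d a := rfl

private theorem rlHom_left {A Q T : Type u} [Group A] [Group Q] [Group T] (d : A →* Q)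
    (s : Q →* A) (hs : ∀ q, d (s q) = q) (h : d.ker →* T) (a : A) (ha : a ∈ d.ker) :
    (rlHom d s hs h a).left 1 = h ⟨a, ha⟩ := by
  show h ⟨_, _⟩ = _
  congr 1
  apply Subtype.ext
  show s 1 * a * (s (1 * d a))⁻¹ = a
  rw [MonoidHom.mem_ker.1 ha, mul_one, map_one, inv_one, one_mul, mul_one]

private theorem rlHom_s {A Q T : Type u} [Group A] [Group Q] [Group T] (d : A →* Q)
    (s : Q →* A) (hs : ∀ q, d (s q) = q) (h : d.ker →* T) (q : Q) :
    rlHom d s hs h (s q) = ⟨1, q⟩ := by
  refine SemidirectProduct.ext ?_ (hs q)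
  funext n
  show h ⟨_, _⟩ = 1
  rw [← map_one h]
  congr 1
  apply Subtype.ext
  show s n * s q * (s (n * d (s q)))⁻¹ = 1
  rw [hs, map_mul, mul_inv_cancel]

/-- Homomorphisms of the kernels of the retraction on the factors extend to the kernel of the
retraction on the amalgam. -/
theorem ret_lift {A B G Q T : Type u} [Group A] [Group B] [Group G] [Group Q] [Group T]
    (jA : A →* G) (jB : B →* G) (sA : Q →* A) (sB : Q →* B) (deg : G →* Q)
    (dA : A →* Q) (dB : B →* Q)
    (hdA : ∀ a, deg (jA a) = dA a) (hdB : ∀ b, deg (jB b) = dB b)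
    (hsA : ∀ q, dA (sA q) = q) (hsB : ∀ q, dB (sB q) = q)
    (hgen : ∀ g, g ∈ Subgroup.closure (Set.range jA ∪ Set.range jB))
    (huniv : ∀ (P : Type u) [Group P] (a : A →* P) (b : B →* P), (∀ q, a (sA q) = b (sB q)) →
      ∃ F : G →* P, (∀ x, F (jA x) = a x) ∧ (∀ y, F (jB y) = b y))
    (hA : dA.ker →* T) (hB : dB.ker →* T) :
    ∃ φ : deg.ker →* T,
      (∀ (x : dA.ker) (hx : jA x ∈ deg.ker), φ ⟨jA x, hx⟩ = hA x) ∧
      (∀ (y : dB.ker) (hy : jB y ∈ deg.ker), φ ⟨jB y, hy⟩ = hB y) := by
  obtain ⟨F, hFA, hFB⟩ := huniv ((Q → T) ⋊[rlShift Q T] Q)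
    (rlHom dA sA hsA hA) (rlHom dB sB hsB hB) (fun q => by rw [rlHom_s, rlHom_s])
  have hright : ∀ g, (F g).right = deg g := by
    intro g
    have h1 := hgen g
    induction h1 using Subgroup.closure_induction with
    | mem x hx =>
      rcases hx with ⟨a, rfl⟩ | ⟨b, rfl⟩
      · rw [hFA, rlHom_right, hdA]
      · rw [hFB, rlHom_right, hdB]
    | one => rw [map_one, map_one]; rfl
    | mul x y _ _ hx hy => rw [map_mul, map_mul, SemidirectProduct.mul_right, hx, hy]
    | inv x _ hx => rw [map_inv, map_inv, SemidirectProduct.inv_right, hx]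
  refine ⟨{ toFun := fun g => (F g.1).left 1
            map_one' := ?_
            map_mul' := ?_ }, ?_, ?_⟩
  · show (F 1).left 1 = 1
    rw [map_one]
    rfl
  · intro g g'
    show (F (g.1 * g'.1)).left 1 = (F g.1).left 1 * (F g'.1).left 1
    rw [map_mul, SemidirectProduct.mul_left, Pi.mul_apply, rlShift_apply, hright,
      MonoidHom.mem_ker.1 g.2, mul_one]
  · intro x hx
    show (F (jA x)).left 1 = hA x
    rw [hFA, rlHom_left dA sA hsA hA x x.2]
  · intro y hy
    show (F (jB y)).left 1 = hB y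
    rw [hFB, rlHom_left dB sB hsB hB y y.2]

/-- The kernel of the retraction on the amalgam is generated by the kernels on the factors. -/
theorem ret_gen {A B G Q : Type u} [Group A] [Group B] [Group G] [Group Q]
    (jA : A →* G) (jB : B →* G) (sA : Q →* A) (sB : Q →* B) (hj : ∀ q, jA (sA q) = jB (sB q))
    (deg : G →* Q) (dA : A →* Q) (dB : B →* Q)
    (hdA : ∀ a, deg (jA a) = dA a) (hdB : ∀ b, deg (jB b) = dB b)
    (hsA : ∀ q, dA (sA q) = q) (hsB : ∀ q, dB (sB q) = q)
    (hgen : ∀ g, g ∈ Subgroup.closure (Set.range jA ∪ Set.range jB)) (g : G)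
    (hg : g ∈ deg.ker) : g ∈ dA.ker.map jA ⊔ dB.ker.map jB := by
  set L : Subgroup G := dA.ker.map jA ⊔ dB.ker.map jB with hL
  have hLA : ∀ a, dA a = 1 → jA a ∈ L := fun a ha =>
    Subgroup.mem_sup_left ⟨a, MonoidHom.mem_ker.2 ha, rfl⟩
  have hLB : ∀ b, dB b = 1 → jB b ∈ L := fun b hb =>
    Subgroup.mem_sup_right ⟨b, MonoidHom.mem_ker.2 hb, rfl⟩
  have hconj : ∀ (q : Q) (x : G), x ∈ L → jA (sA q) * x * (jA (sA q))⁻¹ ∈ L := by
    intro q x hx
    have h1 : L ≤ L.comap (MulAut.conj (jA (sA q))).toMonoidHom := by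
      apply sup_le
      · rintro _ ⟨a, ha, rfl⟩
        show jA (sA q) * jA a * (jA (sA q))⁻¹ ∈ L
        rw [← map_mul, ← map_inv, ← map_mul]
        apply hLA
        rw [map_mul, map_mul, map_inv, MonoidHom.mem_ker.1 ha, mul_one, mul_inv_cancel]
      · rintro _ ⟨b, hb, rfl⟩
        show jA (sA q) * jB b * (jA (sA q))⁻¹ ∈ L
        rw [hj, ← map_mul, ← map_inv, ← map_mul]
        apply hLB
        rw [map_mul, map_mul, map_inv, MonoidHom.mem_ker.1 hb, mul_one, mul_inv_cancel]
    exact h1 hx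
  have key : ∀ x : G, ∃ h ∈ L, x = h * jA (sA (deg x)) := by
    intro x
    have h1 := hgen x
    induction h1 using Subgroup.closure_induction with
    | mem x hx =>
      rcases hx with ⟨a, rfl⟩ | ⟨b, rfl⟩
      · refine ⟨jA (a * (sA (dA a))⁻¹), ?_, ?_⟩
        · apply hLA
          rw [map_mul, map_inv, hsA, mul_inv_cancel]
        · rw [map_mul, map_inv, hdA, inv_mul_cancel_right]
      · refine ⟨jB (b * (sB (dB b))⁻¹), ?_, ?_⟩
        · apply hLB
          rw [map_mul, map_inv, hsB, mul_inv_cancel]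
        · rw [map_mul, map_inv, hdB, hj, inv_mul_cancel_right]
    | one => exact ⟨1, L.one_mem, by simp⟩
    | mul x y _ _ hx hy =>
      obtain ⟨h, hh, ex⟩ := hx
      obtain ⟨k, hk, ey⟩ := hy
      refine ⟨h * (jA (sA (deg x)) * k * (jA (sA (deg x)))⁻¹), L.mul_mem hh (hconj _ _ hk), ?_⟩
      rw [map_mul deg, map_mul sA, map_mul jA]
      conv_lhs => rw [ex, ey]
      group
    | inv x _ hx =>
      obtain ⟨h, hh, ex⟩ := hx
      refine ⟨jA (sA (deg x)⁻¹) * h⁻¹ * (jA (sA (deg x)⁻¹))⁻¹, hconj _ _ (L.inv_mem hh), ?_⟩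
      rw [map_inv deg, inv_mul_cancel_right, map_inv sA, map_inv jA]
      conv_lhs => rw [ex]
      rw [mul_inv_rev]
  obtain ⟨h, hh, e⟩ := key g
  rw [MonoidHom.mem_ker.1 hg, map_one, map_one, mul_one] at e
  rw [e]
  exact hh

end Pool.Agent.Lib.MP_7b9603_alLO
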