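import Pool.Agent.Lib.MP_7b9603_alLO.RcDom
import Pool.Agent.Lib.MP_7b9603_alLO.RetLift
import Pool.Agent.Lib.MP_7b9603_alLO.FreeAbs
import Pool.Agent.Lib.MP_7b9603_alCF.A10

/-!
# Group algebras of amalgams over a common left orderable retract
-/

set_option autoImplicit false

namespace Pool.Agent.Lib.MP_7b9603_alLO

open SPH Pool.Agent.Lib.MP_7b9603_alCF

universe u v w

private theorem gr_sub {K : Type w} [Field K] {G H : Type*} [Group G] [Group H] (f : H →* G)
    (hf : Function.Injective f) (h : NoZeroDivisors (MonoidAlgebra K G)) :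
    NoZeroDivisors (MonoidAlgebra K H) := by
  have h1 : Function.Injective (MonoidAlgebra.mapDomainRingHom K f) :=
    MonoidAlgebra.mapDomain_injective hf
  exact h1.noZeroDivisors _ (map_zero _) (map_mul _)

/-- The quotient by the kernel of a homomorphism to a left ordered group is ordered. -/
private theorem gr_order {G : Type u} {Q : Type v} [Group G] [Group Q] (deg : G →* Q)
    (hQ : ∃ _ : LinearOrder Q, ∀ a b c : Q, a < b → c * a < c * b) :
    ∃ _ : LinearOrder (G ⧸ deg.ker), ∀ (g : G) (x y : G ⧸ deg.ker), x < y → g • x < g • y := by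
  classical
  obtain ⟨oQ, hlt⟩ := hQ
  have hinj : Function.Injective (QuotientGroup.kerLift deg) := QuotientGroup.kerLift_injective deg
  refine ⟨LinearOrder.lift' (QuotientGroup.kerLift deg) hinj, ?_⟩
  intro g x y hxy
  induction x using QuotientGroup.induction_on with
  | H x =>
    induction y using QuotientGroup.induction_on with
    | H y =>
      have h1 : QuotientGroup.kerLift deg (x : G ⧸ deg.ker) <
        QuotientGroup.kerLift deg (y : G ⧸ deg.ker) := hxy
      rw [QuotientGroup.kerLift_mk, QuotientGroup.kerLift_mk] at h1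
      show QuotientGroup.kerLift deg (g • (x : G ⧸ deg.ker)) <
        QuotientGroup.kerLift deg (g • (y : G ⧸ deg.ker))
      have e1 : g • (x : G ⧸ deg.ker) = ((g * x : G) : G ⧸ deg.ker) := rfl
      have e2 : g • (y : G ⧸ deg.ker) = ((g * y : G) : G ⧸ deg.ker) := rfl
      rw [e1, e2, QuotientGroup.kerLift_mk, QuotientGroup.kerLift_mk, map_mul, map_mul]
      exact hlt _ _ _ h1

/-- Amalgams over a common left orderable retract. -/
theorem ret_abs {K : Type u} [Field K] {A B G Q : Type u} [Group A] [Group B] [Group G] [Group Q]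
    (jA : A →* G) (jB : B →* G) (sA : Q →* A) (sB : Q →* B) (hj : ∀ q, jA (sA q) = jB (sB q))
    (deg : G →* Q) (dA : A →* Q) (dB : B →* Q)
    (hdA : ∀ a, deg (jA a) = dA a) (hdB : ∀ b, deg (jB b) = dB b)
    (hsA : ∀ q, dA (sA q) = q) (hsB : ∀ q, dB (sB q) = q)
    (hgen : ∀ g, g ∈ Subgroup.closure (Set.range jA ∪ Set.range jB))
    (huniv : ∀ (P : Type u) [Group P] (a : A →* P) (b : B →* P), (∀ q, a (sA q) = b (sB q)) →
      ∃ F : G →* P, (∀ x, F (jA x) = a x) ∧ (∀ y, F (jB y) = b y))
    (hQ : ∃ _ : LinearOrder Q, ∀ a b c : Q, a < b → c * a < c * b)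
    (hA : NoZeroDivisors (MonoidAlgebra K A)) (hB : NoZeroDivisors (MonoidAlgebra K B)) :
    NoZeroDivisors (MonoidAlgebra K G) := by
  refine dom_of_rc deg.ker (gr_order deg hQ) K ?_
  have mA : ∀ x : dA.ker, jA x ∈ deg.ker := fun x => by
    rw [MonoidHom.mem_ker, hdA]
    exact x.2
  have mB : ∀ x : dB.ker, jB x ∈ deg.ker := fun x => by
    rw [MonoidHom.mem_ker, hdB]
    exact x.2
  let fA : dA.ker →* deg.ker := (jA.comp dA.ker.subtype).codRestrict deg.ker mA
  let fB : dB.ker →* deg.ker := (jB.comp dB.ker.subtype).codRestrict deg.ker mB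
  refine free_prod_dom fA fB ?_ ?_ (gr_sub dA.ker.subtype Subtype.val_injective hA)
    (gr_sub dB.ker.subtype Subtype.val_injective hB)
  · rw [eq_top_iff]
    rintro ⟨g, hg⟩ _
    have h1 := ret_gen jA jB sA sB hj deg dA dB hdA hdB hsA hsB hgen g hg
    have h2 : dA.ker.map jA ⊔ dB.ker.map jB ≤ (fA.range ⊔ fB.range).map deg.ker.subtype := by
      rw [Subgroup.map_sup]
      apply sup_le_sup
      · rintro _ ⟨a, ha, rfl⟩
        exact ⟨fA ⟨a, ha⟩, ⟨⟨a, ha⟩, rfl⟩, rfl⟩
      · rintro _ ⟨b, hb, rfl⟩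
        exact ⟨fB ⟨b, hb⟩, ⟨⟨b, hb⟩, rfl⟩, rfl⟩
    obtain ⟨x, hx, e⟩ := h2 h1
    have e' : x = ⟨g, hg⟩ := Subtype.ext e
    rw [← e']
    exact hx
  · intro T _ a b
    obtain ⟨φ, h1, h2⟩ := ret_lift jA jB sA sB deg dA dB hdA hdB hsA hsB hgen huniv a b
    exact ⟨φ, fun x => h1 x (mA x), fun y => h2 y (mB y)⟩

private theorem gr_up {K : Type w} [Field K] {G : Type u} [Group G]
    (h : NoZeroDivisors (MonoidAlgebra K G)) :
    NoZeroDivisors (MonoidAlgebra (ULift.{u} K) (ULift.{w} G)) := by
  have h1 : NoZeroDivisors (MonoidAlgebra K (ULift.{w} G)) :=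
    gr_sub (MulEquiv.ulift (α := G)).toMonoidHom MulEquiv.ulift.injective h
  have h2 : Function.Injective (MonoidAlgebra.mapRingHom (ULift.{w} G)
      (ULift.ringEquiv (R := K)).toRingHom) := by
    intro x y hxy
    ext g
    have h3 := congrArg (fun z : MonoidAlgebra K (ULift.{w} G) => z.coeff g) hxy
    simp only [MonoidAlgebra.coeff_mapRingHom] at h3
    exact congrArg ULift.down ((ULift.ringEquiv (R := K)).injective h3)
  exact h2.noZeroDivisors _ (map_zero _) (map_mul _)

private theorem gr_down {K : Type w} [Field K] {G : Type u} [Group G]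
    (h : NoZeroDivisors (MonoidAlgebra (ULift.{u} K) (ULift.{w} G))) :
    NoZeroDivisors (MonoidAlgebra K G) := by
  have h1 : NoZeroDivisors (MonoidAlgebra (ULift.{u} K) G) :=
    gr_sub (MulEquiv.ulift (α := G)).symm.toMonoidHom MulEquiv.ulift.symm.injective h
  have h2 : Function.Injective (MonoidAlgebra.mapRingHom G
      (ULift.ringEquiv (R := K)).symm.toRingHom) := by
    intro x y hxy
    ext g
    have h3 := congrArg (fun z : MonoidAlgebra (ULift.{u} K) G => z.coeff g) hxy
    simp only [MonoidAlgebra.coeff_mapRingHom] at h3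
    exact (ULift.ringEquiv (R := K)).symm.injective h3
  exact h2.noZeroDivisors _ (map_zero _) (map_mul _)

/-- Amalgams over a common left orderable retract: `M` is glued from its restrictions to `T` and
`T'`, there are no finite labels between `T \ T'` and `T' \ T`, the Artin group of `T ∩ T'` is
left orderable and a retract of that of `M`. -/
theorem glue_ret {S : Type u} (M : CoxeterMatrix S) (T T' : Set S)
    (hU : ∀ s, s ∈ T ∨ s ∈ T')
    (h0 : ∀ a ∈ T, ∀ b ∈ T', a ∉ T' → b ∉ T → M a b = 0)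
    (hord : ∃ _ : LinearOrder (AX M (T ∩ T')), ∀ a b c : AX M (T ∩ T'), a < b → c * a < c * b)
    (ρ : ArtinGroup M →* AX M (T ∩ T'))
    (hρ : ∀ s : (T ∩ T' : Set S), ρ (agen M s.1) = agen (sm M (T ∩ T')) s)
    (K : Type w) [Field K]
    (hT : NoZeroDivisors (MonoidAlgebra K (AX M T)))
    (hT' : NoZeroDivisors (MonoidAlgebra K (AX M T'))) :
    NoZeroDivisors (MonoidAlgebra K (ArtinGroup M)) := by
  classical
  apply gr_down
  let iA : AX M T →* ArtinGroup M := incA (sm M T) M Subtype.val (fun _ _ => rfl)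
  let iB : AX M T' →* ArtinGroup M := incA (sm M T') M Subtype.val (fun _ _ => rfl)
  have iA_agen : ∀ a : T, iA (agen (sm M T) a) = agen M a.1 := fun a => incA_agen _ _ _ _ a
  have iB_agen : ∀ a : T', iB (agen (sm M T') a) = agen M a.1 := fun a => incA_agen _ _ _ _ a
  have hNT : T ∩ T' ⊆ T := Set.inter_subset_left
  have hNT' : T ∩ T' ⊆ T' := Set.inter_subset_right
  have hji : ∀ q, iA (incX M hNT q) = iB (incX M hNT' q) := by
    intro q
    have h1 : iA.comp (incX M hNT) = iB.comp (incX M hNT') := by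
      apply artin_hom_ext
      intro s
      rw [MonoidHom.comp_apply, MonoidHom.comp_apply, incX_agen, incX_agen, iA_agen, iB_agen]
    exact DFunLike.congr_fun h1 q
  let jA : ULift.{w} (AX M T) →* ULift.{w} (ArtinGroup M) :=
    (MulEquiv.ulift (α := ArtinGroup M)).symm.toMonoidHom.comp
      (iA.comp (MulEquiv.ulift (α := AX M T)).toMonoidHom)
  let jB : ULift.{w} (AX M T') →* ULift.{w} (ArtinGroup M) :=
    (MulEquiv.ulift (α := ArtinGroup M)).symm.toMonoidHom.comp
      (iB.comp (MulEquiv.ulift (α := AX M T')).toMonoidHom)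
  have hlift : ∀ (P : Type (max u w)) [Group P] (a : AX M T →* P) (b : AX M T' →* P),
      (∀ q, a (incX M hNT q) = b (incX M hNT' q)) →
      ∃ F : ArtinGroup M →* P, (∀ x, F (iA x) = a x) ∧ (∀ y, F (iB y) = b y) := by
    intro P _ a b hab
    let σ : S → P := fun s => if h : s ∈ T then a (agen (sm M T) ⟨s, h⟩)
      else if h' : s ∈ T' then b (agen (sm M T') ⟨s, h'⟩) else 1
    have σ1 : ∀ (s : S) (h : s ∈ T), σ s = a (agen (sm M T) ⟨s, h⟩) := by
      intro s h
      simp only [σ, dif_pos h]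
    have σ2 : ∀ (s : S) (h : s ∈ T'), σ s = b (agen (sm M T') ⟨s, h⟩) := by
      intro s h
      by_cases h' : s ∈ T
      · rw [σ1 s h']
        have e := hab (agen (sm M (T ∩ T')) ⟨s, h', h⟩)
        rw [incX_agen, incX_agen] at e
        exact e
      · simp only [σ, dif_neg h', dif_pos h]
    have hrel : ∀ s t, M s t ≠ 0 →
        altProd (σ s) (σ t) (M s t) = altProd (σ t) (σ s) (M s t) := by
      intro s t hst
      have hA : ∀ (h : s ∈ T) (h' : t ∈ T),
          altProd (σ s) (σ t) (M s t) = altProd (σ t) (σ s) (M s t) := by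
        intro h h'
        have h1 := congrArg a (agen_rel (sm M T) ⟨s, h⟩ ⟨t, h'⟩ hst)
        rw [altProd_map, altProd_map, ← σ1, ← σ1] at h1
        exact h1
      have hB : ∀ (h : s ∈ T') (h' : t ∈ T'),
          altProd (σ s) (σ t) (M s t) = altProd (σ t) (σ s) (M s t) := by
        intro h h'
        have h1 := congrArg b (agen_rel (sm M T') ⟨s, h⟩ ⟨t, h'⟩ hst)
        rw [altProd_map, altProd_map, ← σ2, ← σ2] at h1
        exact h1
      by_cases hs : s ∈ T
      · by_cases ht : t ∈ T
        · exact hA hs ht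
        · have ht' := (hU t).resolve_left ht
          by_cases hs' : s ∈ T'
          · exact hB hs' ht'
          · exact absurd (h0 s hs t ht' hs' ht) hst
      · have hs' := (hU s).resolve_left hs
        by_cases ht' : t ∈ T'
        · exact hB hs' ht'
        · have ht := (hU t).resolve_right ht'
          exact absurd (by rw [M.symmetric s t]; exact h0 t ht s hs' ht' hs) hst
    refine ⟨ArtinGroup.lift M σ hrel, ?_, ?_⟩
    · intro x
      have h1 : (ArtinGroup.lift M σ hrel).comp iA = a := by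
        apply artin_hom_ext
        rintro ⟨s, hs⟩
        rw [MonoidHom.comp_apply, iA_agen, ArtinGroup.lift_agen, σ1 s hs]
      exact DFunLike.congr_fun h1 x
    · intro x
      have h1 : (ArtinGroup.lift M σ hrel).comp iB = b := by
        apply artin_hom_ext
        rintro ⟨s, hs⟩
        rw [MonoidHom.comp_apply, iB_agen, ArtinGroup.lift_agen, σ2 s hs]
      exact DFunLike.congr_fun h1 x
  have hrA : ∀ q, ρ (iA (incX M hNT q)) = q := by
    intro q
    have h1 : (ρ.comp iA).comp (incX M hNT) = MonoidHom.id _ := by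
      apply artin_hom_ext
      intro s
      rw [MonoidHom.comp_apply, MonoidHom.comp_apply, incX_agen, iA_agen]
      exact hρ s
    exact DFunLike.congr_fun h1 q
  have hrB : ∀ q, ρ (iB (incX M hNT' q)) = q := by
    intro q
    rw [← hji]
    exact hrA q
  let upQ : ULift.{w} (AX M (T ∩ T')) →* AX M (T ∩ T') :=
    (MulEquiv.ulift (α := AX M (T ∩ T'))).toMonoidHom
  let dnQ : AX M (T ∩ T') →* ULift.{w} (AX M (T ∩ T')) :=
    (MulEquiv.ulift (α := AX M (T ∩ T'))).symm.toMonoidHom
  refine ret_abs (Q := ULift.{w} (AX M (T ∩ T'))) jA jB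
    ((MulEquiv.ulift (α := AX M T)).symm.toMonoidHom.comp ((incX M hNT).comp upQ))
    ((MulEquiv.ulift (α := AX M T')).symm.toMonoidHom.comp ((incX M hNT').comp upQ))
    ?_
    (dnQ.comp (ρ.comp (MulEquiv.ulift (α := ArtinGroup M)).toMonoidHom))
    (dnQ.comp ((ρ.comp iA).comp (MulEquiv.ulift (α := AX M T)).toMonoidHom))
    (dnQ.comp ((ρ.comp iB).comp (MulEquiv.ulift (α := AX M T')).toMonoidHom))
    (fun a => rfl) (fun b => rfl) ?_ ?_ ?_ ?_ ?_ (gr_up hT) (gr_up hT')
  · rintro ⟨q⟩
    exact congrArg ULift.up (hji q)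
  · rintro ⟨q⟩
    exact congrArg ULift.up (hrA q)
  · rintro ⟨q⟩
    exact congrArg ULift.up (hrB q)
  · rintro ⟨g⟩
    have hg : g ∈ Subgroup.closure (Set.range (agen M)) := by
      have h := PresentedGroup.closure_range_of (artinRelM M)
      change g ∈ Subgroup.closure (Set.range (PresentedGroup.of (rels := artinRelM M)))
      rw [h]
      exact Subgroup.mem_top g
    induction hg using Subgroup.closure_induction with
    | mem x hx =>
      obtain ⟨s, rfl⟩ := hx
      apply Subgroup.subset_closure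
      rcases hU s with hs | hs
      · left
        exact ⟨ULift.up (agen (sm M T) ⟨s, hs⟩), congrArg ULift.up (iA_agen ⟨s, hs⟩)⟩
      · right
        exact ⟨ULift.up (agen (sm M T') ⟨s, hs⟩), congrArg ULift.up (iB_agen ⟨s, hs⟩)⟩
    | one => exact Subgroup.one_mem _
    | mul x y _ _ hx hy => exact Subgroup.mul_mem _ hx hy
    | inv x _ hx => exact Subgroup.inv_mem _ hx
  · intro P _ a b hab
    obtain ⟨F, h1, h2⟩ := hlift P (a.comp (MulEquiv.ulift (α := AX M T)).symm.toMonoidHom)
      (b.comp (MulEquiv.ulift (α := AX M T')).symm.toMonoidHom) (fun q => hab (ULift.up q))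
    exact ⟨F.comp (MulEquiv.ulift (α := ArtinGroup M)).toMonoidHom, fun x => h1 x.down,
      fun y => h2 y.down⟩
  · obtain ⟨o, ho⟩ := hord
    refine ⟨LinearOrder.lift' (ULift.down : ULift.{w} (AX M (T ∩ T')) → AX M (T ∩ T'))
      ULift.down_injective, ?_⟩
    intro a b c hab
    exact ho a.down b.down c.down hab

end Pool.Agent.Lib.MP_7b9603_alLO
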