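import Mathlib

/-!
# Group rings of groups with a relatively convex subgroup
-/

set_option autoImplicit false

namespace Pool.Agent.Lib.MP_7b9603_alLO

universe u v w

private theorem rd_coeff_zero {G : Type u} [Group G] {K : Type w} [Field K]
    (x y : MonoidAlgebra K G) (z : G)
    (h : ∀ a, x.coeff a ≠ 0 → ∀ b, y.coeff b ≠ 0 → a * b ≠ z) : (x * y).coeff z = 0 := by
  classical
  rw [MonoidAlgebra.coeff_mul]
  refine Finset.sum_eq_zero fun a ha => ?_
  refine Finset.sum_eq_zero fun b hb => ?_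
  exact if_neg (h a (Finsupp.mem_support_iff.1 ha) b (Finsupp.mem_support_iff.1 hb))

/-- the part of `x` in `p` -/
private noncomputable def rd_part {G : Type u} [Group G] {K : Type w} [Field K]
    (x : MonoidAlgebra K G) (p : G → Prop) : MonoidAlgebra K G := by
  classical
  exact MonoidAlgebra.ofCoeff (x.coeff.filter p)

private theorem rd_part_pos {G : Type u} [Group G] {K : Type w} [Field K]
    (x : MonoidAlgebra K G) (p : G → Prop) {g : G} (hg : p g) : (rd_part x p).coeff g = x.coeff g := by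
  classical
  unfold rd_part
  rw [MonoidAlgebra.coeff_ofCoeff]
  exact Finsupp.filter_apply_pos _ _ hg

private theorem rd_part_neg {G : Type u} [Group G] {K : Type w} [Field K]
    (x : MonoidAlgebra K G) (p : G → Prop) {g : G} (hg : ¬ p g) : (rd_part x p).coeff g = 0 := by
  classical
  unfold rd_part
  rw [MonoidAlgebra.coeff_ofCoeff]
  exact Finsupp.filter_apply_neg _ _ hg

private theorem rd_part_ne {G : Type u} [Group G] {K : Type w} [Field K]
    (x : MonoidAlgebra K G) (p : G → Prop) {g : G} (hg : (rd_part x p).coeff g ≠ 0) :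
    p g ∧ x.coeff g ≠ 0 := by
  by_cases h : p g
  · rw [rd_part_pos x p h] at hg
    exact ⟨h, hg⟩
  · exact absurd (rd_part_neg x p h) hg

private theorem rd_part_add {G : Type u} [Group G] {K : Type w} [Field K]
    (x : MonoidAlgebra K G) (p : G → Prop) : rd_part x p + rd_part x (fun g => ¬ p g) = x := by
  ext g
  rw [MonoidAlgebra.coeff_add, Finsupp.add_apply]
  by_cases h : p g
  · rw [rd_part_pos x p h, rd_part_neg x (fun g => ¬ p g) (fun hn => hn h), add_zero]
  · rw [rd_part_neg x p h, rd_part_pos x (fun g => ¬ p g) h, zero_add]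

private theorem rd_ne {G : Type u} [Group G] {K : Type w} [Field K]
    {x : MonoidAlgebra K G} (hx : x ≠ 0) : ∃ g, x.coeff g ≠ 0 := by
  by_contra h
  push Not at h
  apply hx
  ext g
  rw [h g]
  rfl

private theorem rd_sub {G : Type u} [Group G] (H : Subgroup G) {K : Type w} [Field K]
    (h : NoZeroDivisors (MonoidAlgebra K H)) {x y : MonoidAlgebra K G}
    (hx : ∀ g, x.coeff g ≠ 0 → g ∈ H) (hy : ∀ g, y.coeff g ≠ 0 → g ∈ H) (hxy : x * y = 0) :
    x = 0 ∨ y = 0 := by
  have hinj : Function.Injective (H.subtype : H → G) := H.subtype_injective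
  have lift : ∀ z : MonoidAlgebra K G, (∀ g, z.coeff g ≠ 0 → g ∈ H) →
      MonoidAlgebra.mapDomain (H.subtype : H → G)
        (MonoidAlgebra.comapDomain (H.subtype : H → G) hinj z) = z := by
    intro z hz
    refine MonoidAlgebra.mapDomain_comapDomain ?_ hinj
    intro g hg
    exact ⟨⟨g, hz g (Finsupp.mem_support_iff.1 hg)⟩, rfl⟩
  have hx' := lift x hx
  have hy' := lift y hy
  set x' := MonoidAlgebra.comapDomain (H.subtype : H → G) hinj x
  set y' := MonoidAlgebra.comapDomain (H.subtype : H → G) hinj y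
  have h1 : MonoidAlgebra.mapDomain (H.subtype : H → G) (x' * y') = 0 := by
    have h2 := MonoidAlgebra.mapDomain_mul H.subtype x' y'
    rw [hx', hy', hxy] at h2
    exact h2
  have h3 : x' * y' = 0 := by
    apply MonoidAlgebra.mapDomain_injective hinj
    rw [h1, MonoidAlgebra.mapDomain_zero]
  rcases mul_eq_zero.1 h3 with h4 | h4
  · left
    rw [← hx', h4, MonoidAlgebra.mapDomain_zero]
  · right
    rw [← hy', h4, MonoidAlgebra.mapDomain_zero]

/-- `K[G]` is a domain if `K[H]` is a domain and `G / H` has an invariant linear order. -/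
theorem dom_of_rc {G : Type u} [Group G] (H : Subgroup G)
    (hH : ∃ _ : LinearOrder (G ⧸ H), ∀ (g : G) (x y : G ⧸ H), x < y → g • x < g • y)
    (K : Type w) [Field K] (h : NoZeroDivisors (MonoidAlgebra K H)) :
    NoZeroDivisors (MonoidAlgebra K G) := by
  classical
  obtain ⟨hlin, hlt⟩ := hH
  have hle : ∀ (g : G) (x y : G ⧸ H), x ≤ y → g • x ≤ g • y := by
    intro g x y hxy
    rcases hxy.eq_or_lt with h1 | h1
    · rw [h1]
    · exact (hlt g x y h1).le
  constructor
  intro x y hxy
  by_contra hcon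
  rw [not_or] at hcon
  obtain ⟨hx, hy⟩ := hcon
  obtain ⟨gx, hgx⟩ := rd_ne hx
  obtain ⟨gy, hgy⟩ := rd_ne hy
  obtain ⟨b, hb, hbmax⟩ := Finset.exists_max_image y.coeff.support (fun g => (g : G ⧸ H))
    ⟨gy, Finsupp.mem_support_iff.2 hgy⟩
  obtain ⟨a, ha, hamax⟩ := Finset.exists_max_image x.coeff.support (fun g => g • (b : G ⧸ H))
    ⟨gx, Finsupp.mem_support_iff.2 hgx⟩
  rw [Finsupp.mem_support_iff] at ha hb
  have hbmax' : ∀ g, y.coeff g ≠ 0 → (g : G ⧸ H) ≤ (b : G ⧸ H) := fun g hg =>
    hbmax g (Finsupp.mem_support_iff.2 hg)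
  have hamax' : ∀ g, x.coeff g ≠ 0 → g • (b : G ⧸ H) ≤ a • (b : G ⧸ H) := fun g hg =>
    hamax g (Finsupp.mem_support_iff.2 hg)
  have hmk : ∀ g k : G, ((g * k : G) : G ⧸ H) = g • (k : G ⧸ H) := fun g k => rfl
  set px : G → Prop := fun g => g • (b : G ⧸ H) = a • (b : G ⧸ H) with hpx
  set py : G → Prop := fun g => (g : G ⧸ H) = (b : G ⧸ H) with hpy
  set x0 := rd_part x px with hx0
  set y0 := rd_part y py with hy0
  have key : x0 * y0 = 0 := by
    ext z
    by_cases hz : ((z : G) : G ⧸ H) = a • (b : G ⧸ H)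
    · have e : x * y = x0 * y0 + x0 * rd_part y (fun g => ¬ py g) + rd_part x (fun g => ¬ px g) * y := by
        have ex := rd_part_add x px
        have ey := rd_part_add y py
        calc x * y = (x0 + rd_part x (fun g => ¬ px g)) * y := by rw [ex]
          _ = x0 * y + rd_part x (fun g => ¬ px g) * y := add_mul _ _ _
          _ = x0 * (y0 + rd_part y (fun g => ¬ py g)) + rd_part x (fun g => ¬ px g) * y := by rw [ey]
          _ = _ := by rw [mul_add]
      have e1 : (x0 * rd_part y (fun g => ¬ py g)).coeff z = 0 := by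
        apply rd_coeff_zero
        rintro g hg k hk rfl
        obtain ⟨hg1, _⟩ := rd_part_ne x px hg
        obtain ⟨hk1, hk2⟩ := rd_part_ne y (fun g => ¬ py g) hk
        have h1 : (k : G ⧸ H) < (b : G ⧸ H) := lt_of_le_of_ne (hbmax' k hk2) hk1
        have h2 := hlt g _ _ h1
        rw [hmk] at hz
        rw [hz] at h2
        have hg2 : g • (b : G ⧸ H) = a • (b : G ⧸ H) := hg1
        rw [hg2] at h2
        exact lt_irrefl _ h2
      have e2 : (rd_part x (fun g => ¬ px g) * y).coeff z = 0 := by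
        apply rd_coeff_zero
        rintro g hg k hk rfl
        obtain ⟨hg1, hg2⟩ := rd_part_ne x (fun g => ¬ px g) hg
        have h1 : g • (b : G ⧸ H) < a • (b : G ⧸ H) := lt_of_le_of_ne (hamax' g hg2) hg1
        have h2 := hle g _ _ (hbmax' k hk)
        rw [hmk] at hz
        rw [hz] at h2
        exact lt_irrefl _ (h2.trans_lt h1)
      have e3 := congrArg (fun t : MonoidAlgebra K G => t.coeff z) e
      simp only [MonoidAlgebra.coeff_add, Finsupp.add_apply] at e3
      rw [hxy, e1, e2, add_zero, add_zero] at e3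
      exact e3.symm
    · have e1 : (x0 * y0).coeff z = 0 := by
        apply rd_coeff_zero
        rintro g hg k hk rfl
        obtain ⟨hg1, _⟩ := rd_part_ne x px hg
        obtain ⟨hk1, _⟩ := rd_part_ne y py hk
        apply hz
        have hg2 : g • (b : G ⧸ H) = a • (b : G ⧸ H) := hg1
        have hk2 : (k : G ⧸ H) = (b : G ⧸ H) := hk1
        rw [hmk, hk2, hg2]
      rw [e1]
      rfl
  -- translate into `H`
  set c : G := a * b with hc
  have hcb : (c : G ⧸ H) = a • (b : G ⧸ H) := hmk a b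
  set x1 : MonoidAlgebra K G := MonoidAlgebra.single c⁻¹ 1 * x0 * MonoidAlgebra.single b 1 with hx1
  set y1 : MonoidAlgebra K G := MonoidAlgebra.single b⁻¹ 1 * y0 with hy1
  have hone : (MonoidAlgebra.single b 1 : MonoidAlgebra K G) * MonoidAlgebra.single b⁻¹ 1 = 1 := by
    rw [MonoidAlgebra.single_mul_single, mul_inv_cancel, one_mul]
    rfl
  have h1 : x1 * y1 = 0 := by
    have e : x1 * y1 = MonoidAlgebra.single c⁻¹ 1 * (x0 * y0) := by
      calc x1 * y1 = MonoidAlgebra.single c⁻¹ 1 * x0 *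
            ((MonoidAlgebra.single b 1 : MonoidAlgebra K G) * MonoidAlgebra.single b⁻¹ 1) * y0 := by
              rw [hx1, hy1]
              simp only [mul_assoc]
        _ = _ := by rw [hone, mul_one, mul_assoc]
    rw [e, key, mul_zero]
  have cx1 : ∀ g, x1.coeff g = x0.coeff (c * g * b⁻¹) := by
    intro g
    rw [hx1, MonoidAlgebra.coeff_mul_single_apply, MonoidAlgebra.coeff_single_mul_apply, inv_inv,
      one_mul, mul_one, ← mul_assoc]
  have cy1 : ∀ g, y1.coeff g = y0.coeff (b * g) := by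
    intro g
    rw [hy1, MonoidAlgebra.coeff_single_mul_apply, inv_inv, one_mul]
  have mem : ∀ s t : G, (s : G ⧸ H) = (t : G ⧸ H) → s⁻¹ * t ∈ H := fun s t hst =>
    QuotientGroup.eq.1 hst
  have hxH : ∀ g, x1.coeff g ≠ 0 → g ∈ H := by
    intro g hg
    rw [cx1] at hg
    obtain ⟨hg1, _⟩ := rd_part_ne x px hg
    have hg2 : (c * g * b⁻¹) • (b : G ⧸ H) = a • (b : G ⧸ H) := hg1
    rw [← hmk, inv_mul_cancel_right, ← hcb] at hg2
    have h2 := mem _ _ hg2.symm
    rwa [inv_mul_cancel_left] at h2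
  have hyH : ∀ g, y1.coeff g ≠ 0 → g ∈ H := by
    intro g hg
    rw [cy1] at hg
    obtain ⟨hg1, _⟩ := rd_part_ne y py hg
    have hg2 : ((b * g : G) : G ⧸ H) = (b : G ⧸ H) := hg1
    have h2 := mem _ _ hg2.symm
    rwa [inv_mul_cancel_left] at h2
  rcases rd_sub H h hxH hyH h1 with h2 | h2
  · have h3 := cx1 (c⁻¹ * a * b)
    rw [h2] at h3
    have h4 : c * (c⁻¹ * a * b) * b⁻¹ = a := by group
    rw [h4] at h3
    have h5 : x0.coeff a = x.coeff a := rd_part_pos x px rfl
    rw [h5] at h3
    exact ha h3.symm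
  · have h3 := cy1 1
    rw [h2, mul_one] at h3
    have h5 : y0.coeff b = y.coeff b := rd_part_pos y py rfl
    rw [h5] at h3
    exact hb h3.symm

end Pool.Agent.Lib.MP_7b9603_alLO
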