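import Pool.Agent.Lib.MP_7b9603_alLO.C2
import Pool.Agent.Lib.MP_7b9603_alCF.A5

/-!
# X1: relatively convex parabolic subgroups, transitivity
-/

set_option autoImplicit false

namespace Pool.Agent.Lib.MP_7b9603_alLO

open SPH Pool.Agent.Lib.MP_7b9603_alCF

universe u v

private theorem x1_top {G : Type u} [Group G] : RC (⊤ : Subgroup G) :=
  ⟨∅, ⟨fun _ h => h.elim, fun _ _ _ h => h.elim, fun _ _ _ h => h.elim,
    fun _ => Or.inl (Subgroup.mem_top _), fun _ h => h.elim, fun _ h => h.elim⟩⟩

section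

variable {S : Type u} (M : CoxeterMatrix S)

/-- Transitivity. -/
theorem im_trans {X Y Z : Set S} (h1 : X ⊆ Y) (h2 : Y ⊆ Z) (hY : RC (im M h2)) (hX : RC (im M h1)) :
    RC (im M (h1.trans h2)) := by
  have hj : Function.Injective (incX M h2) :=
    incA_injective (sm M Y) (sm M Z) (Set.inclusion h2) (Set.inclusion_injective h2) (fun _ _ => rfl)
  have h := rc_map (incX M h2) hj hY (im M h1) hX
  have e : (im M h1).map (incX M h2) = im M (h1.trans h2) := by
    ext g
    constructor
    · rintro ⟨_, ⟨c, rfl⟩, rfl⟩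
      exact ⟨c, (incX_incX M h1 h2 c).symm⟩
    · rintro ⟨c, rfl⟩
      exact ⟨incX M h1 c, ⟨c, rfl⟩, incX_incX M h1 h2 c⟩
  rwa [e] at h

private theorem x1_all (n : ℕ) : ∀ Z : Set S, Z.Finite → Z.ncard = n → (∀ Y ⊆ Z, RCX M Y) →
    ∀ (X : Set S) (hX : X ⊆ Z), RC (im M hX) := by
  induction n with
  | zero =>
    intro Z hZ hc h X hX
    have hZ0 : Z = ∅ := (Set.ncard_eq_zero hZ).1 hc
    have hXZ : X = Z := by
      subst hZ0
      exact Set.subset_eq_empty hX rfl
    subst hXZ
    have e : im M hX = ⊤ := by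
      rw [eq_top_iff]
      intro g _
      exact ⟨g, incX_self M hX g⟩
    rw [e]
    exact x1_top
  | succ n ih =>
    intro Z hZ hc h X hX
    by_cases hXZ : X = Z
    · subst hXZ
      have e : im M hX = ⊤ := by
        rw [eq_top_iff]
        intro g _
        exact ⟨g, incX_self M hX g⟩
      rw [e]
      exact x1_top
    · obtain ⟨z, hz, hzX⟩ : ∃ z ∈ Z, z ∉ X := by
        by_contra hcon
        push Not at hcon
        exact hXZ (Set.Subset.antisymm hX hcon)
      have hX' : X ⊆ Z \ {z} := fun x hx => ⟨hX hx, fun hxz => hzX (by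
        rw [Set.mem_singleton_iff] at hxz
        rwa [← hxz])⟩
      have hc' : (Z \ {z}).ncard = n := by
        rw [Set.ncard_sdiff_singleton_of_mem hz, hc]
        rfl
      exact im_trans M hX' Set.sdiff_subset (h Z subset_rfl ⟨z, hz⟩).1
        (ih (Z \ {z}) (hZ.subset Set.sdiff_subset) hc'
          (fun Y hY => h Y (hY.trans Set.sdiff_subset)) X hX')

/-- All parabolic subgroups are relatively convex if this holds for the deletion of one
generator. -/
theorem im_all {Z : Set S} (hZ : Z.Finite) (h : ∀ Y ⊆ Z, RCX M Y) {X : Set S} (hX : X ⊆ Z) :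
    RC (im M hX) :=
  x1_all M _ Z hZ rfl h X hX

end

end Pool.Agent.Lib.MP_7b9603_alLO
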