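import Pool.Agent.Lib.MP_7b9603_alLO.GA
import Pool.Agent.Lib.MP_7b9603_alCF.A5

/-!
# The amalgam of two standard parabolic subgroups
-/

set_option autoImplicit false

namespace Pool.Agent.Lib.MP_7b9603_alLO

open SPH Pool.Agent.Lib.MP_7b9603_alCF

universe u v

section

variable {S : Type u} (M : CoxeterMatrix S)

theorem x2_injective {X Y : Set S} (h : X ⊆ Y) : Function.Injective (incX M h) :=
  incA_injective _ _ _ (Set.inclusion_injective h) _

/-- The amalgam. -/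
theorem ga_artin {X X1 X2 X0 : Set S} (h1 : X1 ⊆ X) (h2 : X2 ⊆ X) (h01 : X0 ⊆ X1) (h02 : X0 ⊆ X2)
    (hU : X ⊆ X1 ∪ X2) (hI : X1 ∩ X2 ⊆ X0)
    (h0 : ∀ x ∈ X1, x ∉ X2 → ∀ y ∈ X2, y ∉ X1 → M x y = 0)
    (hCA : RC (im M h01)) (hCB : RC (im M h02)) (A' : Subgroup (AX M X1)) (B' : Subgroup (AX M X2))
    (PA : Set (AX M X1)) (PB : Set (AX M X2)) (hPA : IsCone A' PA) (hPB : IsCone B' PB)
    (hC : ∀ c, incX M h01 c ∈ A' ↔ incX M h02 c ∈ B')
    (hP : ∀ c, incX M h01 c ∈ PA ↔ incX M h02 c ∈ PB) :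
    RC (A'.map (incX M h1) ⊔ B'.map (incX M h2)) ∧
      (∀ a, incX M h1 a ∈ A'.map (incX M h1) ⊔ B'.map (incX M h2) ↔ a ∈ A') ∧
      ∀ b, incX M h2 b ∈ A'.map (incX M h1) ⊔ B'.map (incX M h2) ↔ b ∈ B' := by
  classical
  refine ga (incX M h01) (incX M h02) (incX M h1) (incX M h2) (x2_injective M h01)
    (x2_injective M h02) ?_ ?_ ?_ hCA hCB A' B' PA PB hPA hPB hC hP
  · intro c
    rw [incX_incX, incX_incX]
  · rw [eq_top_iff]
    intro g _
    have hg : g ∈ Subgroup.closure (Set.range (agen (sm M X))) := by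
      have h := PresentedGroup.closure_range_of (artinRelM (sm M X))
      change g ∈ Subgroup.closure
        (Set.range (PresentedGroup.of (rels := artinRelM (sm M X))))
      rw [h]
      exact Subgroup.mem_top g
    refine (Subgroup.closure_le _).2 ?_ hg
    rintro _ ⟨x, rfl⟩
    rcases hU x.2 with hx | hx
    · exact Subgroup.mem_sup_left ⟨agen _ ⟨x, hx⟩, incX_agen _ _ _⟩
    · exact Subgroup.mem_sup_right ⟨agen _ ⟨x, hx⟩, incX_agen _ _ _⟩
  · intro Q _ f g hfg
    let σ : X → Q := fun y =>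
      if hy : (y : S) ∈ X1 then f (agen (sm M X1) ⟨y, hy⟩)
      else if hy2 : (y : S) ∈ X2 then g (agen (sm M X2) ⟨y, hy2⟩) else 1
    have σ1 : ∀ (y : X) (hy : (y : S) ∈ X1), σ y = f (agen (sm M X1) ⟨y, hy⟩) := by
      intro y hy
      simp only [σ, dif_pos hy]
    have σ2 : ∀ (y : X) (hy : (y : S) ∈ X2), σ y = g (agen (sm M X2) ⟨y, hy⟩) := by
      intro y hy
      by_cases hy1 : (y : S) ∈ X1
      · rw [σ1 y hy1]
        have h := hfg (agen (sm M X0) ⟨y, hI ⟨hy1, hy⟩⟩)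
        rw [incX_agen, incX_agen] at h
        exact h
      · simp only [σ, dif_neg hy1, dif_pos hy]
    have hrel : ∀ y z : X, sm M X y z ≠ 0 →
        altProd (σ y) (σ z) (sm M X y z) = altProd (σ z) (σ y) (sm M X y z) := by
      intro y z hyz
      rw [sm_apply] at hyz ⊢
      by_cases c1 : (y : S) ∈ X1 ∧ (z : S) ∈ X1
      · rw [σ1 y c1.1, σ1 z c1.2, ← altProd_map, ← altProd_map]
        exact congrArg f (agen_rel (sm M X1) ⟨y, c1.1⟩ ⟨z, c1.2⟩ hyz)
      by_cases c2 : (y : S) ∈ X2 ∧ (z : S) ∈ X2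
      · rw [σ2 y c2.1, σ2 z c2.2, ← altProd_map, ← altProd_map]
        exact congrArg g (agen_rel (sm M X2) ⟨y, c2.1⟩ ⟨z, c2.2⟩ hyz)
      exfalso
      rcases hU y.2 with hy | hy
      · have hz1 : (z : S) ∉ X1 := fun h => c1 ⟨hy, h⟩
        have hz2 : (z : S) ∈ X2 := (hU z.2).resolve_left hz1
        have hy2 : (y : S) ∉ X2 := fun h => c2 ⟨h, hz2⟩
        exact hyz (h0 y hy hy2 z hz2 hz1)
      · have hz2 : (z : S) ∉ X2 := fun h => c2 ⟨hy, h⟩
        have hz1 : (z : S) ∈ X1 := (hU z.2).resolve_right hz2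
        have hy1 : (y : S) ∉ X1 := fun h => c1 ⟨h, hz1⟩
        exact hyz ((M.symmetric (y : S) (z : S)).trans (h0 z hz1 hz2 y hy hy1))
    refine ⟨ArtinGroup.lift _ σ hrel, ?_, ?_⟩
    · intro a
      have H : (ArtinGroup.lift _ σ hrel).comp (incX M h1) = f := by
        apply artin_hom_ext
        intro x
        rw [MonoidHom.comp_apply, incX_agen, ArtinGroup.lift_agen]
        exact σ1 _ x.2
      exact DFunLike.congr_fun H a
    · intro b
      have H : (ArtinGroup.lift _ σ hrel).comp (incX M h2) = g := by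
        apply artin_hom_ext
        intro x
        rw [MonoidHom.comp_apply, incX_agen, ArtinGroup.lift_agen]
        exact σ2 _ x.2
      exact DFunLike.congr_fun H b

end

end Pool.Agent.Lib.MP_7b9603_alLO
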