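import Pool.Agent.Lib.MP_7b9603_alLO.C2

/-!
# A generator which commutes with all other generators
-/

set_option autoImplicit false

namespace Pool.Agent.Lib.MP_7b9603_alLO

open SPH Pool.Agent.Lib.MP_7b9603_alCF

universe u v

section

variable {S : Type u} (M : CoxeterMatrix S)

private theorem x3_comm (X : Set S) (r z : X) (h : M r.1 z.1 = 2) :
    Commute (agen (sm M X) r) (agen (sm M X) z) := by
  have h1 : sm M X r z = 2 := h
  have h2 := agen_rel (sm M X) r z (by rw [h1]; exact two_ne_zero)
  rw [h1] at h2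
  have h3 : agen (sm M X) r * (agen (sm M X) z * 1) = agen (sm M X) z * (agen (sm M X) r * 1) := h2
  rw [mul_one, mul_one] at h3
  exact h3

private theorem x3_mem (X : Set S) (r z : X) (h : z ≠ r) : agen (sm M X) z ∈ dl M X r.1 := by
  refine ⟨agen (sm M (X \ {r.1})) ⟨z.1, z.2, fun h1 => h (Subtype.ext h1)⟩, ?_⟩
  rw [incX_agen]

/-- `r` commutes with the other generators: every element is a power of `r` times an element of
the subgroup generated by the others. -/
theorem central_dec (X : Set S) (r : X) (h : ∀ z ∈ X, z ≠ r.1 → M r.1 z = 2) (g : AX M X) :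
    ∃ n : ℤ, ∃ d ∈ dl M X r.1, g = agen (sm M X) r ^ n * d := by
  have hg : g ∈ Subgroup.closure (Set.range (agen (sm M X))) := by
    have := PresentedGroup.closure_range_of (artinRelM (sm M X))
    change g ∈ Subgroup.closure (Set.range (PresentedGroup.of (rels := artinRelM (sm M X))))
    rw [this]
    exact Subgroup.mem_top g
  have hc : ∀ z : X, z ≠ r → Commute (agen (sm M X) r) (agen (sm M X) z) := fun z hz =>
    x3_comm M X r z (h z.1 z.2 fun h1 => hz (Subtype.ext h1))
  induction hg using Subgroup.closure_induction_left with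
  | one => exact ⟨0, 1, (dl M X r.1).one_mem, by rw [zpow_zero, one_mul]⟩
  | mul_left x hx y hy ih =>
    obtain ⟨z, rfl⟩ := hx
    obtain ⟨n, d, hd, rfl⟩ := ih
    by_cases hz : z = r
    · refine ⟨n + 1, d, hd, ?_⟩
      rw [hz, ← mul_assoc, zpow_add_one, ((Commute.refl (agen (sm M X) r)).zpow_right n).eq]
    · refine ⟨n, agen (sm M X) z * d, (dl M X r.1).mul_mem (x3_mem M X r z hz) hd, ?_⟩
      rw [← mul_assoc, ← mul_assoc, ((hc z hz).zpow_left n).eq]
  | inv_mul_cancel x hx y hy ih =>
    obtain ⟨z, rfl⟩ := hx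
    obtain ⟨n, d, hd, rfl⟩ := ih
    by_cases hz : z = r
    · refine ⟨n - 1, d, hd, ?_⟩
      rw [hz, ← mul_assoc, zpow_sub_one,
        ((Commute.refl (agen (sm M X) r)).inv_left.zpow_right n).eq]
    · refine ⟨n, (agen (sm M X) z)⁻¹ * d,
        (dl M X r.1).mul_mem ((dl M X r.1).inv_mem (x3_mem M X r z hz)) hd, ?_⟩
      rw [← mul_assoc, ← mul_assoc, ((hc z hz).inv_right.zpow_left n).eq]

/-- The exponent sum of `r`. -/
private theorem x3_exp (X : Set S) (r : X) (h : ∀ z ∈ X, z ≠ r.1 → M r.1 z = 2) :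
    ∃ ε : AX M X →* Multiplicative ℤ, ε (agen (sm M X) r) = Multiplicative.ofAdd 1 ∧
      ∀ z : X, z ≠ r → ε (agen (sm M X) z) = 1 := by
  classical
  have hrel : ∀ s t : X, sm M X s t ≠ 0 →
      altProd (if s = r then Multiplicative.ofAdd (1 : ℤ) else 1)
        (if t = r then Multiplicative.ofAdd (1 : ℤ) else 1) (sm M X s t) =
      altProd (if t = r then Multiplicative.ofAdd (1 : ℤ) else 1)
        (if s = r then Multiplicative.ofAdd (1 : ℤ) else 1) (sm M X s t) := by
    intro s t _
    by_cases hs : s = r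
    · by_cases ht : t = r
      · rw [hs, ht]
      · have h1 : sm M X s t = 2 := by
          rw [hs]
          exact h t.1 t.2 fun h1 => ht (Subtype.ext h1)
        rw [h1]
        exact mul_left_comm _ _ _
    · by_cases ht : t = r
      · have h1 : sm M X s t = 2 := by
          rw [ht, sm_apply, M.symmetric]
          exact h s.1 s.2 fun h1 => hs (Subtype.ext h1)
        rw [h1]
        exact mul_left_comm _ _ _
      · rw [if_neg hs, if_neg ht]
  refine ⟨ArtinGroup.lift (sm M X) (fun z => if z = r then Multiplicative.ofAdd (1 : ℤ) else 1)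
    hrel, ?_, fun z hz => ?_⟩
  · rw [ArtinGroup.lift_agen, if_pos rfl]
  · rw [ArtinGroup.lift_agen, if_neg hz]

/-- `r` commutes with the other generators. -/
theorem rc_central (X : Set S) (r : X) (h : ∀ z ∈ X, z ≠ r.1 → M r.1 z = 2) :
    RC (dl M X r.1) ∧ agen (sm M X) r ∉ dl M X r.1 := by
  obtain ⟨ε, h1, h2⟩ := x3_exp M X r h
  have h3 : ∀ d ∈ dl M X r.1, ε d = 1 := by
    rintro d ⟨c, rfl⟩
    have H : ε.comp (incX M (Set.sdiff_subset : X \ {r.1} ⊆ X)) = 1 := by
      apply artin_hom_ext
      intro z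
      rw [MonoidHom.comp_apply, incX_agen, MonoidHom.one_apply]
      exact h2 _ fun h4 => z.2.2 (congrArg Subtype.val h4)
    exact DFunLike.congr_fun H c
  have h4 : ∀ g : AX M X, ε g = 1 → g ∈ dl M X r.1 := by
    intro g hg
    obtain ⟨n, d, hd, rfl⟩ := central_dec M X r h g
    rw [map_mul, map_zpow, h1, h3 d hd, mul_one, ← ofAdd_zsmul, smul_eq_mul, mul_one] at hg
    have h5 : n = 0 := hg
    rw [h5, zpow_zero, one_mul]
    exact hd
  refine ⟨⟨{g | 1 < ε g}, ?_⟩, fun h5 => ?_⟩
  · refine
      { mul := fun a ha b hb => ?_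
        left := fun d hd a ha => ?_
        right := fun d hd a ha => ?_
        total := fun g => ?_
        notMem := fun g hg hd => ?_
        inv := fun g hg hd => ?_ }
    · change 1 < ε (a * b)
      rw [map_mul]
      exact one_lt_mul'' ha hb
    · change 1 < ε (d * a)
      rw [map_mul, h3 d hd, one_mul]
      exact ha
    · change 1 < ε (a * d)
      rw [map_mul, h3 d hd, mul_one]
      exact ha
    · rcases lt_trichotomy (ε g) 1 with h5 | h5 | h5
      · right
        right
        change 1 < ε g⁻¹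
        rw [map_inv]
        exact one_lt_inv'.2 h5
      · exact Or.inl (h4 g h5)
      · exact Or.inr (Or.inl h5)
    · exact absurd (h3 g hd) (ne_of_gt hg)
    · change 1 < ε g⁻¹ at hd
      rw [map_inv] at hd
      exact absurd (one_lt_inv'.1 hd) (not_lt_of_gt hg)
  · have h6 := h3 _ h5
    rw [h1] at h6
    exact one_ne_zero (Multiplicative.ofAdd.injective h6)

end

end Pool.Agent.Lib.MP_7b9603_alLO
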