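import Pool.Agent.Lib.MP_7b9603_alLO.C2
import Pool.Agent.Lib.MP_7b9603_alLO.DEven
import Pool.Agent.Lib.MP_7b9603_alLO.DOdd

/-!
# Artin groups of dihedral type with commuting generators: deleting one generator
-/

set_option autoImplicit false

namespace Pool.Agent.Lib.MP_7b9603_alLO

open SPH Pool.Agent.Lib.MP_7b9603_alCF

universe u v

section

variable {S : Type u} (M : CoxeterMatrix S)

private theorem x4_ind {S' : Type u} {M' : CoxeterMatrix S'} {P : ArtinGroup M' → Prop} (h1 : P 1)
    (hg : ∀ s, P (agen M' s)) (hm : ∀ a b, P a → P b → P (a * b))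
    (hi : ∀ a, P a → P a⁻¹) (g : ArtinGroup M') : P g := by
  have hgen : g ∈ Subgroup.closure (Set.range (agen M')) := by
    have h : Subgroup.closure (Set.range (agen M')) = ⊤ := PresentedGroup.closure_range_of _
    rw [h]
    trivial
  induction hgen using Subgroup.closure_induction with
  | mem x hx =>
    obtain ⟨s, rfl⟩ := hx
    exact hg s
  | one => exact h1
  | mul a b _ _ ha hb => exact hm a b ha hb
  | inv a _ ha => exact hi a ha

/-- The dihedral case. -/
private theorem x4_pair (r w : S) (hrw : r ≠ w) (h0 : M r w ≠ 0) (h2 : M r w ≠ 2) :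
    RC (Subgroup.zpowers (agen (sm M ({r, w} : Set S)) ⟨w, Or.inr rfl⟩)) ∧
      agen (sm M ({r, w} : Set S)) ⟨r, Or.inl rfl⟩ ∉
        Subgroup.zpowers (agen (sm M ({r, w} : Set S)) ⟨w, Or.inr rfl⟩) := by
  classical
  obtain ⟨rP, hrP⟩ : ∃ rP : ({r, w} : Set S), rP = ⟨r, Or.inl rfl⟩ := ⟨_, rfl⟩
  obtain ⟨wP, hwP⟩ : ∃ wP : ({r, w} : Set S), wP = ⟨w, Or.inr rfl⟩ := ⟨_, rfl⟩
  have hne : rP ≠ wP := by
    rw [hrP, hwP]
    intro h
    exact hrw (congrArg Subtype.val h)
  have hcase : ∀ x : ({r, w} : Set S), x = rP ∨ x = wP := by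
    rintro ⟨x, hx⟩
    rcases hx with hx | hx
    · left
      rw [hrP]
      exact Subtype.ext hx
    · right
      rw [hwP]
      exact Subtype.ext hx
  have hm : sm M ({r, w} : Set S) rP wP = M r w := by
    rw [hrP, hwP]
    rfl
  rw [← hrP, ← hwP]
  have hgen : Subgroup.closure {agen (sm M ({r, w} : Set S)) rP,
      agen (sm M ({r, w} : Set S)) wP} = ⊤ := by
    rw [Subgroup.eq_top_iff']
    intro g
    refine x4_ind (P := fun g => g ∈ Subgroup.closure {agen (sm M ({r, w} : Set S)) rP,
      agen (sm M ({r, w} : Set S)) wP}) (Subgroup.one_mem _) ?_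
      (fun a b ha hb => Subgroup.mul_mem _ ha hb) (fun a ha => Subgroup.inv_mem _ ha) g
    intro s
    apply Subgroup.subset_closure
    rcases hcase s with rfl | rfl
    · exact Or.inl rfl
    · exact Or.inr rfl
  have hrel : altProd (agen (sm M ({r, w} : Set S)) rP) (agen (sm M ({r, w} : Set S)) wP)
      (M r w) = altProd (agen (sm M ({r, w} : Set S)) wP) (agen (sm M ({r, w} : Set S)) rP)
      (M r w) := by
    have := agen_rel (sm M ({r, w} : Set S)) rP wP (by rw [hm]; exact h0)
    rwa [hm] at this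
  have huniv : ∀ (Q : Type) [Group Q] (a b : Q), altProd a b (M r w) = altProd b a (M r w) →
      ∃ f : ArtinGroup (sm M ({r, w} : Set S)) →* Q, f (agen (sm M ({r, w} : Set S)) rP) = a ∧
        f (agen (sm M ({r, w} : Set S)) wP) = b := by
    intro Q _ a b hab
    have hrel' : ∀ x y : ({r, w} : Set S), sm M ({r, w} : Set S) x y ≠ 0 →
        altProd (if x = rP then a else b) (if y = rP then a else b)
          (sm M ({r, w} : Set S) x y) =
        altProd (if y = rP then a else b) (if x = rP then a else b)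
          (sm M ({r, w} : Set S) x y) := by
      intro x y _
      rcases hcase x with rfl | rfl <;> rcases hcase y with h | h
      · rw [h]
      · rw [h, if_pos rfl, if_neg hne.symm, hm]
        exact hab
      · rw [h, if_pos rfl, if_neg hne.symm, (sm M ({r, w} : Set S)).symmetric, hm]
        exact hab.symm
      · rw [h]
    refine ⟨ArtinGroup.lift _ (fun x => if x = rP then a else b) hrel', ?_, ?_⟩
    · rw [ArtinGroup.lift_agen, if_pos rfl]
    · rw [ArtinGroup.lift_agen, if_neg hne.symm]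
  have h1 : M r w ≠ 1 := M.off_diagonal r w hrw
  rcases Nat.even_or_odd' (M r w) with ⟨k, hk | hk⟩
  · rw [hk] at hrel
    refine dih_even _ _ k (by omega) hgen hrel ?_
    intro Q _ a b hab
    exact huniv Q a b (by rw [hk]; exact hab)
  · rw [hk] at hrel
    refine dih_odd _ _ k (by omega) hgen hrel ?_
    intro Q _ a b hab
    exact huniv Q a b (by rw [hk]; exact hab)

/-- `r` and `w` generate a dihedral Artin group and commute with the other generators. -/
theorem rc_dih (X : Set S) (r w : X) (hrw : r ≠ w) (h0 : M r.1 w.1 ≠ 0) (h2 : M r.1 w.1 ≠ 2)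
    (h : ∀ z ∈ X, z ≠ r.1 → z ≠ w.1 → M r.1 z = 2 ∧ M w.1 z = 2) :
    RC (dl M X r.1) ∧ agen (sm M X) r ∉ dl M X r.1 := by
  classical
  obtain ⟨hRC, hnot⟩ := x4_pair M r.1 w.1 (fun h => hrw (Subtype.ext h)) h0 h2
  obtain ⟨rP, hrP⟩ : ∃ rP : ({r.1, w.1} : Set S), rP = ⟨r.1, Or.inl rfl⟩ := ⟨_, rfl⟩
  obtain ⟨wP, hwP⟩ : ∃ wP : ({r.1, w.1} : Set S), wP = ⟨w.1, Or.inr rfl⟩ := ⟨_, rfl⟩
  rw [← hrP, ← hwP] at hnot
  rw [← hwP] at hRC
  have hP : ({r.1, w.1} : Set S) ⊆ X := by
    rintro x (hx | hx)
    · rw [hx]; exact r.2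
    · rw [hx]; exact w.2
  have hmrw : sm M ({r.1, w.1} : Set S) rP wP = sm M X r w := by
    rw [hrP, hwP]
    rfl
  -- the retraction
  have key : ∀ x y : X, x ≠ r → x ≠ w → (y = r ∨ y = w) → sm M X x y = 2 := by
    intro x y hxr hxw hy
    have := h x.1 x.2 (fun e => hxr (Subtype.ext e)) (fun e => hxw (Subtype.ext e))
    rw [sm_apply, M.symmetric]
    rcases hy with rfl | rfl
    · exact this.1
    · exact this.2
  obtain ⟨σ, hσ⟩ : ∃ σ : X → AX M ({r.1, w.1} : Set S), σ = fun x =>
    if x = r then agen (sm M ({r.1, w.1} : Set S)) rP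
    else if x = w then agen (sm M ({r.1, w.1} : Set S)) wP else 1 := ⟨_, rfl⟩
  have σr : σ r = agen (sm M ({r.1, w.1} : Set S)) rP := by rw [hσ]; exact if_pos rfl
  have σw : σ w = agen (sm M ({r.1, w.1} : Set S)) wP := by
    rw [hσ]
    dsimp only
    rw [if_neg hrw.symm, if_pos rfl]
  have σo : ∀ x, x ≠ r → x ≠ w → σ x = 1 := by
    intro x hx hx'
    rw [hσ]
    dsimp only
    rw [if_neg hx, if_neg hx']
  have a12 : ∀ a : AX M ({r.1, w.1} : Set S), altProd a 1 2 = altProd 1 a 2 := by
    intro a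
    change a * (1 * 1) = 1 * (a * 1)
    group
  have hrel : ∀ x y : X, sm M X x y ≠ 0 →
      altProd (σ x) (σ y) (sm M X x y) = altProd (σ y) (σ x) (sm M X x y) := by
    intro x y hxy
    have hrr : altProd (σ r) (σ w) (sm M X r w) = altProd (σ w) (σ r) (sm M X r w) := by
      rw [σr, σw, ← hmrw]
      exact agen_rel _ _ _ (by rw [hmrw]; exact h0)
    by_cases hx : x = r ∨ x = w
    · by_cases hy : y = r ∨ y = w
      · rcases hx with hx | hx <;> rcases hy with hy | hy
        · rw [hx, hy]
        · rw [hx, hy]; exact hrr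
        · rw [hx, hy, (sm M X).symmetric]; exact hrr.symm
        · rw [hx, hy]
      · push Not at hy
        rw [(sm M X).symmetric, key y x hy.1 hy.2 hx, σo y hy.1 hy.2]
        exact a12 _
    · push Not at hx
      by_cases hy : y = r ∨ y = w
      · rw [key x y hx.1 hx.2 hy, σo x hx.1 hx.2]
        exact (a12 _).symm
      · push Not at hy
        rw [σo x hx.1 hx.2, σo y hy.1 hy.2]
  obtain ⟨ρ, hρ⟩ : ∃ ρ : AX M X →* AX M ({r.1, w.1} : Set S), ∀ x, ρ (agen (sm M X) x) = σ x :=
    ⟨ArtinGroup.lift _ σ hrel, fun x => ArtinGroup.lift_agen _ _ _ _⟩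
  have hi : ∀ d, ρ (incX M hP d) = d := by
    intro d
    have H : ρ.comp (incX M hP) = MonoidHom.id _ := by
      apply artin_hom_ext
      rintro ⟨x, hx⟩
      rw [MonoidHom.comp_apply, incX_agen, hρ, MonoidHom.id_apply]
      rcases hx with hx | hx
      · have e1 : Set.inclusion hP ⟨x, Or.inl hx⟩ = r := Subtype.ext hx
        have e2 : (⟨x, Or.inl hx⟩ : ({r.1, w.1} : Set S)) = rP := by
          rw [hrP]; exact Subtype.ext hx
        rw [e1, σr, e2]
      · have e1 : Set.inclusion hP ⟨x, Or.inr hx⟩ = w := Subtype.ext hx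
        have e2 : (⟨x, Or.inr hx⟩ : ({r.1, w.1} : Set S)) = wP := by
          rw [hwP]; exact Subtype.ext hx
        rw [e1, σw, e2]
    exact DFunLike.congr_fun H d
  -- the complement
  obtain ⟨E, hE⟩ : ∃ E : Subgroup (AX M X), E = Subgroup.closure
    {g | ∃ x : X, x ≠ r ∧ x ≠ w ∧ g = agen (sm M X) x} := ⟨_, rfl⟩
  have hcomm : ∀ x : X, x ≠ r → x ≠ w → ∀ d, agen (sm M X) x * incX M hP d =
      incX M hP d * agen (sm M X) x := by
    intro x hxr hxw d
    have hc : ∀ y : X, (y = r ∨ y = w) → Commute (agen (sm M X) x) (agen (sm M X) y) := by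
      intro y hy
      have h3 := agen_rel (sm M X) x y (by rw [key x y hxr hxw hy]; norm_num)
      rw [key x y hxr hxw hy] at h3
      change agen (sm M X) x * (agen (sm M X) y * 1) = agen (sm M X) y * (agen (sm M X) x * 1) at h3
      rw [mul_one, mul_one] at h3
      exact h3
    change Commute (agen (sm M X) x) (incX M hP d)
    refine x4_ind (P := fun d => Commute (agen (sm M X) x) (incX M hP d)) ?_ ?_ ?_ ?_ d
    · rw [map_one]; exact Commute.one_right _
    · intro s
      rw [incX_agen]
      apply hc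
      rcases s.2 with hs | hs
      · left; exact Subtype.ext hs
      · right; exact Subtype.ext hs
    · intro a b ha hb
      rw [map_mul]
      exact ha.mul_right hb
    · intro a ha
      rw [map_inv]
      exact ha.inv_right
  have hcommE : ∀ e ∈ E, ∀ d, e * incX M hP d = incX M hP d * e := by
    intro e he d
    rw [hE] at he
    change Commute e (incX M hP d)
    induction he using Subgroup.closure_induction with
    | mem x hx =>
      obtain ⟨y, hy1, hy2, rfl⟩ := hx
      exact hcomm y hy1 hy2 d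
    | one => exact Commute.one_left _
    | mul a b _ _ ha hb => exact ha.mul_left hb
    | inv a _ ha => exact ha.inv_left
  have hdec : ∀ g : AX M X, ∃ d, ∃ e ∈ E, g = incX M hP d * e := by
    intro g
    refine x4_ind (P := fun g => ∃ d, ∃ e ∈ E, g = incX M hP d * e) ?_ ?_ ?_ ?_ g
    · exact ⟨1, 1, E.one_mem, by rw [map_one, mul_one]⟩
    · intro s
      by_cases hs : s = r ∨ s = w
      · have hs' : s.1 ∈ ({r.1, w.1} : Set S) := by
          rcases hs with rfl | rfl
          · exact Or.inl rfl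
          · exact Or.inr rfl
        refine ⟨agen _ ⟨s.1, hs'⟩, 1, E.one_mem, ?_⟩
        rw [incX_agen, mul_one]
      · push Not at hs
        refine ⟨1, agen (sm M X) s, ?_, by rw [map_one, one_mul]⟩
        rw [hE]
        exact Subgroup.subset_closure ⟨s, hs.1, hs.2, rfl⟩
    · rintro a b ⟨d, e, he, rfl⟩ ⟨d', e', he', rfl⟩
      refine ⟨d * d', e * e', E.mul_mem he he', ?_⟩
      rw [map_mul]
      calc incX M hP d * e * (incX M hP d' * e')
          = incX M hP d * (e * incX M hP d') * e' := by group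
        _ = incX M hP d * (incX M hP d' * e) * e' := by rw [hcommE e he]
        _ = incX M hP d * incX M hP d' * (e * e') := by group
    · rintro a ⟨d, e, he, rfl⟩
      refine ⟨d⁻¹, e⁻¹, E.inv_mem he, ?_⟩
      rw [mul_inv_rev, ← map_inv, hcommE e⁻¹ (E.inv_mem he)]
  have hρE : ∀ e ∈ E, ρ e = 1 := by
    intro e he
    rw [hE] at he
    induction he using Subgroup.closure_induction with
    | mem x hx =>
      obtain ⟨y, hy1, hy2, rfl⟩ := hx
      rw [hρ, σo y hy1 hy2]
    | one => exact map_one _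
    | mul a b _ _ ha hb => rw [map_mul, ha, hb, mul_one]
    | inv a _ ha => rw [map_inv, ha, inv_one]
  have hgdl : ∀ x : X, x ≠ r → agen (sm M X) x ∈ dl M X r.1 := by
    intro x hx
    refine ⟨agen _ ⟨x.1, x.2, fun e => hx (Subtype.ext e)⟩, ?_⟩
    rw [incX_agen]
  have hEdl : E ≤ dl M X r.1 := by
    rw [hE, Subgroup.closure_le]
    rintro g ⟨x, hx, _, rfl⟩
    exact hgdl x hx
  have hdl : dl M X r.1 =
      (Subgroup.zpowers (agen (sm M ({r.1, w.1} : Set S)) wP)).comap ρ := by
    ext g
    rw [Subgroup.mem_comap]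
    constructor
    · rintro ⟨g', rfl⟩
      refine x4_ind (P := fun g' => ρ (incX M Set.sdiff_subset g') ∈
        Subgroup.zpowers (agen (sm M ({r.1, w.1} : Set S)) wP)) ?_ ?_ ?_ ?_ g'
      · rw [map_one, map_one]
        exact Subgroup.one_mem _
      · intro s
        rw [incX_agen, hρ]
        by_cases hs : Set.inclusion (Set.sdiff_subset : X \ {r.1} ⊆ X) s = w
        · rw [hs, σw]
          exact Subgroup.mem_zpowers _
        · have hsr : Set.inclusion (Set.sdiff_subset : X \ {r.1} ⊆ X) s ≠ r := by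
            intro e
            have e2 : s.1 = r.1 := congrArg Subtype.val e
            exact s.2.2 e2
          rw [σo _ hsr hs]
          exact Subgroup.one_mem _
      · intro a b ha hb
        rw [map_mul, map_mul]
        exact Subgroup.mul_mem _ ha hb
      · intro a ha
        rw [map_inv, map_inv]
        exact Subgroup.inv_mem _ ha
    · intro hg
      obtain ⟨d, e, he, rfl⟩ := hdec g
      rw [map_mul, hi, hρE e he, mul_one] at hg
      obtain ⟨n, rfl⟩ := Subgroup.mem_zpowers_iff.1 hg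
      refine Subgroup.mul_mem _ ?_ (hEdl he)
      rw [map_zpow]
      refine Subgroup.zpow_mem _ ?_ n
      rw [incX_agen]
      have e1 : Set.inclusion hP wP = w := by
        rw [hwP]
      rw [e1]
      exact hgdl w hrw.symm
  rw [hdl]
  obtain ⟨P, hPc⟩ := hRC
  refine ⟨⟨_, cone_comap ρ _ P hPc⟩, ?_⟩
  rw [Subgroup.mem_comap, hρ, σr]
  exact hnot

end

end Pool.Agent.Lib.MP_7b9603_alLO
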