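import Pool.Agent.Lib.MP_7b9603_alLO.X1
import Pool.Agent.Lib.MP_7b9603_alLO.X2

/-!
# Relatively convex subgroups of Artin groups: two generators without a relation
-/

set_option autoImplicit false

namespace Pool.Agent.Lib.MP_7b9603_alLO

open SPH Pool.Agent.Lib.MP_7b9603_alCF

universe u v

section

variable {S : Type u} (M : CoxeterMatrix S)

private theorem x5_top {G : Type u} [Group G] : IsCone (⊤ : Subgroup G) (∅ : Set G) where
  mul := fun a ha => absurd ha (Set.notMem_empty a)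
  left := fun _ _ a ha => absurd ha (Set.notMem_empty a)
  right := fun _ _ a ha => absurd ha (Set.notMem_empty a)
  total := fun g => Or.inl (Subgroup.mem_top g)
  notMem := fun g hg => absurd hg (Set.notMem_empty g)
  inv := fun g hg => absurd hg (Set.notMem_empty g)

private theorem x5_im {X Y Z : Set S} (e : X = Y) (h : X ⊆ Z) (h' : Y ⊆ Z) :
    im M h = im M h' := by
  subst e
  rfl

/-- Case 1: `m_rt = ∞`. -/
theorem rc_inf (X : Set S) (r t : X) (hrt : r ≠ t) (h0 : M r.1 t.1 = 0)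
    (ih : ∀ Y ⊂ X, RCX M Y) : RC (dl M X r.1) ∧ agen (sm M X) r ∉ dl M X r.1 := by
  have hrt' : r.1 ≠ t.1 := fun h => hrt (Subtype.ext h)
  have h1 : X \ {r.1} ⊆ X := Set.sdiff_subset
  have h2 : X \ {t.1} ⊆ X := Set.sdiff_subset
  have s1 : X \ {r.1} ⊂ X := ⟨h1, fun h => (h r.2).2 rfl⟩
  have s2 : X \ {t.1} ⊂ X := ⟨h2, fun h => (h t.2).2 rfl⟩
  have h01 : (X \ {r.1}) \ {t.1} ⊆ X \ {r.1} := Set.sdiff_subset
  have h02 : (X \ {r.1}) \ {t.1} ⊆ X \ {t.1} := fun x hx => ⟨hx.1.1, hx.2⟩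
  have e0 : (X \ {r.1}) \ {t.1} = (X \ {t.1}) \ {r.1} := by
    ext x
    constructor
    · rintro ⟨⟨a, b⟩, c⟩
      exact ⟨⟨a, c⟩, b⟩
    · rintro ⟨⟨a, b⟩, c⟩
      exact ⟨⟨a, c⟩, b⟩
  have e2 : im M h02 = dl M (X \ {t.1}) r.1 := x5_im M e0 h02 _
  have r1 := ih _ s1 ⟨t.1, t.2, fun h => hrt' (Set.mem_singleton_iff.1 h).symm⟩
  have r2 := ih _ s2 ⟨r.1, r.2, fun h => hrt' (Set.mem_singleton_iff.1 h)⟩
  have hCA : RC (im M h01) := r1.1
  have hCB : RC (im M h02) := by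
    rw [e2]
    exact r2.1
  obtain ⟨PB, hPB⟩ := hCB
  have hga := ga_artin M h1 h2 h01 h02 (fun x hx => by
      by_cases hxr : x = r.1
      · exact Or.inr ⟨hx, fun h => hrt' (hxr.symm.trans h)⟩
      · exact Or.inl ⟨hx, hxr⟩)
    (fun x hx => ⟨hx.1, hx.2.2⟩)
    (fun x hx hx' y hy hy' => by
      have ex : x = t.1 := by
        by_contra h
        exact hx' ⟨hx.1, h⟩
      have ey : y = r.1 := by
        by_contra h
        exact hy' ⟨hy.1, h⟩
      rw [ex, ey, M.symmetric]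
      exact h0)
    hCA ⟨PB, hPB⟩ ⊤ (im M h02) ∅ PB x5_top hPB
    (fun c => ⟨fun _ => ⟨c, rfl⟩, fun _ => Subgroup.mem_top _⟩)
    (fun c => ⟨fun h => absurd h (Set.notMem_empty _), fun h => absurd ⟨c, rfl⟩ (hPB.notMem _ h)⟩)
  have hsup : (⊤ : Subgroup (AX M (X \ {r.1}))).map (incX M h1) ⊔ (im M h02).map (incX M h2) =
      dl M X r.1 := by
    have hd : dl M X r.1 = (⊤ : Subgroup (AX M (X \ {r.1}))).map (incX M h1) :=
      MonoidHom.range_eq_map _
    rw [hd]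
    apply sup_of_le_left
    rintro _ ⟨_, ⟨c, rfl⟩, rfl⟩
    refine ⟨incX M h01 c, Subgroup.mem_top _, ?_⟩
    rw [incX_incX, incX_incX]
  rw [hsup] at hga
  refine ⟨hga.1, fun hr => ?_⟩
  have h3 := (hga.2.2 (agen (sm M (X \ {t.1})) ⟨r.1, r.2, fun h =>
    hrt' (Set.mem_singleton_iff.1 h)⟩)).1 (by
      rw [incX_agen]
      exact hr)
  rw [e2] at h3
  exact r2.2 h3

end

end Pool.Agent.Lib.MP_7b9603_alLO
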