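import Pool.Agent.Lib.MP_7b9603_alLO.X1
import Pool.Agent.Lib.MP_7b9603_alLO.X2
import Pool.Agent.Lib.MP_7b9603_alLO.X3
import Pool.Agent.Lib.MP_7b9603_alLO.C2

/-!
# Case 2: `r` is adjacent to all generators
-/

set_option autoImplicit false

namespace Pool.Agent.Lib.MP_7b9603_alLO

open SPH Pool.Agent.Lib.MP_7b9603_alCF

universe u v

private theorem x6_le {S : Type u} (M : CoxeterMatrix S) {X Y : Set S} (h : X ⊆ Y)
    (H : Subgroup (AX M Y)) (hg : ∀ x : X, agen (sm M Y) (Set.inclusion h x) ∈ H) :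
    im M h ≤ H := by
  rintro _ ⟨g, rfl⟩
  have hgen : g ∈ Subgroup.closure (Set.range (agen (sm M X))) := by
    have h' : Subgroup.closure (Set.range (agen (sm M X))) = ⊤ :=
      PresentedGroup.closure_range_of _
    rw [h']
    trivial
  induction hgen using Subgroup.closure_induction with
  | mem x hx =>
    obtain ⟨s, rfl⟩ := hx
    rw [incX_agen]
    exact hg s
  | one => rw [map_one]; exact H.one_mem
  | mul a b _ _ ha hb => rw [map_mul]; exact H.mul_mem ha hb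
  | inv a _ ha => rw [map_inv]; exact H.inv_mem ha

private theorem x6_mem {S : Type u} (M : CoxeterMatrix S) {X Y : Set S} (h : X ⊆ Y) (y : Y)
    (hy : y.1 ∈ X) : agen (sm M Y) y ∈ im M h :=
  ⟨agen (sm M X) ⟨y.1, hy⟩, incX_agen M h _⟩

private theorem x6_map_le {S : Type u} (M : CoxeterMatrix S) {X X1 : Set S} (h : X1 ⊆ X) (r : S) :
    (dl M X1 r).map (incX M h) ≤ dl M X r := by
  rintro _ ⟨_, ⟨c, rfl⟩, rfl⟩
  rw [incX_incX]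
  refine ⟨incX M (Set.sdiff_subset_sdiff_left h : X1 \ {r} ⊆ X \ {r}) c, ?_⟩
  rw [incX_incX]

private theorem x6_inc_mem {S : Type u} (M : CoxeterMatrix S) {X X1 : Set S} (h : X1 ⊆ X) (r : S)
    (d : AX M X1) (hd : d ∈ dl M X1 r) : incX M h d ∈ dl M X r :=
  x6_map_le M h r ⟨d, hd, rfl⟩

section

variable {S : Type u} (M : CoxeterMatrix S)

/-- Case 2: `r` is adjacent to all generators, `m_rw ≥ 3`, and `w` is not adjacent to `t`. -/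
theorem rc_adj (hM : Two M) (X : Set S) (hX : X.Finite) (r w t : X) (hrw : r ≠ w)
    (h2 : M r.1 w.1 ≠ 2) (h0 : ∀ z ∈ X, M r.1 z ≠ 0) (ht : M w.1 t.1 = 0)
    (ih : ∀ Y ⊂ X, RCX M Y) : RC (dl M X r.1) ∧ agen (sm M X) r ∉ dl M X r.1 := by
  have hrw' : r.1 ≠ w.1 := fun h => hrw (Subtype.ext h)
  have hrw0 : M r.1 w.1 ≠ 0 := h0 w.1 w.2
  have hwr0 : M w.1 r.1 ≠ 0 := by rwa [M.symmetric w.1 r.1]
  obtain ⟨X1, hX1⟩ : ∃ X1 : Set S, X1 = X \ {w.1} := ⟨_, rfl⟩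
  obtain ⟨X2, hX2⟩ : ∃ X2 : Set S, X2 = {x | x ∈ X ∧ M w.1 x ≠ 0} := ⟨_, rfl⟩
  have m1 : ∀ x, x ∈ X1 ↔ x ∈ X ∧ x ≠ w.1 := fun x => by rw [hX1]; rfl
  have m2 : ∀ x, x ∈ X2 ↔ x ∈ X ∧ M w.1 x ≠ 0 := fun x => by rw [hX2]; rfl
  have m0 : ∀ x, x ∈ X2 \ {w.1} ↔ x ∈ X2 ∧ x ≠ w.1 := fun x => Iff.rfl
  have s1 : X1 ⊆ X := fun x hx => ((m1 x).1 hx).1
  have s2 : X2 ⊆ X := fun x hx => ((m2 x).1 hx).1
  have s01 : X2 \ {w.1} ⊆ X1 := fun x hx => (m1 x).2 ⟨s2 hx.1, hx.2⟩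
  have s02 : X2 \ {w.1} ⊆ X2 := Set.sdiff_subset
  have hw2 : w.1 ∈ X2 := (m2 _).2 ⟨w.2, by rw [M.diagonal]; exact one_ne_zero⟩
  have hr2 : r.1 ∈ X2 := (m2 _).2 ⟨r.2, hwr0⟩
  have hr1 : r.1 ∈ X1 := (m1 _).2 ⟨r.2, hrw'⟩
  have hr0 : r.1 ∈ X2 \ {w.1} := ⟨hr2, hrw'⟩
  have p1 : X1 ⊂ X := ⟨s1, fun h => ((m1 _).1 (h w.2)).2 rfl⟩
  have p2 : X2 ⊂ X := ⟨s2, fun h => ((m2 _).1 (h t.2)).2 ht⟩
  have hC1 : RC (im M s01) :=
    im_all M (hX.subset s1) (fun Y hY => ih Y (lt_of_le_of_lt hY p1)) s01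
  have hC2 : RC (im M s02) := (ih X2 p2 ⟨w.1, hw2⟩).1
  obtain ⟨⟨PA, hPA⟩, hA0⟩ := ih X1 p1 ⟨r.1, hr1⟩
  obtain ⟨⟨PB, hPB⟩, hB0⟩ := ih X2 p2 ⟨r.1, hr2⟩
  have hz2 : ∀ z ∈ X2 \ {w.1}, z ≠ r.1 → M r.1 z = 2 := by
    intro z hz hzr
    have hzw : w.1 ≠ z := fun h => hz.2 h.symm
    rcases hM r.1 w.1 z hrw' hzw (Ne.symm hzr) hrw0 ((m2 z).1 hz.1).2 (h0 z (s2 hz.1)) with
      h | h | h
    · exact absurd h.1 h2
    · exact absurd h.1 h2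
    · exact h.2
  obtain ⟨PB', hPB', hc1, hc2⟩ := cone_agree (incX M s01) (incX M s02)
    (agen (sm M (X2 \ {w.1})) ⟨r.1, hr0⟩) (dl M (X2 \ {w.1}) r.1)
    (central_dec M (X2 \ {w.1}) ⟨r.1, hr0⟩ hz2) (dl M X1 r.1) PA hPA
    (x6_inc_mem M s01 r.1) (by rw [incX_agen]; exact hA0) (dl M X2 r.1) PB hPB
    (x6_inc_mem M s02 r.1) (by rw [incX_agen]; exact hB0)
  obtain ⟨g1, g2, -⟩ := ga_artin M s1 s2 s01 s02
    (fun x hx => by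
      by_cases h : x = w.1
      · right; rw [h]; exact hw2
      · left; exact (m1 x).2 ⟨hx, h⟩)
    (fun x hx => ⟨hx.2, ((m1 x).1 hx.1).2⟩)
    (fun x hx hx2 y hy hy1 => by
      have hyw : y = w.1 := by
        by_contra h
        exact hy1 ((m1 y).2 ⟨s2 hy, h⟩)
      have hwx : M w.1 x = 0 := by
        by_contra h
        exact hx2 ((m2 x).2 ⟨s1 hx, h⟩)
      rw [hyw, M.symmetric x w.1]
      exact hwx)
    hC1 hC2 (dl M X1 r.1) (dl M X2 r.1) PA PB' hPA hPB' hc1 hc2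
  have hE : (dl M X1 r.1).map (incX M s1) ⊔ (dl M X2 r.1).map (incX M s2) = dl M X r.1 := by
    apply le_antisymm
    · exact sup_le (x6_map_le M s1 r.1) (x6_map_le M s2 r.1)
    · apply x6_le
      rintro ⟨x, hx⟩
      by_cases h : x = w.1
      · apply Subgroup.mem_sup_right
        refine ⟨agen (sm M X2) ⟨w.1, hw2⟩, x6_mem M _ _ ⟨hw2, fun h' => hrw' h'.symm⟩, ?_⟩
        rw [incX_agen]
        exact congrArg (agen (sm M X)) (Subtype.ext h.symm)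
      · apply Subgroup.mem_sup_left
        refine ⟨agen (sm M X1) ⟨x, (m1 x).2 ⟨hx.1, h⟩⟩,
          x6_mem M _ _ ⟨(m1 x).2 ⟨hx.1, h⟩, hx.2⟩, ?_⟩
        rw [incX_agen]
  rw [hE] at g1 g2
  refine ⟨g1, fun h => hA0 ((g2 _).1 ?_)⟩
  rw [incX_agen]
  exact h

end

end Pool.Agent.Lib.MP_7b9603_alLO
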