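import Pool.Agent.Lib.MP_7b9603_alLO.X1
import Pool.Agent.Lib.MP_7b9603_alLO.X3
import Pool.Agent.Lib.MP_7b9603_alLO.X4
import Pool.Agent.Lib.MP_7b9603_alLO.X5
import Pool.Agent.Lib.MP_7b9603_alLO.X6

/-!
# The main induction
-/

set_option autoImplicit false

namespace Pool.Agent.Lib.MP_7b9603_alLO

open SPH Pool.Agent.Lib.MP_7b9603_alCF

universe u v

section

variable {S : Type u} (M : CoxeterMatrix S)

theorem rcx_all (hM : Two M) (X : Set S) (hX : X.Finite) : RCX M X := by
  obtain ⟨n, hn⟩ : ∃ n, X.ncard = n := ⟨_, rfl⟩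
  induction n using Nat.strong_induction_on generalizing X with
  | _ n ih =>
    have ih' : ∀ Y ⊂ X, RCX M Y := fun Y hY =>
      ih Y.ncard (hn ▸ Set.ncard_lt_ncard hY hX) Y (hX.subset hY.subset) rfl
    intro r
    by_cases h1 : ∃ t : X, r ≠ t ∧ M r.1 t.1 = 0
    · obtain ⟨t, hrt, h0⟩ := h1
      exact rc_inf M X r t hrt h0 ih'
    have h0 : ∀ z ∈ X, M r.1 z ≠ 0 := by
      intro z hz hrz
      by_cases hzr : r.1 = z
      · rw [← hzr, M.diagonal] at hrz
        exact one_ne_zero hrz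
      · exact h1 ⟨⟨z, hz⟩, fun h => hzr (congrArg Subtype.val h), hrz⟩
    by_cases h2 : ∀ z ∈ X, z ≠ r.1 → M r.1 z = 2
    · exact rc_central M X r h2
    push Not at h2
    obtain ⟨w, hw, hwr, hw2⟩ := h2
    have hrw : r ≠ (⟨w, hw⟩ : X) := fun h => hwr (congrArg Subtype.val h).symm
    by_cases h3 : ∃ t : X, M w t.1 = 0
    · obtain ⟨t, ht⟩ := h3
      exact rc_adj M hM X hX r ⟨w, hw⟩ t hrw hw2 h0 ht ih'
    · refine rc_dih M X r ⟨w, hw⟩ hrw (h0 w hw) hw2 fun z hz hzr hzw => ?_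
      have hwz : M w z ≠ 0 := fun h => h3 ⟨⟨z, hz⟩, h⟩
      rcases hM r.1 w z (fun h => hwr h.symm) (fun h => hzw h.symm) (fun h => hzr h.symm)
        (h0 w hw) hwz (h0 z hz) with h | h | h
      · exact absurd h.1 hw2
      · exact absurd h.1 hw2
      · exact ⟨h.2, h.1⟩

private theorem x7_bot (h : (∅ : Set S) ⊆ Set.univ) : im M h = ⊥ := by
  have h1 : incX M h = 1 := by
    apply artin_hom_ext
    rintro ⟨a, ha⟩
    exact absurd ha (Set.notMem_empty a)
  unfold im
  rw [h1]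
  exact MonoidHom.range_one

theorem order_of_two [Finite S] (hM : Two M) :
    ∃ _ : LinearOrder (ArtinGroup M), ∀ a b c : ArtinGroup M, a < b → c * a < c * b := by
  have h1 : RC (im M (Set.empty_subset (Set.univ : Set S))) :=
    im_all M Set.finite_univ (fun Y _ => rcx_all M hM Y (Set.toFinite Y)) _
  rw [x7_bot] at h1
  obtain ⟨L, hL⟩ := order_of_bot h1
  let f : ArtinGroup M →* AX M Set.univ :=
    incA M (sm M Set.univ) (fun s => ⟨s, Set.mem_univ s⟩) (fun _ _ => rfl)
  let g : AX M Set.univ →* ArtinGroup M :=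
    incA (sm M Set.univ) M (fun s => s.1) (fun _ _ => rfl)
  have hgf : g.comp f = MonoidHom.id _ := by
    apply artin_hom_ext
    intro a
    rw [MonoidHom.comp_apply, incA_agen, incA_agen]
    rfl
  have hf : Function.Injective f := by
    intro a b hab
    have h2 : g.comp f a = g.comp f b := congrArg g hab
    rwa [hgf] at h2
  refine ⟨LinearOrder.lift' f hf, fun a b c hab => ?_⟩
  have h2 : f a < f b := hab
  have h3 := hL (f a) (f b) (f c) h2
  rw [← map_mul, ← map_mul] at h3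
  exact h3

end

end Pool.Agent.Lib.MP_7b9603_alLO
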